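import Pool.Agent.H71.CuspDef

/-!
The chart near the exceptional line.
-/

open MvPolynomial

namespace Pool.Agent.H71

/-- `(exp r - 1)/r` -/
noncomputable def E1 (r : ℂ) : ℂ := dslope Complex.exp 0 r

theorem continuous_E1 : Continuous E1 := by
  unfold E1
  rw [← continuousOn_univ]
  exact (continuousOn_dslope Filter.univ_mem).2
    ⟨Complex.continuous_exp.continuousOn, Complex.differentiableAt_exp⟩

theorem E1_zero : E1 0 = 1 := by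
  unfold E1
  rw [dslope_same, Complex.deriv_exp, Complex.exp_zero]

theorem mul_E1 (r : ℂ) : r * E1 r = Complex.exp r - 1 := by
  have h := sub_smul_dslope Complex.exp 0 r
  simp only [sub_zero, smul_eq_mul, Complex.exp_zero] at h
  exact h

/-- `log (1 + r)/r` -/
noncomputable def L1 (r : ℂ) : ℂ := dslope (fun r => Complex.log (1 + r)) 0 r

theorem mul_L1 (r : ℂ) : r * L1 r = Complex.log (1 + r) := by
  have h := sub_smul_dslope (fun r => Complex.log (1 + r)) 0 r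
  simp only [sub_zero, smul_eq_mul, add_zero, Complex.log_one] at h
  exact h

theorem continuousAt_L1 : ContinuousAt L1 0 := by
  unfold L1
  rw [continuousAt_dslope_same]
  have : DifferentiableAt ℂ Complex.log (1 + 0) := by
    apply Complex.differentiableAt_log
    simp
  exact this.comp 0 (by fun_prop)

/-- the chart, `T = exp (3 e M)` -/
noncomputable def Psi (e M N : ℂ) : Fin 3 → ℂ :=
  let T := Complex.exp (e * M) ^ 3
  let A := 3 * E1 (3 * (e * M)) * (1 + e * T) / (T ^ 2 * (1 - e) ^ 2)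
  let b := (2 - e) / (1 - e) ^ 2
  let x := -1 + A * M - b * e
  let S := 3 * (Complex.exp (e * M) ^ 2 - 2 * M * E1 (2 * (e * M))) / (T ^ 2 * (1 - e) ^ 2)
  let z := T ^ 2 * (1 - e) ^ 2 * e
  ![x, z, (A ^ 2 * N - 2 * A * b * M + b ^ 2 * e) / (T ^ 2 * (1 - e) ^ 2) + x ^ 2 - S ^ 2 / 3 +
    z * S ^ 3 / 27]

theorem Psi_zero (N : ℂ) : Psi 0 0 N = ![-1, 0, 9 * N - 2] := by
  simp only [Psi]
  have h1 : E1 (3 * (0 * 0)) = 1 := by rw [mul_zero, mul_zero, E1_zero]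
  rw [h1]
  ext i
  fin_cases i
  · simp
  · simp
  · simp
    ring

theorem Psi_eq (e M N : ℂ) (he : e ≠ 0) (he1 : e ≠ 1) (hN : M ^ 2 = e * N) :
    Psi e M N = emb (Complex.exp (e * M) ^ 3 * (1 - e)) (Complex.exp (e * M) ^ 2 * (1 - e)) := by
  have h1e : 1 - e ≠ 0 := sub_ne_zero.2 (Ne.symm he1)
  have e3 : 3 * (e * M) * E1 (3 * (e * M)) = Complex.exp (e * M) ^ 3 - 1 := by
    rw [mul_E1, ← Complex.exp_nat_mul]
    norm_num
  have e2 : 2 * (e * M) * E1 (2 * (e * M)) = Complex.exp (e * M) ^ 2 - 1 := by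
    rw [mul_E1, ← Complex.exp_nat_mul]
    norm_num
  have hT : Complex.exp (e * M) ≠ 0 := Complex.exp_ne_zero _
  simp only [Psi]
  generalize Complex.exp (e * M) = t at *
  generalize E1 (3 * (e * M)) = E3 at *
  generalize E1 (2 * (e * M)) = E2 at *
  have hf : (t ^ 3 * (1 - e)) ^ 2 - (t ^ 2 * (1 - e)) ^ 3 = (t ^ 3) ^ 2 * (1 - e) ^ 2 * e := by
    ring
  have hD : (t ^ 3) ^ 2 * (1 - e) ^ 2 ≠ 0 :=
    mul_ne_zero (pow_ne_zero _ (pow_ne_zero _ hT)) (pow_ne_zero _ h1e)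
  have hz : (t ^ 3) ^ 2 * (1 - e) ^ 2 * e ≠ 0 := mul_ne_zero hD he
  have hmem := emb_mem (t ^ 3 * (1 - e)) (t ^ 2 * (1 - e)) (by rw [hf]; exact hz)
  have r0 := emb_zero (t ^ 3 * (1 - e)) (t ^ 2 * (1 - e))
  have r1 := emb_one (t ^ 3 * (1 - e)) (t ^ 2 * (1 - e))
  have r2 := emb_two (t ^ 3 * (1 - e)) (t ^ 2 * (1 - e))
  rw [hf] at r0 r1 r2
  rw [mem_cuP] at hmem
  -- the first coordinate
  have hx : -1 + 3 * E3 * (1 + e * t ^ 3) / ((t ^ 3) ^ 2 * (1 - e) ^ 2) * M -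
      (2 - e) / (1 - e) ^ 2 * e = emb (t ^ 3 * (1 - e)) (t ^ 2 * (1 - e)) 0 := by
    rw [r0]
    field_simp
    linear_combination (1 + e * t ^ 3) * e3
  have hS : 3 * (t ^ 2 - 2 * M * E2) / ((t ^ 3) ^ 2 * (1 - e) ^ 2) =
      emb (t ^ 3 * (1 - e)) (t ^ 2 * (1 - e)) 0 ^ 2 + 2 -
        emb (t ^ 3 * (1 - e)) (t ^ 2 * (1 - e)) 1 * emb (t ^ 3 * (1 - e)) (t ^ 2 * (1 - e)) 2 := by
    rw [r2, r1, r0]
    rw [mul_div_cancel₀ _ hz]
    have : 3 * (t ^ 2 - 2 * M * E2) / ((t ^ 3) ^ 2 * (1 - e) ^ 2) =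
      3 * (1 - t ^ 2 * (1 - e)) / ((t ^ 3) ^ 2 * (1 - e) ^ 2 * e) := by
      field_simp
      linear_combination (-1 : ℂ) * e2
    rw [this]
    ring
  have hq : ((3 * E3 * (1 + e * t ^ 3) / ((t ^ 3) ^ 2 * (1 - e) ^ 2)) ^ 2 * N -
      2 * (3 * E3 * (1 + e * t ^ 3) / ((t ^ 3) ^ 2 * (1 - e) ^ 2)) * ((2 - e) / (1 - e) ^ 2) * M +
        ((2 - e) / (1 - e) ^ 2) ^ 2 * e) / ((t ^ 3) ^ 2 * (1 - e) ^ 2) =
      (emb (t ^ 3 * (1 - e)) (t ^ 2 * (1 - e)) 0 + 1) ^ 2 /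
        emb (t ^ 3 * (1 - e)) (t ^ 2 * (1 - e)) 1 := by
    rw [← hx, r1]
    generalize 3 * E3 * (1 + e * t ^ 3) / ((t ^ 3) ^ 2 * (1 - e) ^ 2) = A
    generalize (2 - e) / (1 - e) ^ 2 = b
    generalize (t ^ 3) ^ 2 * (1 - e) ^ 2 = D at *
    field_simp
    linear_combination (-A ^ 2) * hN
  rw [hx, hS, hq, ← r1]
  have hz' : emb (t ^ 3 * (1 - e)) (t ^ 2 * (1 - e)) 1 ≠ 0 := by rw [r1]; exact hz
  generalize emb (t ^ 3 * (1 - e)) (t ^ 2 * (1 - e)) = v at *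
  have hv : v = ![v 0, v 1, v 2] := by
    ext i
    fin_cases i <;> rfl
  have h2 : (v 0 + 1) ^ 2 / v 1 + v 0 ^ 2 - (v 0 ^ 2 + 2 - v 1 * v 2) ^ 2 / 3 +
      v 1 * (v 0 ^ 2 + 2 - v 1 * v 2) ^ 3 / 27 = v 2 := by
    have : v 1 * ((v 0 + 1) ^ 2 / v 1 + v 0 ^ 2 - (v 0 ^ 2 + 2 - v 1 * v 2) ^ 2 / 3 +
      v 1 * (v 0 ^ 2 + 2 - v 1 * v 2) ^ 3 / 27) = v 1 * v 2 := by
      have h3 : v 1 * ((v 0 + 1) ^ 2 / v 1) = (v 0 + 1) ^ 2 := mul_div_cancel₀ _ hz'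
      linear_combination h3 + hmem / 27
    exact mul_left_cancel₀ hz' this
  rw [h2]
  exact hv.symm

end Pool.Agent.H71
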