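import Pool.Agent.H71.CuspFlow

/-!
The homotopies.
-/

open MvPolynomial Filter Topology

namespace Pool.Agent.H71

/-- the point moved by the flow -/
noncomputable def gg (τ : ℝ) (a b : ℂ) : Fin 3 → ℂ :=
  emb (Complex.exp (-((τ : ℂ) * BB a b)) ^ 3 * a) (Complex.exp (-((τ : ℂ) * BB a b)) ^ 2 * b)

theorem ff_gg (σ a b : ℂ) : (σ ^ 3 * a) ^ 2 - (σ ^ 2 * b) ^ 3 = σ ^ 6 * (a ^ 2 - b ^ 3) := by ring

theorem ff_gg_ne (s a b : ℂ) (h : a ^ 2 - b ^ 3 ≠ 0) :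
    (Complex.exp s ^ 3 * a) ^ 2 - (Complex.exp s ^ 2 * b) ^ 3 ≠ 0 := by
  rw [ff_gg]
  exact mul_ne_zero (pow_ne_zero _ (Complex.exp_ne_zero _)) h

theorem gg_mem (τ : ℝ) (a b : ℂ) (h : a ^ 2 - b ^ 3 ≠ 0) : gg τ a b ∈ zeroSet cuP :=
  emb_mem _ _ (ff_gg_ne _ a b h)

theorem continuousAt_emb (a b : ℂ) (h : a ^ 2 - b ^ 3 ≠ 0) :
    ContinuousAt (fun p : ℂ × ℂ => emb p.1 p.2) (a, b) := by
  have hf : ContinuousAt (fun p : ℂ × ℂ => p.1 ^ 2 - p.2 ^ 3) (a, b) := by fun_prop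
  have h0 : ContinuousAt (fun p : ℂ × ℂ => (p.1 - 1) / (p.1 ^ 2 - p.2 ^ 3)) (a, b) :=
    (continuousAt_fst.sub continuousAt_const).div hf h
  have h3 : ContinuousAt (fun p : ℂ × ℂ => 3 * (1 - p.2) / (p.1 ^ 2 - p.2 ^ 3)) (a, b) :=
    (continuousAt_const.mul (continuousAt_const.sub continuousAt_snd)).div hf h
  rw [continuousAt_pi]
  intro i
  fin_cases i
  · exact h0
  · exact hf
  · exact (((h0.pow 2).add continuousAt_const).sub h3).div hf h

theorem continuousAt_gg (τ : ℝ) (a b : ℂ) (h : a ^ 2 - b ^ 3 ≠ 0) :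
    ContinuousAt (fun p : ℝ × ℂ × ℂ => gg p.1 p.2.1 p.2.2) (τ, a, b) := by
  have hB : ContinuousAt (fun p : ℝ × ℂ × ℂ => BB p.2.1 p.2.2) (τ, a, b) :=
    ContinuousAt.comp (f := fun p : ℝ × ℂ × ℂ => p.2) (g := fun p : ℂ × ℂ => BB p.1 p.2)
      (continuousAt_BB a b h) continuousAt_snd
  have hσ : ContinuousAt (fun p : ℝ × ℂ × ℂ => Complex.exp (-((p.1 : ℂ) * BB p.2.1 p.2.2)))
      (τ, a, b) := by
    apply Complex.continuous_exp.continuousAt.comp
    exact ((Complex.continuous_ofReal.continuousAt.comp continuousAt_fst).mul hB).neg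
  have h1 : ContinuousAt (fun p : ℝ × ℂ × ℂ => p.2.1) (τ, a, b) := by fun_prop
  have h2 : ContinuousAt (fun p : ℝ × ℂ × ℂ => p.2.2) (τ, a, b) := by fun_prop
  exact ContinuousAt.comp (g := fun p : ℂ × ℂ => emb p.1 p.2)
    (f := fun p : ℝ × ℂ × ℂ => (Complex.exp (-((p.1 : ℂ) * BB p.2.1 p.2.2)) ^ 3 * p.2.1,
      Complex.exp (-((p.1 : ℂ) * BB p.2.1 p.2.2)) ^ 2 * p.2.2))
    (continuousAt_emb _ _ (ff_gg_ne _ a b h)) (((hσ.pow 3).mul h1).prodMk ((hσ.pow 2).mul h2))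

theorem gg_zero (a b : ℂ) : gg 0 a b = emb a b := by
  simp [gg]

/-- auxiliary function: `(uu - vv)/z` -/
noncomputable def RR (v : Fin 3 → ℂ) : ℂ := ((v 0 + 1) * (v 0 + 2) - v 1 * v 2) / 3

theorem RR_eq (v : Fin 3 → ℂ) : v 1 * RR v = uu v - vv v := by
  unfold RR uu vv
  ring

/-- auxiliary function: `RR ^ 2 / z` -/
noncomputable def rho (v : Fin 3 → ℂ) : ℂ :=
  ((v 2 - v 0 ^ 2 + (v 0 ^ 2 + 2 - v 1 * v 2) ^ 2 / 3 - v 1 * (v 0 ^ 2 + 2 - v 1 * v 2) ^ 3 / 27) *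
    (v 0 + 2) ^ 2 - 2 * v 2 * (v 0 + 1) * (v 0 + 2) + v 1 * v 2 ^ 2) / 9

theorem rho_eq (v : Fin 3 → ℂ) (hv : v ∈ zeroSet cuP) : RR v ^ 2 = v 1 * rho v := by
  rw [mem_cuP] at hv
  unfold RR rho
  linear_combination (v 0 + 2) ^ 2 / 243 * hv

/-- auxiliary function -/
noncomputable def ll (v : Fin 3 → ℂ) : ℂ := L1 (v 1 * RR v / vv v)

/-- first chart coordinate -/
noncomputable def eF (v : Fin 3 → ℂ) : ℂ := v 1 / uu v ^ 2
/-- second chart coordinate -/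
noncomputable def MF (v : Fin 3 → ℂ) : ℂ := uu v ^ 2 * RR v / vv v * ll v
/-- third chart coordinate -/
noncomputable def NF (v : Fin 3 → ℂ) : ℂ := uu v ^ 6 / vv v ^ 2 * ll v ^ 2 * rho v
/-- the scaling factor -/
noncomputable def kap (τ : ℝ) (v : Fin 3 → ℂ) : ℝ :=
  1 - τ * (mm (uu v) (vv v) / (‖v 1‖ ^ 2 + mm (uu v) (vv v)))

theorem eMF (v : Fin 3 → ℂ) (hu : uu v ≠ 0) (hv : vv v ≠ 0) :
    eF v * MF v = Complex.log (uu v / vv v) := by
  have h1 : eF v * MF v = v 1 * RR v / vv v * ll v := by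
    unfold eF MF
    field_simp
  rw [h1, ll, mul_L1, RR_eq]
  congr 1
  field_simp
  ring

theorem chart_eq (τ : ℝ) (v : Fin 3 → ℂ) (hX : v ∈ zeroSet cuP) (hz : v 1 ≠ 0) (hu : uu v ≠ 0)
    (hv : vv v ≠ 0) :
    gg τ (uu v) (vv v) = Psi (eF v) (kap τ v * MF v) (kap τ v ^ 2 * NF v) := by
  have hrel := uv_rel v hX
  have he : eF v ≠ 0 := div_ne_zero hz (pow_ne_zero _ hu)
  have h1e : 1 - eF v = vv v ^ 3 / uu v ^ 2 := by
    unfold eF
    rw [← hrel]
    field_simp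
    ring
  have he1 : eF v ≠ 1 := by
    intro h
    rw [h, sub_self] at h1e
    exact div_ne_zero (pow_ne_zero _ hv) (pow_ne_zero _ hu) h1e.symm
  have hMN : (kap τ v * MF v : ℂ) ^ 2 = eF v * (kap τ v ^ 2 * NF v) := by
    have h2 : MF v ^ 2 = eF v * NF v := by
      unfold MF eF NF
      have := rho_eq v hX
      field_simp
      rw [this]
      ring
    rw [mul_pow, h2]
    ring
  rw [Psi_eq _ _ _ he he1 hMN]
  have hL : eF v * (kap τ v * MF v) = -((τ : ℂ) * BB (uu v) (vv v)) +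
      Complex.log (uu v / vv v) := by
    have h3 : eF v * (kap τ v * MF v) = kap τ v * (eF v * MF v) := by ring
    rw [h3, eMF v hu hv]
    unfold kap BB
    rw [hrel]
    push_cast
    ring
  have hexp : Complex.exp (eF v * (kap τ v * MF v)) =
      Complex.exp (-((τ : ℂ) * BB (uu v) (vv v))) * (uu v / vv v) := by
    rw [hL, Complex.exp_add, Complex.exp_log (div_ne_zero hu hv)]
  rw [hexp, h1e, gg]
  congr 1
  · field_simp
  · field_simp

/-- the homotopy from the identity to the composition through the complement of a ray -/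
noncomputable def GG (τ : ℝ) (v : Fin 3 → ℂ) : Fin 3 → ℂ :=
  open Classical in
  if v 1 = 0 then ![-1, 0, (1 - (τ : ℂ)) ^ 2 * (v 2 + 2) - 2] else gg τ (uu v) (vv v)

theorem mm_one : mm 1 1 = 2 := by
  simp [mm]
  norm_num

theorem GG_eq_Psi (τ : ℝ) (v : Fin 3 → ℂ) (hX : v ∈ zeroSet cuP) (hu : uu v ≠ 0)
    (hv : vv v ≠ 0) : GG τ v = Psi (eF v) (kap τ v * MF v) (kap τ v ^ 2 * NF v) := by
  by_cases hz : v 1 = 0
  · have hx := z_zero v hX hz
    have huu : uu v = 1 := by simp [uu, hz]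
    have hvv : vv v = 1 := by simp [vv, hz]
    have h1 : eF v = 0 := by simp [eF, hz]
    have hR : RR v = 0 := by simp [RR, hz, hx]
    have h2 : MF v = 0 := by simp [MF, hR]
    have h3 : ll v = 1 := by
      unfold ll
      rw [hz, zero_mul, zero_div, L1, dslope_same]
      have h6 : HasDerivAt (fun r : ℂ => 1 + r) 1 0 := by
        simpa using (hasDerivAt_id (0 : ℂ)).const_add 1
      have h4 := h6.clog (by simp)
      rw [h4.deriv]
      norm_num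
    have h4 : NF v = (v 2 + 2) / 9 := by
      unfold NF rho
      rw [h3, huu, hvv, hz, hx]
      ring
    have h5 : kap τ v = 1 - τ := by
      unfold kap
      rw [huu, hvv, hz, mm_one]
      simp
    rw [h1, h2, mul_zero, Psi_zero, GG, if_pos hz, h4, h5]
    congr 3
    push_cast
    ring
  · rw [GG, if_neg hz]
    exact chart_eq τ v hX hz hu hv

end Pool.Agent.H71
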