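import Pool.Agent.H71.CuspW

/-!
Contractibility of the surface.
-/

open MvPolynomial Filter Topology

namespace Pool.Agent.H71

/-- from the surface to the complement of a ray -/
noncomputable def piX : C(zeroSet cuP, WW) :=
  ⟨fun v => ⟨(uu v.1 + hh (vv v.1), vv v.1), by
    rintro ⟨h1, r, hr, h2⟩
    simp only at h1 h2
    have h3 : uu v.1 ^ 2 = vv v.1 ^ 3 := by
      have h4 : uu v.1 = -hh (vv v.1) := by linear_combination h1
      rw [h4, neg_sq, hh_sq, h2, Complex.norm_real, Real.norm_eq_abs, abs_of_nonneg hr]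
      push_cast
      ring
    have hz : v.1 1 = 0 := by
      rw [← uv_rel v.1 v.2, h3, sub_self]
    have huu : uu v.1 = 1 := by simp [uu, hz]
    have hvv : vv v.1 = 1 := by simp [vv, hz]
    rw [huu, hvv] at h1
    simp [hh] at h1⟩, by
    apply Continuous.subtype_mk
    exact ((continuous_uu.comp continuous_subtype_val).add
      (continuous_hh.comp (continuous_vv.comp continuous_subtype_val))).prodMk
      (continuous_vv.comp continuous_subtype_val)⟩

/-- from the complement of a ray to the surface -/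
noncomputable def gam : C(WW, zeroSet cuP) :=
  ⟨fun p => ⟨gfun (p.1.1 - hh p.1.2) p.1.2, gfun_mem _ _⟩, by
    apply Continuous.subtype_mk
    rw [continuous_iff_continuousAt]
    rintro ⟨⟨a, b⟩, hp⟩
    apply ContinuousAt.comp (g := fun p : ℂ × ℂ => gfun p.1 p.2)
      (f := fun p : WW => (p.1.1 - hh p.1.2, p.1.2))
    · apply continuousAt_gfun
      simpa using hp
    · exact (((continuous_fst.comp continuous_subtype_val).sub (continuous_hh.comp
        (continuous_snd.comp continuous_subtype_val))).prodMk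
        (continuous_snd.comp continuous_subtype_val)).continuousAt⟩

theorem homotopic_id : (ContinuousMap.id (zeroSet cuP)).Homotopic (gam.comp piX) := by
  refine ⟨⟨⟨fun p => ⟨GG (p.1 : ℝ) p.2.1, GG_mem _ _ p.2.2⟩, ?_⟩, ?_, ?_⟩⟩
  · apply Continuous.subtype_mk
    exact continuous_GG.comp (f := fun p : unitInterval × zeroSet cuP => ((p.1 : ℝ), p.2))
      (by fun_prop)
  · intro v
    apply Subtype.ext
    change GG ((0 : unitInterval) : ℝ) v.1 = v.1
    rw [Set.Icc.coe_zero]
    by_cases hz : v.1 1 = 0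
    · rw [GG, if_pos hz]
      have hx := z_zero v.1 v.2 hz
      ext i
      fin_cases i
      · exact hx.symm
      · exact hz.symm
      · simp
    · rw [GG, if_neg hz, gg_zero, emb_uv v.1 v.2 hz]
  · intro v
    apply Subtype.ext
    change GG ((1 : unitInterval) : ℝ) v.1 = gfun (uu v.1 + hh (vv v.1) - hh (vv v.1)) (vv v.1)
    rw [Set.Icc.coe_one, add_sub_cancel_right]
    by_cases hz : v.1 1 = 0
    · have hf : uu v.1 ^ 2 - vv v.1 ^ 3 = 0 := by rw [uv_rel v.1 v.2, hz]
      rw [GG, if_pos hz, gfun, if_pos hf]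
      simp
    · have hf : uu v.1 ^ 2 - vv v.1 ^ 3 ≠ 0 := by rw [uv_rel v.1 v.2]; exact hz
      rw [GG, if_neg hz, gfun, if_neg hf]

/-- the base point -/
def wBase : WW := ⟨(0, -1), by
  rintro ⟨-, r, hr, h2⟩
  simp only at h2
  have := congrArg Complex.re h2
  simp at this
  linarith⟩

theorem K1_mem (s : ℝ) (hs : 0 ≤ s) (p : ℂ × ℂ) (hp : p ∈ WW) :
    (p.1, p.2 - ((s * (1 + ‖p.2‖) : ℝ) : ℂ)) ∈ WW := by
  rintro ⟨h1, r, hr, h2⟩
  simp only at h1 h2
  apply hp
  refine ⟨h1, r + s * (1 + ‖p.2‖), by positivity, ?_⟩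
  rw [Complex.ofReal_add, ← h2]
  ring

theorem K2_mem (s : ℝ) (hs0 : 0 ≤ s) (hs1 : s ≤ 1) (p : ℂ × ℂ) :
    (((1 - s : ℝ) : ℂ) * p.1, ((1 - s : ℝ) : ℂ) * (p.2 - ((1 * (1 + ‖p.2‖) : ℝ) : ℂ)) -
      (s : ℂ)) ∈ WW := by
  rintro ⟨-, r, hr, h2⟩
  simp only at h2
  have h3 := congrArg Complex.re h2
  rw [Complex.sub_re, Complex.re_ofReal_mul, Complex.sub_re, Complex.ofReal_re,
    Complex.ofReal_re, Complex.ofReal_re] at h3
  have h4 : p.2.re ≤ ‖p.2‖ := Complex.re_le_norm _
  nlinarith [hs0]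

theorem contractible_WW : (ContinuousMap.id WW).Homotopic (ContinuousMap.const WW wBase) := by
  let f : C(WW, WW) := ⟨fun p => ⟨_, K1_mem 1 zero_le_one p.1 p.2⟩, by
    apply Continuous.subtype_mk
    have : Continuous (fun p : ℂ × ℂ => (p.1, p.2 - ((1 * (1 + ‖p.2‖) : ℝ) : ℂ))) := by fun_prop
    exact this.comp continuous_subtype_val⟩
  have h1 : (ContinuousMap.id WW).Homotopic f := by
    refine ⟨⟨⟨fun p => ⟨_, K1_mem (p.1 : ℝ) p.1.2.1 p.2.1 p.2.2⟩, ?_⟩, ?_, ?_⟩⟩
    · apply Continuous.subtype_mk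
      have : Continuous (fun p : ℝ × ℂ × ℂ =>
        (p.2.1, p.2.2 - ((p.1 * (1 + ‖p.2.2‖) : ℝ) : ℂ))) := by fun_prop
      exact this.comp (f := fun p : unitInterval × WW => ((p.1 : ℝ), p.2.1)) (by fun_prop)
    · intro p
      apply Subtype.ext
      simp
    · intro p
      apply Subtype.ext
      simp [f]
  have h2 : f.Homotopic (ContinuousMap.const WW wBase) := by
    refine ⟨⟨⟨fun p => ⟨_, K2_mem (p.1 : ℝ) p.1.2.1 p.1.2.2 p.2.1⟩, ?_⟩, ?_, ?_⟩⟩
    · apply Continuous.subtype_mk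
      have : Continuous (fun p : ℝ × ℂ × ℂ =>
        (((1 - p.1 : ℝ) : ℂ) * p.2.1, ((1 - p.1 : ℝ) : ℂ) *
          (p.2.2 - ((1 * (1 + ‖p.2.2‖) : ℝ) : ℂ)) - (p.1 : ℂ))) := by fun_prop
      exact this.comp (f := fun p : unitInterval × WW => ((p.1 : ℝ), p.2.1)) (by fun_prop)
    · intro p
      apply Subtype.ext
      simp [f]
    · intro p
      apply Subtype.ext
      simp [wBase]
  exact h1.trans h2

theorem contractible_cuP : ContractibleSpace (zeroSet cuP) := by
  rw [contractible_iff_id_nullhomotopic]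
  refine ⟨gam wBase, ?_⟩
  have h1 := homotopic_id
  have h2 : (gam.comp piX).Homotopic (ContinuousMap.const (zeroSet cuP) (gam wBase)) := by
    have h3 : (gam.comp ((ContinuousMap.id WW).comp piX)).Homotopic
        (gam.comp ((ContinuousMap.const WW wBase).comp piX)) :=
      ContinuousMap.Homotopic.comp (ContinuousMap.Homotopic.refl gam)
        (ContinuousMap.Homotopic.comp contractible_WW (ContinuousMap.Homotopic.refl piX))
    exact h3
  exact h1.trans h2

end Pool.Agent.H71
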