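import Pool.Agent.H71.SurfChain

/-!
A contractible surface in `ℂ³` with exactly one singular point.

With `S = x² + 2 - zw` the polynomial `P` satisfies
`z P = 27 (1 + xz)² - 27 z - (3 - zS)³`.
-/

open MvPolynomial

namespace Pool.Agent.H71

/-- the polynomial `27(x+1)² + 27z(x²-w) - 9zS² + z²S³` with `S = x² + 2 - zw`, the variables being
`x = X 0`, `z = X 1`, `w = X 2` -/
noncomputable def cuP : MvPolynomial (Fin 3) ℂ :=
  27 * (X 0 + 1) ^ 2 + 27 * X 1 * (X 0 ^ 2 - X 2) - 9 * X 1 * (X 0 ^ 2 + 2 - X 1 * X 2) ^ 2 +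
    X 1 ^ 2 * (X 0 ^ 2 + 2 - X 1 * X 2) ^ 3

theorem eval_cuP (v : Fin 3 → ℂ) :
    eval v cuP = 27 * (v 0 + 1) ^ 2 + 27 * v 1 * (v 0 ^ 2 - v 2) -
      9 * v 1 * (v 0 ^ 2 + 2 - v 1 * v 2) ^ 2 + v 1 ^ 2 * (v 0 ^ 2 + 2 - v 1 * v 2) ^ 3 := by
  simp [cuP]

theorem mem_cuP (v : Fin 3 → ℂ) : v ∈ zeroSet cuP ↔
    27 * (v 0 + 1) ^ 2 + 27 * v 1 * (v 0 ^ 2 - v 2) -
      9 * v 1 * (v 0 ^ 2 + 2 - v 1 * v 2) ^ 2 + v 1 ^ 2 * (v 0 ^ 2 + 2 - v 1 * v 2) ^ 3 = 0 := by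
  change eval v cuP = 0 ↔ _
  rw [eval_cuP]

/-- first plane coordinate -/
noncomputable def uu (v : Fin 3 → ℂ) : ℂ := 1 + v 0 * v 1

/-- second plane coordinate -/
noncomputable def vv (v : Fin 3 → ℂ) : ℂ := 1 - v 1 * (v 0 ^ 2 + 2 - v 1 * v 2) / 3

theorem uv_rel (v : Fin 3 → ℂ) (hv : v ∈ zeroSet cuP) : uu v ^ 2 - vv v ^ 3 = v 1 := by
  rw [mem_cuP] at hv
  unfold uu vv
  linear_combination (v 1 / 27) * hv

theorem z_zero (v : Fin 3 → ℂ) (hv : v ∈ zeroSet cuP) (hz : v 1 = 0) : v 0 = -1 := by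
  rw [mem_cuP, hz] at hv
  have : (v 0 + 1) ^ 2 = 0 := by linear_combination hv / 27
  have := pow_eq_zero_iff (two_ne_zero) |>.1 this
  linear_combination this

/-- the inverse map from the complement of the cusp `u² = v³` -/
noncomputable def emb (a b : ℂ) : Fin 3 → ℂ :=
  ![(a - 1) / (a ^ 2 - b ^ 3), a ^ 2 - b ^ 3,
    (((a - 1) / (a ^ 2 - b ^ 3)) ^ 2 + 2 - 3 * (1 - b) / (a ^ 2 - b ^ 3)) / (a ^ 2 - b ^ 3)]

theorem emb_zero (a b : ℂ) : emb a b 0 = (a - 1) / (a ^ 2 - b ^ 3) := rfl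
theorem emb_one (a b : ℂ) : emb a b 1 = a ^ 2 - b ^ 3 := rfl
theorem emb_two (a b : ℂ) : emb a b 2 = (((a - 1) / (a ^ 2 - b ^ 3)) ^ 2 + 2 -
    3 * (1 - b) / (a ^ 2 - b ^ 3)) / (a ^ 2 - b ^ 3) := rfl

theorem uu_emb (a b : ℂ) (h : a ^ 2 - b ^ 3 ≠ 0) : uu (emb a b) = a := by
  unfold uu
  rw [emb_zero, emb_one]
  field_simp
  ring

theorem vv_emb (a b : ℂ) (h : a ^ 2 - b ^ 3 ≠ 0) : vv (emb a b) = b := by
  unfold vv
  rw [emb_zero, emb_one, emb_two]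
  generalize a ^ 2 - b ^ 3 = f at h
  field_simp
  ring

theorem z_mul (v : Fin 3 → ℂ) : v 1 * eval v cuP = 27 * (uu v ^ 2 - vv v ^ 3 - v 1) := by
  rw [eval_cuP]
  unfold uu vv
  ring

theorem emb_mem (a b : ℂ) (h : a ^ 2 - b ^ 3 ≠ 0) : emb a b ∈ zeroSet cuP := by
  have h1 := z_mul (emb a b)
  rw [uu_emb a b h, vv_emb a b h, emb_one, sub_self, mul_zero] at h1
  exact (mul_eq_zero.1 h1).resolve_left h

theorem emb_uv (v : Fin 3 → ℂ) (hv : v ∈ zeroSet cuP) (hz : v 1 ≠ 0) : emb (uu v) (vv v) = v := by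
  have h := uv_rel v hv
  have h0 : emb (uu v) (vv v) 0 = v 0 := by
    rw [emb_zero, h]
    unfold uu
    field_simp
    ring
  have h1 : emb (uu v) (vv v) 1 = v 1 := by
    rw [emb_one, h]
  have h2 : emb (uu v) (vv v) 2 = v 2 := by
    rw [emb_two, h]
    unfold uu vv
    field_simp
    ring
  ext i
  fin_cases i
  · exact h0
  · exact h1
  · exact h2

end Pool.Agent.H71
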