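import Pool.Agent.H71.CuspChart

/-!
The flow along the `ℂ*`-orbits of the complement of the cusp.
-/

open MvPolynomial Filter Topology

namespace Pool.Agent.H71

/-- a nonnegative function vanishing exactly where `a * conj b` is a nonpositive real -/
noncomputable def mm (a b : ℂ) : ℝ := ‖a‖ * ‖b‖ + (a * (starRingEnd ℂ) b).re

theorem mm_nonneg (a b : ℂ) : 0 ≤ mm a b := by
  unfold mm
  have h1 : |(a * (starRingEnd ℂ) b).re| ≤ ‖a * (starRingEnd ℂ) b‖ := Complex.abs_re_le_norm _
  rw [norm_mul, Complex.norm_conj] at h1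
  have := neg_abs_le (a * (starRingEnd ℂ) b).re
  linarith

theorem mm_le (a b : ℂ) : mm a b ≤ 2 * (‖a‖ * ‖b‖) := by
  unfold mm
  have h1 : |(a * (starRingEnd ℂ) b).re| ≤ ‖a * (starRingEnd ℂ) b‖ := Complex.abs_re_le_norm _
  rw [norm_mul, Complex.norm_conj] at h1
  have := le_abs_self (a * (starRingEnd ℂ) b).re
  linarith

theorem continuous_mm : Continuous (fun p : ℂ × ℂ => mm p.1 p.2) := by
  unfold mm
  have : Continuous (fun p : ℂ × ℂ => (p.1 * (starRingEnd ℂ) p.2)) :=
    continuous_fst.mul (Complex.continuous_conj.comp continuous_snd)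
  exact (continuous_fst.norm.mul continuous_snd.norm).add (Complex.continuous_re.comp this)

/-- the angular shift -/
noncomputable def BB (a b : ℂ) : ℂ :=
  ((mm a b / (‖a ^ 2 - b ^ 3‖ ^ 2 + mm a b) : ℝ) : ℂ) * Complex.log (a / b)

theorem mm_zero_of (a b : ℂ) (h : a / b ∉ Complex.slitPlane) : mm a b = 0 := by
  by_cases hb : b = 0
  · simp [mm, hb]
  by_cases ha : a = 0
  · simp [mm, ha]
  · rw [Complex.mem_slitPlane_iff] at h
    push Not at h
    obtain ⟨h1, h2⟩ := h
    have hr : a / b = ((a / b).re : ℂ) := by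
      apply Complex.ext
      · simp
      · simp [h2]
    have hab : a = ((a / b).re : ℂ) * b := by
      rw [← hr]; field_simp
    set r := (a / b).re with hrdef
    rw [hab]
    unfold mm
    have : ((r : ℂ) * b * (starRingEnd ℂ) b).re = r * ‖b‖ ^ 2 := by
      rw [mul_assoc, Complex.mul_conj, Complex.normSq_eq_norm_sq]
      rw [← Complex.ofReal_mul, Complex.ofReal_re]
    rw [this, norm_mul, Complex.norm_real, Real.norm_eq_abs, abs_of_nonpos h1]
    ring

theorem norm_log_le (a b : ℂ) (ha : a ≠ 0) (hb : b ≠ 0) :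
    ‖Complex.log (a / b)‖ ≤ |Real.log ‖a‖| + |Real.log ‖b‖| + Real.pi := by
  have h1 : ‖Complex.log (a / b)‖ ≤ |(Complex.log (a / b)).re| + |(Complex.log (a / b)).im| :=
    Complex.norm_le_abs_re_add_abs_im _
  rw [Complex.log_re, Complex.log_im, norm_div, Real.log_div (norm_ne_zero_iff.2 ha)
    (norm_ne_zero_iff.2 hb)] at h1
  have h2 := Complex.abs_arg_le_pi (a / b)
  have h3 : |Real.log ‖a‖ - Real.log ‖b‖| ≤ |Real.log ‖a‖| + |Real.log ‖b‖| := abs_sub _ _
  linarith

theorem continuousAt_BB (a b : ℂ) (h : a ^ 2 - b ^ 3 ≠ 0) :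
    ContinuousAt (fun p : ℂ × ℂ => BB p.1 p.2) (a, b) := by
  have hf : Continuous (fun p : ℂ × ℂ => ‖p.1 ^ 2 - p.2 ^ 3‖ ^ 2) := by fun_prop
  have hden : ‖a ^ 2 - b ^ 3‖ ^ 2 + mm a b ≠ 0 := by
    have h1 : 0 < ‖a ^ 2 - b ^ 3‖ := norm_pos_iff.2 h
    have := mm_nonneg a b
    positivity
  by_cases hs : a / b ∈ Complex.slitPlane
  · have hb : b ≠ 0 := by
      rintro rfl
      simp at hs
    unfold BB
    apply ContinuousAt.mul
    · apply Complex.continuous_ofReal.continuousAt.comp
      apply ContinuousAt.div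
      · exact continuous_mm.continuousAt
      · exact (hf.add continuous_mm).continuousAt
      · exact hden
    · apply ContinuousAt.clog
      · exact continuousAt_fst.div continuousAt_snd hb
      · exact hs
  · have hm0 : mm a b = 0 := mm_zero_of a b hs
    have hB0 : BB a b = 0 := by
      unfold BB
      rw [hm0]
      simp
    -- bound
    have key : Tendsto (fun p : ℂ × ℂ => mm p.1 p.2 * (|Real.log ‖p.1‖| + |Real.log ‖p.2‖| +
        Real.pi)) (𝓝 (a, b)) (𝓝 0) := by
      by_cases hab : a = 0 ∨ b = 0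
      · have hc : Continuous (fun p : ℂ × ℂ => 2 * (|‖p.1‖ * Real.log ‖p.1‖| * ‖p.2‖ +
            |‖p.2‖ * Real.log ‖p.2‖| * ‖p.1‖ + Real.pi * (‖p.1‖ * ‖p.2‖))) := by
          have e1 : Continuous (fun p : ℂ × ℂ => ‖p.1‖ * Real.log ‖p.1‖) :=
            Real.continuous_mul_log.comp continuous_fst.norm
          have e2 : Continuous (fun p : ℂ × ℂ => ‖p.2‖ * Real.log ‖p.2‖) :=
            Real.continuous_mul_log.comp continuous_snd.norm
          exact continuous_const.mul (((e1.abs.mul continuous_snd.norm).add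
            (e2.abs.mul continuous_fst.norm)).add
            (continuous_const.mul (continuous_fst.norm.mul continuous_snd.norm)))
        have hc0 := hc.tendsto (a, b)
        have hval : 2 * (|‖a‖ * Real.log ‖a‖| * ‖b‖ +
            |‖b‖ * Real.log ‖b‖| * ‖a‖ + Real.pi * (‖a‖ * ‖b‖)) = 0 := by
          rcases hab with h0 | h0
          · rw [h0]; simp
          · rw [h0]; simp
        change Tendsto _ _ (𝓝 (2 * (|‖a‖ * Real.log ‖a‖| * ‖b‖ +
            |‖b‖ * Real.log ‖b‖| * ‖a‖ + Real.pi * (‖a‖ * ‖b‖)))) at hc0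
        rw [hval] at hc0
        refine squeeze_zero (fun p => ?_) (fun p => ?_) hc0
        · have := mm_nonneg p.1 p.2
          positivity
        · have h1 := mm_le p.1 p.2
          have h2 : (0 : ℝ) ≤ |Real.log ‖p.1‖| + |Real.log ‖p.2‖| + Real.pi := by positivity
          calc mm p.1 p.2 * (|Real.log ‖p.1‖| + |Real.log ‖p.2‖| + Real.pi)
              ≤ 2 * (‖p.1‖ * ‖p.2‖) * (|Real.log ‖p.1‖| + |Real.log ‖p.2‖| + Real.pi) :=
                mul_le_mul_of_nonneg_right h1 h2
            _ = _ := by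
                rw [abs_mul, abs_mul, abs_norm, abs_norm]
                ring
      · push Not at hab
        have ha' : ‖a‖ ≠ 0 := norm_ne_zero_iff.2 hab.1
        have hb' : ‖b‖ ≠ 0 := norm_ne_zero_iff.2 hab.2
        have e1 : ContinuousAt (fun p : ℂ × ℂ => |Real.log ‖p.1‖|) (a, b) :=
          (ContinuousAt.log (continuousAt_fst.norm) ha').abs
        have e2 : ContinuousAt (fun p : ℂ × ℂ => |Real.log ‖p.2‖|) (a, b) :=
          (ContinuousAt.log (continuousAt_snd.norm) hb').abs
        have e3 : ContinuousAt (fun p : ℂ × ℂ => mm p.1 p.2 * (|Real.log ‖p.1‖| +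
            |Real.log ‖p.2‖| + Real.pi)) (a, b) :=
          continuous_mm.continuousAt.mul ((e1.add e2).add continuousAt_const)
        have := e3.tendsto
        simp only [hm0, zero_mul] at this
        exact this
    have key2 : Tendsto (fun p : ℂ × ℂ => (mm p.1 p.2 * (|Real.log ‖p.1‖| + |Real.log ‖p.2‖| +
        Real.pi)) / ‖p.1 ^ 2 - p.2 ^ 3‖ ^ 2) (𝓝 (a, b)) (𝓝 0) := by
      have h1 : ‖a ^ 2 - b ^ 3‖ ^ 2 ≠ 0 := pow_ne_zero _ (norm_ne_zero_iff.2 h)
      have := key.div (hf.tendsto (a, b)) h1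
      rw [zero_div] at this
      exact this
    have hne : ∀ᶠ p : ℂ × ℂ in 𝓝 (a, b), p.1 ^ 2 - p.2 ^ 3 ≠ 0 := by
      have hc : Continuous (fun p : ℂ × ℂ => p.1 ^ 2 - p.2 ^ 3) := by fun_prop
      exact hc.continuousAt.eventually_ne h
    change Tendsto _ _ (𝓝 (BB a b))
    rw [hB0]
    apply squeeze_zero_norm' _ key2
    filter_upwards [hne] with p hp
    have hfpos : 0 < ‖p.1 ^ 2 - p.2 ^ 3‖ ^ 2 := by
      have := norm_pos_iff.2 hp
      positivity
    have hm := mm_nonneg p.1 p.2
    by_cases h0 : p.1 = 0 ∨ p.2 = 0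
    · have : mm p.1 p.2 = 0 := by
        rcases h0 with h0 | h0 <;> simp [mm, h0]
      unfold BB
      rw [this]
      simp
    · push Not at h0
      unfold BB
      rw [norm_mul, Complex.norm_real, Real.norm_eq_abs, abs_of_nonneg (by positivity)]
      have hl := norm_log_le p.1 p.2 h0.1 h0.2
      calc mm p.1 p.2 / (‖p.1 ^ 2 - p.2 ^ 3‖ ^ 2 + mm p.1 p.2) * ‖Complex.log (p.1 / p.2)‖
          ≤ mm p.1 p.2 / ‖p.1 ^ 2 - p.2 ^ 3‖ ^ 2 * (|Real.log ‖p.1‖| + |Real.log ‖p.2‖| +
            Real.pi) := by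
            apply mul_le_mul _ hl (norm_nonneg _) (by positivity)
            apply div_le_div_of_nonneg_left hm hfpos
            linarith
        _ = _ := by ring

end Pool.Agent.H71
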