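import Pool.Agent.H71.CuspDef

/-!
Irreducibility of the polynomial.
-/

open MvPolynomial

namespace Pool.Agent.H71

/-- `(1+ab)² - b` times 27 is not a cube in the fraction field -/
theorem not_cube (K : Type) [Field K] [Algebra (MvPolynomial (Fin 2) ℂ) K]
    [IsFractionRing (MvPolynomial (Fin 2) ℂ) K] (r : K) :
    r ^ 3 ≠ algebraMap (MvPolynomial (Fin 2) ℂ) K (27 * (1 + X 0 * X 1) ^ 2 - 27 * X 1) := by
  intro h
  have hint : IsIntegral (MvPolynomial (Fin 2) ℂ) r := by
    apply IsIntegral.of_pow (n := 3) (by norm_num)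
    rw [h]
    exact isIntegral_algebraMap
  obtain ⟨s, hs⟩ := IsIntegrallyClosed.isIntegral_iff.1 hint
  rw [← hs, ← map_pow] at h
  have h1 := IsFractionRing.injective (MvPolynomial (Fin 2) ℂ) K h
  have h2 := congrArg (aeval (![1, Polynomial.X] : Fin 2 → Polynomial ℂ)) h1
  rw [map_pow] at h2
  have h3 : aeval (![1, Polynomial.X] : Fin 2 → Polynomial ℂ)
      (27 * (1 + X 0 * X 1) ^ 2 - 27 * X 1 : MvPolynomial (Fin 2) ℂ) =
      Polynomial.C 27 * Polynomial.X ^ 2 + Polynomial.C 27 * Polynomial.X + Polynomial.C 27 := by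
    simp only [map_sub, map_mul, map_pow, map_add, map_one, aeval_X, Matrix.cons_val_zero,
      Matrix.cons_val_one, map_ofNat]
    ring
  rw [h3] at h2
  have h4 := congrArg Polynomial.natDegree h2
  rw [Polynomial.natDegree_pow, Polynomial.natDegree_quadratic (by norm_num)] at h4
  omega

/-- the polynomial in one variable over `ℂ[a, b]` -/
noncomputable def qP : Polynomial (MvPolynomial (Fin 2) ℂ) :=
  27 * (Polynomial.C (X 0) + 1) ^ 2 + 27 * Polynomial.C (X 1) *
    (Polynomial.C (X 0) ^ 2 - Polynomial.X) -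
    9 * Polynomial.C (X 1) * (Polynomial.C (X 0) ^ 2 + 2 - Polynomial.C (X 1) * Polynomial.X) ^ 2 +
    Polynomial.C (X 1) ^ 2 *
      (Polynomial.C (X 0) ^ 2 + 2 - Polynomial.C (X 1) * Polynomial.X) ^ 3

/-- constant coefficient -/
noncomputable def q0 : MvPolynomial (Fin 2) ℂ :=
  27 * (X 0 + 1) ^ 2 + 27 * X 1 * X 0 ^ 2 - 9 * X 1 * (X 0 ^ 2 + 2) ^ 2 +
    X 1 ^ 2 * (X 0 ^ 2 + 2) ^ 3

theorem qP_cubic : qP = Polynomial.C (-(X 1) ^ 5) * Polynomial.X ^ 3 +
    Polynomial.C (3 * (X 0 ^ 2 + 2) * X 1 ^ 4 - 9 * X 1 ^ 3) * Polynomial.X ^ 2 +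
    Polynomial.C (18 * X 1 ^ 2 * (X 0 ^ 2 + 2) - 27 * X 1 - 3 * X 1 ^ 3 * (X 0 ^ 2 + 2) ^ 2) *
      Polynomial.X + Polynomial.C q0 := by
  unfold qP q0
  simp only [map_neg, map_sub, map_add, map_mul, map_pow, map_one, Polynomial.C_ofNat]
  ring

theorem coeff_cubic {R : Type*} [CommRing R] (c3 c2 c1 c0 : R) :
    (Polynomial.C c3 * Polynomial.X ^ 3 + Polynomial.C c2 * Polynomial.X ^ 2 +
      Polynomial.C c1 * Polynomial.X + Polynomial.C c0).coeff 3 = c3 ∧
    (Polynomial.C c3 * Polynomial.X ^ 3 + Polynomial.C c2 * Polynomial.X ^ 2 +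
      Polynomial.C c1 * Polynomial.X + Polynomial.C c0).coeff 0 = c0 := by
  constructor
  · simp
  · simp

theorem qP_primitive : qP.IsPrimitive := by
  intro r hr
  rw [qP_cubic] at hr
  rw [Polynomial.C_dvd_iff_dvd_coeff] at hr
  have h3 := hr 3
  have h0 := hr 0
  rw [(coeff_cubic _ _ _ _).1] at h3
  rw [(coeff_cubic _ _ _ _).2] at h0
  rw [dvd_neg] at h3
  have hp : Prime (X 1 : MvPolynomial (Fin 2) ℂ) := MvPolynomial.X_prime
  obtain ⟨j, hj, hrj⟩ := (dvd_prime_pow hp 5).1 h3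
  by_cases hj0 : j = 0
  · subst hj0
    rw [pow_zero] at hrj
    exact associated_one_iff_isUnit.1 hrj
  · exfalso
    have h1 : (X 1 : MvPolynomial (Fin 2) ℂ) ∣ q0 :=
      (dvd_pow_self _ hj0).trans (hrj.symm.dvd.trans h0)
    obtain ⟨s, hs⟩ := h1
    have h2 := congrArg (eval (fun _ => (0 : ℂ) : Fin 2 → ℂ)) hs
    simp only [q0, map_sub, map_mul, map_pow, map_add, map_one, eval_X, map_ofNat] at h2
    norm_num at h2

theorem irreducible_qP : Irreducible qP := by
  let K := FractionRing (MvPolynomial (Fin 2) ℂ)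
  have hinj : Function.Injective (algebraMap (MvPolynomial (Fin 2) ℂ) K) :=
    IsFractionRing.injective _ _
  apply qP_primitive.irreducible_of_irreducible_map_of_injective hinj
  have hb : algebraMap (MvPolynomial (Fin 2) ℂ) K (X 1) ≠ 0 := by
    rw [Ne, map_eq_zero_iff _ hinj]
    exact X_ne_zero 1
  set b : K := algebraMap (MvPolynomial (Fin 2) ℂ) K (X 1) with hbdef
  set a : K := algebraMap (MvPolynomial (Fin 2) ℂ) K (X 0) with hadef
  have hbb : b ^ 2 ≠ 0 := pow_ne_zero _ hb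
  let _ : Invertible (b ^ 2) := invertibleOfNonzero hbb
  have h1 : Irreducible (Polynomial.X ^ 3 - Polynomial.C (27 * (1 + a * b) ^ 2 - 27 * b)) := by
    apply X_pow_sub_C_irreducible_of_prime Nat.prime_three
    intro r hr
    apply not_cube K r
    rw [hr]
    simp only [map_sub, map_mul, map_pow, map_add, map_one, map_ofNat, ← hbdef, ← hadef]
  have h2 : Irreducible ((Polynomial.algEquivCMulXAddC (b ^ 2) (3 - b * (a ^ 2 + 2)))
      (Polynomial.X ^ 3 - Polynomial.C (27 * (1 + a * b) ^ 2 - 27 * b))) :=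
    (MulEquiv.irreducible_iff (Polynomial.algEquivCMulXAddC (b ^ 2)
      (3 - b * (a ^ 2 + 2))).toMulEquiv).2 h1
  have h3 : (Polynomial.algEquivCMulXAddC (b ^ 2) (3 - b * (a ^ 2 + 2)))
      (Polynomial.X ^ 3 - Polynomial.C (27 * (1 + a * b) ^ 2 - 27 * b)) =
      Polynomial.C (-b) * qP.map (algebraMap (MvPolynomial (Fin 2) ℂ) K) := by
    unfold qP
    simp only [Polynomial.algEquivCMulXAddC_apply, map_sub, map_pow, Polynomial.aeval_X,
      Polynomial.aeval_C, Polynomial.map_add, Polynomial.map_sub, Polynomial.map_mul,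
      Polynomial.map_pow, Polynomial.map_one, Polynomial.map_C, Polynomial.map_X, map_mul,
      map_add, map_one, map_neg, Polynomial.map_ofNat, map_ofNat, ← hbdef, ← hadef,
      Polynomial.algebraMap_eq]
    ring
  rw [h3] at h2
  have hu : IsUnit (Polynomial.C (-b)) := by
    rw [Polynomial.isUnit_C]
    exact (neg_ne_zero.2 hb).isUnit
  exact (irreducible_isUnit_mul hu).1 h2

/-- reordering of the variables -/
def perm3 : Fin 3 ≃ Fin 3 := ⟨![1, 2, 0], ![2, 0, 1], by decide, by decide⟩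

theorem irreducible_cuP : Irreducible cuP := by
  have h1 : MvPolynomial.finSuccEquiv ℂ 2 (MvPolynomial.renameEquiv ℂ perm3 cuP) = qP := by
    have e0 : perm3 0 = Fin.succ 0 := rfl
    have e1 : perm3 1 = Fin.succ 1 := rfl
    have e2 : perm3 2 = 0 := rfl
    unfold cuP qP
    simp only [map_sub, map_mul, map_pow, map_add, map_one, map_ofNat, renameEquiv_apply,
      rename_X, e0, e1, e2, finSuccEquiv_X_zero, finSuccEquiv_X_succ]
  have h2 := irreducible_qP
  rw [← h1] at h2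
  have h3 := (MulEquiv.irreducible_iff (MvPolynomial.finSuccEquiv ℂ 2).toMulEquiv).1 h2
  exact (MulEquiv.irreducible_iff (MvPolynomial.renameEquiv ℂ perm3).toMulEquiv).1 h3

end Pool.Agent.H71
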