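import Pool.Agent.H71.CuspSing

/-!
A polynomial with exactly one critical zero, and with a further critical point, is not
quasihomogeneous for any nonnegative weights (not all zero).
-/

open MvPolynomial

namespace Pool.Agent.H71

/-- the orbit curve of `v` -/
noncomputable def orb (w : Fin 3 → ℕ) (v : Fin 3 → ℂ) : Fin 3 → Polynomial ℂ :=
  fun i => Polynomial.C (v i) * Polynomial.X ^ w i

theorem eval_orb (w : Fin 3 → ℕ) (v : Fin 3 → ℂ) (τ : ℂ) (g : MvPolynomial (Fin 3) ℂ) :
    Polynomial.eval τ (aeval (orb w v) g) = eval (fun i => τ ^ w i * v i) g := by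
  have : (Polynomial.aeval τ : Polynomial ℂ →ₐ[ℂ] ℂ).comp (aeval (orb w v)) =
      (aeval (fun i => τ ^ w i * v i) : MvPolynomial (Fin 3) ℂ →ₐ[ℂ] ℂ) := by
    ext i
    rw [AlgHom.comp_apply, aeval_X, aeval_X]
    simp only [orb, Polynomial.coe_aeval_eq_eval, Polynomial.eval_mul, Polynomial.eval_C,
      Polynomial.eval_pow, Polynomial.eval_X]
    ring
  have h := DFunLike.congr_fun this g
  simpa [MvPolynomial.aeval_eq_eval, Polynomial.coe_aeval_eq_eval] using h

theorem poly_eq_of_ne_zero (A B : Polynomial ℂ)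
    (h : ∀ τ : ℂ, τ ≠ 0 → Polynomial.eval τ A = Polynomial.eval τ B) : A = B := by
  have hX : Polynomial.X * A = Polynomial.X * B := by
    apply Polynomial.funext
    intro τ
    rw [Polynomial.eval_mul, Polynomial.eval_mul, Polynomial.eval_X]
    by_cases hτ : τ = 0
    · rw [hτ, zero_mul, zero_mul]
    · rw [h τ hτ]
  exact mul_left_cancel₀ Polynomial.X_ne_zero hX

theorem qh_neg {w : Fin 3 → ℕ} {d : ℤ} {r : MvPolynomial (Fin 3) ℂ}
    (h : QuasiHomogeneous w d r) (hd : d < 0) (v : Fin 3 → ℂ) : eval v r = 0 := by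
  obtain ⟨n, hn⟩ := Int.eq_ofNat_of_zero_le (by omega : 0 ≤ -d)
  have hn0 : n ≠ 0 := by omega
  have h1 : Polynomial.X ^ n * aeval (orb w v) r = Polynomial.C (eval v r) := by
    apply poly_eq_of_ne_zero
    intro τ hτ
    rw [Polynomial.eval_mul, Polynomial.eval_pow, Polynomial.eval_X, Polynomial.eval_C, eval_orb,
      h τ hτ v, ← mul_assoc, ← zpow_natCast, ← zpow_add₀ hτ]
    have : ((n : ℤ) + d) = 0 := by
      have : (n : ℤ) = -d := hn.symm
      omega
    rw [this, zpow_zero, one_mul]
  have h2 := congrArg (Polynomial.eval 0) h1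
  rw [Polynomial.eval_mul, Polynomial.eval_pow, Polynomial.eval_X, Polynomial.eval_C,
    zero_pow hn0, zero_mul] at h2
  exact h2.symm

theorem qh_zero {w : Fin 3 → ℕ} {r : MvPolynomial (Fin 3) ℂ}
    (h : QuasiHomogeneous w 0 r) (v : Fin 3 → ℂ) :
    eval v r = eval (fun i => if w i = 0 then v i else 0) r := by
  have h1 : aeval (orb w v) r = Polynomial.C (eval v r) := by
    apply poly_eq_of_ne_zero
    intro τ hτ
    rw [Polynomial.eval_C, eval_orb, h τ hτ v, zpow_zero, one_mul]
  have h2 := congrArg (Polynomial.eval 0) h1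
  rw [eval_orb, Polynomial.eval_C] at h2
  rw [← h2]
  congr 2
  ext i
  by_cases hi : w i = 0
  · simp [hi]
  · simp [hi]

theorem qh_euler {w : Fin 3 → ℕ} {n : ℕ} {r : MvPolynomial (Fin 3) ℂ}
    (h : QuasiHomogeneous w (n : ℤ) r) (v : Fin 3 → ℂ) :
    ∑ i, eval v (pderiv i r) * ((w i : ℂ) * v i) = n * eval v r := by
  have h1 : aeval (orb w v) r = Polynomial.X ^ n * Polynomial.C (eval v r) := by
    apply poly_eq_of_ne_zero
    intro τ hτ
    rw [Polynomial.eval_mul, Polynomial.eval_pow, Polynomial.eval_X, Polynomial.eval_C, eval_orb,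
      h τ hτ v, zpow_natCast]
  have h2 := congrArg Polynomial.derivative h1
  rw [chain_poly] at h2
  have h3 := congrArg (Polynomial.eval 1) h2
  rw [Polynomial.eval_finsetSum] at h3
  simp only [Polynomial.eval_mul, eval_orb, one_pow, one_mul] at h3
  have h4 : ∀ i, Polynomial.eval 1 (Polynomial.derivative (orb w v i)) = (w i : ℂ) * v i := by
    intro i
    simp only [orb, Polynomial.derivative_C_mul, Polynomial.derivative_X_pow, Polynomial.eval_mul,
      Polynomial.eval_C, Polynomial.eval_pow, Polynomial.eval_X, one_pow, mul_one]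
    ring
  simp only [h4] at h3
  rw [h3]
  simp [Polynomial.derivative_X_pow, Polynomial.eval_natCast]
  ring

theorem not_quasi_of_crit (q : MvPolynomial (Fin 3) ℂ) (a b : Fin 3 → ℂ) (hcrit : Crit q = {a})
    (hb : eval b q ≠ 0) (hb' : ∀ i, eval b (pderiv i q) = 0) (w : Fin 3 → ℕ) (hw : w ≠ 0)
    (d : ℤ) : ¬ QuasiHomogeneous w d q := by
  intro h
  rcases lt_trichotomy d 0 with hd | hd | hd
  · exact hb (qh_neg h hd b)
  · subst hd
    obtain ⟨i₀, hi₀⟩ : ∃ i, w i ≠ 0 := by
      by_contra hcon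
      push Not at hcon
      exact hw (funext hcon)
    have ha : a ∈ Crit q := by rw [hcrit]; rfl
    have h2a : (fun i => (2 : ℂ) ^ w i * a i) ∈ Crit q := by
      refine ⟨?_, fun j => ?_⟩
      · rw [h 2 two_ne_zero a, ha.1, mul_zero]
      · rw [qh_pderiv h j 2 two_ne_zero a, ha.2 j, mul_zero]
    rw [hcrit] at h2a
    have ha0 : ∀ i, w i ≠ 0 → a i = 0 := by
      intro i hi
      have h3 : (2 : ℂ) ^ w i * a i = a i := congrFun h2a i
      have h4 : ((2 : ℂ) ^ w i - 1) * a i = 0 := by linear_combination h3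
      rcases mul_eq_zero.1 h4 with h5 | h5
      · exfalso
        have h6 : (2 : ℂ) ^ w i = 1 := by linear_combination h5
        have h7 : (2 : ℝ) ^ w i = 1 := by
          have := congrArg norm h6
          rw [norm_pow] at this
          simpa using this
        have h8 : (1 : ℝ) < 2 ^ w i := one_lt_pow₀ (by norm_num) hi
        linarith
      · exact h5
    let v : Fin 3 → ℂ := Function.update a i₀ 1
    have hπ : (fun i => if w i = 0 then v i else 0) = a := by
      ext i
      by_cases hi : w i = 0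
      · have : i ≠ i₀ := by
          rintro rfl
          exact hi₀ hi
        simp [hi, v, this]
      · simp [hi, ha0 i hi]
    have hv : v ∈ Crit q := by
      refine ⟨?_, fun j => ?_⟩
      · rw [qh_zero h v, hπ]
        exact ha.1
      · by_cases hj : w j = 0
        · have h3 := qh_pderiv h j
          rw [hj] at h3
          have h4 : QuasiHomogeneous w 0 (pderiv j q) := by simpa using h3
          rw [qh_zero h4 v, hπ]
          exact ha.2 j
        · exact qh_neg (qh_pderiv h j) (by omega) v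
    rw [hcrit] at hv
    have h5 := congrFun hv i₀
    rw [ha0 i₀ hi₀] at h5
    simp [v] at h5
  · obtain ⟨n, hn⟩ := Int.eq_ofNat_of_zero_le hd.le
    subst hn
    have h3 := qh_euler h b
    rw [Finset.sum_eq_zero (fun i _ => by rw [hb' i, zero_mul])] at h3
    have hn : (n : ℂ) ≠ 0 := by
      have : n ≠ 0 := by
        rintro rfl
        simp at hd
      exact_mod_cast this
    exact mul_ne_zero hn hb h3.symm

/-- no automorphism makes the example quasihomogeneous -/
theorem not_quasi_cuP (α : MvPolynomial (Fin 3) ℂ ≃ₐ[ℂ] MvPolynomial (Fin 3) ℂ) (w : Fin 3 → ℕ)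
    (d : ℤ) (hw : w ≠ 0) : ¬ QuasiHomogeneous w d (α cuP) := by
  have hψ : ∀ v, ptMap α.toAlgHom (ptMap α.symm.toAlgHom v) = v := fun v => ptMap_symm α v
  have hψ' : ∀ v, ptMap α.symm.toAlgHom (ptMap α.toAlgHom v) = v := fun v => ptMap_symm' α v
  have hcrit : Crit (α cuP) = {ptMap α.symm.toAlgHom cuA} := by
    ext v
    rw [mem_crit_iff, crit_cuP]
    simp only [Set.mem_singleton_iff]
    constructor
    · intro h
      rw [← hψ' v, h]
    · intro h
      rw [h, hψ]
  apply not_quasi_of_crit (α cuP) _ (ptMap α.symm.toAlgHom cuB) hcrit _ _ w hw d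
  · have h1 : eval (ptMap α.symm.toAlgHom cuB) (α.toAlgHom cuP) =
        eval (ptMap α.toAlgHom (ptMap α.symm.toAlgHom cuB)) cuP := eval_ptMap α.toAlgHom _ _
    rw [hψ, eval_cuB] at h1
    have h2 : eval (ptMap α.symm.toAlgHom cuB) (α cuP) = -27 := h1
    rw [h2]
    norm_num
  · intro i
    have h1 := chain_rule α.toAlgHom i cuP
    have h2 : pderiv i (α cuP) = pderiv i (α.toAlgHom cuP) := rfl
    rw [h2, h1, map_sum]
    apply Finset.sum_eq_zero
    intro j _
    rw [map_mul, eval_ptMap, hψ, pderiv_cuB, zero_mul]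

end Pool.Agent.H71
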