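import Pool.Agent.H71.SurfChain

/-!
A polynomial with exactly two critical zeros, one with nondegenerate and one with degenerate
Hessian, is not quasihomogeneous for any nonnegative weights (not all zero).
-/

open MvPolynomial

namespace Pool.Agent.H71

/-- scaling -/
noncomputable def scaleHom (w : Fin 3 → ℕ) (t : ℂ) :
    MvPolynomial (Fin 3) ℂ →ₐ[ℂ] MvPolynomial (Fin 3) ℂ :=
  aeval (fun i => C (t ^ w i) * X i)

theorem ptMap_scaleHom (w : Fin 3 → ℕ) (t : ℂ) (v : Fin 3 → ℂ) :
    ptMap (scaleHom w t) v = fun i => t ^ w i * v i := by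
  ext i
  simp [ptMap, scaleHom]

theorem qh_iff (w : Fin 3 → ℕ) (d : ℤ) (q : MvPolynomial (Fin 3) ℂ) :
    QuasiHomogeneous w d q ↔ ∀ t : ℂ, t ≠ 0 → scaleHom w t q = C (t ^ d) * q := by
  constructor
  · intro h t ht
    apply MvPolynomial.funext
    intro v
    rw [eval_ptMap, ptMap_scaleHom, h t ht v, map_mul, eval_C]
  · intro h t ht v
    have := congrArg (eval v) (h t ht)
    rw [eval_ptMap, ptMap_scaleHom, map_mul, eval_C] at this
    exact this

theorem qh_pderiv {w : Fin 3 → ℕ} {d : ℤ} {q : MvPolynomial (Fin 3) ℂ}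
    (h : QuasiHomogeneous w d q) (i : Fin 3) : QuasiHomogeneous w (d - w i) (pderiv i q) := by
  rw [qh_iff] at h ⊢
  intro t ht
  have h1 := congrArg (pderiv i) (h t ht)
  rw [chain_rule, pderiv_C_mul] at h1
  have h2 : ∀ j, scaleHom w t (pderiv j q) * pderiv i (scaleHom w t (X j)) =
      if j = i then scaleHom w t (pderiv i q) * C (t ^ w i) else 0 := by
    intro j
    have h3 : scaleHom w t (X j) = C (t ^ w j) * X j := by simp [scaleHom]
    rw [h3, pderiv_C_mul]
    by_cases hji : j = i
    · subst hji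
      rw [pderiv_X_self, if_pos rfl, mul_one]
    · rw [pderiv_X_of_ne hji, if_neg hji, mul_zero, mul_zero]
  rw [Finset.sum_congr rfl (fun j _ => h2 j), Finset.sum_ite_eq', if_pos (Finset.mem_univ i)] at h1
  have h4 : (C (t ^ w i) : MvPolynomial (Fin 3) ℂ) * C (t ^ (-(w i : ℤ))) = 1 := by
    rw [← C_mul, zpow_neg, zpow_natCast, mul_inv_cancel₀ (pow_ne_zero _ ht), C_1]
  calc scaleHom w t (pderiv i q)
      = scaleHom w t (pderiv i q) * (C (t ^ w i) * C (t ^ (-(w i : ℤ)))) := by rw [h4, mul_one]
    _ = (C (t ^ d) * pderiv i q) * C (t ^ (-(w i : ℤ))) := by rw [← mul_assoc, h1]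
    _ = C (t ^ (d - w i)) * pderiv i q := by
        rw [sub_eq_add_neg, zpow_add₀ ht, C_mul]; ring

/-- at a fixed point of the action, a quasihomogeneous polynomial of nonzero weight vanishes -/
theorem qh_fixed {w : Fin 3 → ℕ} {d : ℤ} {q : MvPolynomial (Fin 3) ℂ}
    (h : QuasiHomogeneous w d q) (v : Fin 3 → ℂ) (hv : ∀ i, w i ≠ 0 → v i = 0) (hd : d ≠ 0) :
    eval v q = 0 := by
  have h1 := h 2 two_ne_zero v
  have h2 : (fun i => (2 : ℂ) ^ w i * v i) = v := by
    ext i
    by_cases hi : w i = 0
    · simp [hi]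
    · simp [hv i hi]
  rw [h2] at h1
  by_contra hne
  have h3 : (2 : ℂ) ^ d = 1 := by
    have : (2 : ℂ) ^ d * eval v q = 1 * eval v q := by rw [one_mul]; exact h1.symm
    exact mul_right_cancel₀ hne this
  have h4 : ‖(2 : ℂ) ^ d‖ = 1 := by rw [h3]; simp
  rw [norm_zpow] at h4
  have h5 : ‖(2 : ℂ)‖ = 2 := by simp
  rw [h5] at h4
  have h6 : (2 : ℝ) ^ d = (2 : ℝ) ^ (0 : ℤ) := by rw [h4]; simp
  exact hd (zpow_right_injective₀ (by norm_num) (by norm_num) h6)

theorem chain_poly (c : Fin 3 → Polynomial ℂ) (g : MvPolynomial (Fin 3) ℂ) :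
    Polynomial.derivative (aeval c g) =
      ∑ i, aeval c (pderiv i g) * Polynomial.derivative (c i) := by
  induction g using MvPolynomial.induction_on with
  | C a => simp
  | add p q hp hq => simp only [map_add, hp, hq, add_mul, Finset.sum_add_distrib]
  | mul_X p k hp =>
    have h1 : ∀ j, aeval c (pderiv j (p * X k)) * Polynomial.derivative (c j) =
        aeval c (pderiv j p) * Polynomial.derivative (c j) * c k +
          (if j = k then aeval c p * Polynomial.derivative (c k) else 0) := by
      intro j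
      by_cases hjk : j = k
      · subst hjk
        rw [pderiv_mul, pderiv_X_self, map_add, map_mul, map_mul, map_one, if_pos rfl, aeval_X]
        ring
      · rw [pderiv_mul, pderiv_X_of_ne (Ne.symm hjk), map_add, map_mul, mul_zero, map_zero,
          if_neg hjk, aeval_X]
        ring
    rw [Finset.sum_congr rfl (fun j _ => h1 j), Finset.sum_add_distrib, Finset.sum_ite_eq',
      if_pos (Finset.mem_univ k), ← Finset.sum_mul, ← hp, map_mul, Polynomial.derivative_mul,
      aeval_X]

/-- the point with coordinates `b`, `y`, `z` at the indices `i₀`, `j`, and the third index -/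
def pt (i₀ j : Fin 3) (b y z : ℂ) : Fin 3 → ℂ := fun i => if i = i₀ then b else if i = j then y else z

theorem sum_three {M : Type*} [AddCommMonoid M] (i₀ j k : Fin 3) (h1 : i₀ ≠ j) (h2 : j ≠ k)
    (h3 : i₀ ≠ k) (f : Fin 3 → M) : ∑ i, f i = f i₀ + f j + f k := by
  have h : (Finset.univ : Finset (Fin 3)) = {i₀, j, k} := by
    revert i₀ j k; decide
  rw [h, Finset.sum_insert, Finset.sum_insert, Finset.sum_singleton, add_assoc]
  · simpa using h2
  · simp only [Finset.mem_insert, Finset.mem_singleton, not_or]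
    exact ⟨h1, h3⟩

theorem fin_three_cases (i₀ j k i : Fin 3) (h1 : i₀ ≠ j) (h2 : j ≠ k) (h3 : i₀ ≠ k) :
    i = i₀ ∨ i = j ∨ i = k := by
  revert i₀ j k i; decide

/-- the two basic identities on the plane `x_{i₀} = b` -/
theorem plane_id (i₀ j k : Fin 3) (h1 : i₀ ≠ j) (h2 : j ≠ k) (h3 : i₀ ≠ k) (w : Fin 3 → ℕ)
    (e : ℕ) (he : 0 < e) (w0 : w i₀ = 0) (wj : w j = 2 * e) (wk : w k = e) (n : ℕ)
    (r : MvPolynomial (Fin 3) ℂ) (hr : QuasiHomogeneous w ((e * n : ℕ) : ℤ) r) (b y z : ℂ) :
    (n = 0 → eval (pt i₀ j b y z) r = eval (pt i₀ j b 0 0) r) ∧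
    (n = 1 → eval (pt i₀ j b y z) r = z * eval (pt i₀ j b 0 0) (pderiv k r)) ∧
    (2 * y * eval (pt i₀ j b y z) (pderiv j r) + z * eval (pt i₀ j b y z) (pderiv k r) =
      n * eval (pt i₀ j b y z) r) := by
  let c : Fin 3 → Polynomial ℂ := fun i => if i = i₀ then Polynomial.C b else
    if i = j then Polynomial.C y * Polynomial.X ^ 2 else Polynomial.C z * Polynomial.X
  have hc0 : c i₀ = Polynomial.C b := by simp [c]
  have hcj : c j = Polynomial.C y * Polynomial.X ^ 2 := by simp [c, h1.symm]
  have hck : c k = Polynomial.C z * Polynomial.X := by simp [c, h2.symm, h3.symm]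
  have hev : ∀ τ : ℂ, ∀ g : MvPolynomial (Fin 3) ℂ,
      Polynomial.eval τ (aeval c g) = eval (pt i₀ j b (τ ^ 2 * y) (τ * z)) g := by
    intro τ g
    have : (Polynomial.aeval τ : Polynomial ℂ →ₐ[ℂ] ℂ).comp (aeval c) =
        (aeval (pt i₀ j b (τ ^ 2 * y) (τ * z)) : MvPolynomial (Fin 3) ℂ →ₐ[ℂ] ℂ) := by
      ext i
      simp only [AlgHom.comp_apply, aeval_X, c, pt]
      split_ifs
      · simp
      · simp; ring
      · simp; ring
    have h := DFunLike.congr_fun this g
    simpa [MvPolynomial.aeval_eq_eval, Polynomial.coe_aeval_eq_eval] using h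
  have hG : aeval c r = Polynomial.X ^ n * Polynomial.C (eval (pt i₀ j b y z) r) := by
    have hX : Polynomial.X * aeval c r =
        Polynomial.X * (Polynomial.X ^ n * Polynomial.C (eval (pt i₀ j b y z) r)) := by
      apply Polynomial.funext
      intro τ
      rw [Polynomial.eval_mul, Polynomial.eval_mul, Polynomial.eval_X, hev]
      by_cases hτ : τ = 0
      · rw [hτ, zero_mul, zero_mul]
      · congr 1
        obtain ⟨t, ht⟩ := IsAlgClosed.exists_pow_nat_eq τ he
        have ht0 : t ≠ 0 := by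
          rintro rfl
          rw [zero_pow he.ne'] at ht
          exact hτ ht.symm
        have h4 := hr t ht0 (pt i₀ j b y z)
        have h5 : (fun i => t ^ w i * pt i₀ j b y z i) = pt i₀ j b (τ ^ 2 * y) (τ * z) := by
          ext i
          rcases fin_three_cases i₀ j k i h1 h2 h3 with rfl | rfl | rfl
          · simp [pt, w0]
          · simp [pt, h1.symm, wj, ← ht]
            left
            ring
          · simp [pt, h2.symm, h3.symm, wk, ht]
        rw [h5] at h4
        rw [h4, zpow_natCast, pow_mul, ht]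
        simp
        ring
    exact mul_left_cancel₀ Polynomial.X_ne_zero hX
  have hD := congrArg Polynomial.derivative hG
  rw [chain_poly, sum_three i₀ j k h1 h2 h3, hc0, hcj, hck] at hD
  refine ⟨?_, ?_, ?_⟩
  · intro hn
    have := congrArg (Polynomial.eval 0) hG
    rw [hev, hn] at this
    simp at this
    exact this.symm
  · intro hn
    have := congrArg (Polynomial.eval 0) hD
    subst hn
    simp [hev] at this
    rw [← this]; ring
  · have := congrArg (Polynomial.eval 1) hD
    simp [hev, Polynomial.derivative_X_pow, Polynomial.eval_natCast] at this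
    rw [mul_comm (n : ℂ), ← this]; ring

theorem pderiv_comm (i j : Fin 3) (q : MvPolynomial (Fin 3) ℂ) :
    pderiv i (pderiv j q) = pderiv j (pderiv i q) := by
  have h : ⁅(pderiv (R := ℂ) i), pderiv (R := ℂ) j⁆ = 0 := by
    apply MvPolynomial.derivation_ext
    intro k
    rw [Derivation.commutator_apply]
    simp [pderiv_X, Pi.single_apply]
    split_ifs <;> simp
  have h2 := DFunLike.congr_fun h q
  rw [Derivation.commutator_apply] at h2
  exact sub_eq_zero.1 h2

end Pool.Agent.H71
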