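import Pool.Agent.H71.CuspDef
import Pool.Agent.H71.SurfQuasi

/-!
The singular points of the surface, and quasihomogeneity.
-/

open MvPolynomial Filter Topology

namespace Pool.Agent.H71

theorem cu_pderiv0 (v : Fin 3 → ℂ) : eval v (pderiv 0 cuP) =
    54 * (v 0 + 1) + 54 * v 0 * v 1 - 36 * v 0 * v 1 * (v 0 ^ 2 + 2 - v 1 * v 2) +
      6 * v 0 * v 1 ^ 2 * (v 0 ^ 2 + 2 - v 1 * v 2) ^ 2 := by
  have h1 : pderiv (0 : Fin 3) (X 1 : MvPolynomial (Fin 3) ℂ) = 0 := pderiv_X_of_ne (by decide)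
  have h2 : pderiv (0 : Fin 3) (X 2 : MvPolynomial (Fin 3) ℂ) = 0 := pderiv_X_of_ne (by decide)
  have h27 : pderiv (0 : Fin 3) (27 : MvPolynomial (Fin 3) ℂ) = 0 := by
    have : (27 : MvPolynomial (Fin 3) ℂ) = C 27 :=
      (map_ofNat (C : ℂ →+* MvPolynomial (Fin 3) ℂ) 27).symm
    rw [this, pderiv_C]
  have h9 : pderiv (0 : Fin 3) (9 : MvPolynomial (Fin 3) ℂ) = 0 := by
    have : (9 : MvPolynomial (Fin 3) ℂ) = C 9 :=
      (map_ofNat (C : ℂ →+* MvPolynomial (Fin 3) ℂ) 9).symm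
    rw [this, pderiv_C]
  have h22 : pderiv (0 : Fin 3) (2 : MvPolynomial (Fin 3) ℂ) = 0 := by
    have : (2 : MvPolynomial (Fin 3) ℂ) = C 2 :=
      (map_ofNat (C : ℂ →+* MvPolynomial (Fin 3) ℂ) 2).symm
    rw [this, pderiv_C]
  simp only [cuP, map_add, pderiv_mul, map_sub, pderiv_X_self, pderiv_one, pderiv_pow,
    h1, h2, h27, h9, h22]
  simp
  ring

theorem cu_pderiv1 (v : Fin 3 → ℂ) : eval v (pderiv 1 cuP) =
    27 * (v 0 ^ 2 - v 2) - 9 * (v 0 ^ 2 + 2 - v 1 * v 2) ^ 2 +
      18 * v 1 * v 2 * (v 0 ^ 2 + 2 - v 1 * v 2) + 2 * v 1 * (v 0 ^ 2 + 2 - v 1 * v 2) ^ 3 -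
      3 * v 1 ^ 2 * v 2 * (v 0 ^ 2 + 2 - v 1 * v 2) ^ 2 := by
  have h1 : pderiv (1 : Fin 3) (X 0 : MvPolynomial (Fin 3) ℂ) = 0 := pderiv_X_of_ne (by decide)
  have h2 : pderiv (1 : Fin 3) (X 2 : MvPolynomial (Fin 3) ℂ) = 0 := pderiv_X_of_ne (by decide)
  have h27 : pderiv (1 : Fin 3) (27 : MvPolynomial (Fin 3) ℂ) = 0 := by
    have : (27 : MvPolynomial (Fin 3) ℂ) = C 27 :=
      (map_ofNat (C : ℂ →+* MvPolynomial (Fin 3) ℂ) 27).symm
    rw [this, pderiv_C]
  have h9 : pderiv (1 : Fin 3) (9 : MvPolynomial (Fin 3) ℂ) = 0 := by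
    have : (9 : MvPolynomial (Fin 3) ℂ) = C 9 :=
      (map_ofNat (C : ℂ →+* MvPolynomial (Fin 3) ℂ) 9).symm
    rw [this, pderiv_C]
  have h22 : pderiv (1 : Fin 3) (2 : MvPolynomial (Fin 3) ℂ) = 0 := by
    have : (2 : MvPolynomial (Fin 3) ℂ) = C 2 :=
      (map_ofNat (C : ℂ →+* MvPolynomial (Fin 3) ℂ) 2).symm
    rw [this, pderiv_C]
  simp only [cuP, map_add, pderiv_mul, map_sub, pderiv_X_self, pderiv_one, pderiv_pow,
    h1, h2, h27, h9, h22]
  simp
  ring

theorem cu_pderiv2 (v : Fin 3 → ℂ) : eval v (pderiv 2 cuP) =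
    -3 * v 1 * (3 - v 1 * (v 0 ^ 2 + 2 - v 1 * v 2)) ^ 2 := by
  have h1 : pderiv (2 : Fin 3) (X 0 : MvPolynomial (Fin 3) ℂ) = 0 := pderiv_X_of_ne (by decide)
  have h2 : pderiv (2 : Fin 3) (X 1 : MvPolynomial (Fin 3) ℂ) = 0 := pderiv_X_of_ne (by decide)
  have h27 : pderiv (2 : Fin 3) (27 : MvPolynomial (Fin 3) ℂ) = 0 := by
    have : (27 : MvPolynomial (Fin 3) ℂ) = C 27 :=
      (map_ofNat (C : ℂ →+* MvPolynomial (Fin 3) ℂ) 27).symm
    rw [this, pderiv_C]
  have h9 : pderiv (2 : Fin 3) (9 : MvPolynomial (Fin 3) ℂ) = 0 := by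
    have : (9 : MvPolynomial (Fin 3) ℂ) = C 9 :=
      (map_ofNat (C : ℂ →+* MvPolynomial (Fin 3) ℂ) 9).symm
    rw [this, pderiv_C]
  have h22 : pderiv (2 : Fin 3) (2 : MvPolynomial (Fin 3) ℂ) = 0 := by
    have : (2 : MvPolynomial (Fin 3) ℂ) = C 2 :=
      (map_ofNat (C : ℂ →+* MvPolynomial (Fin 3) ℂ) 2).symm
    rw [this, pderiv_C]
  simp only [cuP, map_add, pderiv_mul, map_sub, pderiv_X_self, pderiv_one, pderiv_pow,
    h1, h2, h27, h9, h22]
  simp
  ring

/-- the singular point -/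
def cuA : Fin 3 → ℂ := ![-1, 0, -2]

/-- a critical point off the surface -/
def cuB : Fin 3 → ℂ := ![-1, 1, 0]

theorem crit_cuP : Crit cuP = {cuA} := by
  ext v
  simp only [Crit, Set.mem_ofPred_eq, Set.mem_singleton_iff]
  constructor
  · rintro ⟨h, hd⟩
    have h0 := hd 0
    have h1 := hd 1
    have h2 := hd 2
    rw [cu_pderiv0] at h0
    rw [cu_pderiv1] at h1
    rw [cu_pderiv2] at h2
    by_cases hz : v 1 = 0
    · have hx := z_zero v h hz
      rw [hz, hx] at h1
      have hw : v 2 = -2 := by linear_combination (-1 / 27 : ℂ) * h1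
      ext i
      fin_cases i
      · exact hx
      · exact hz
      · exact hw
    · exfalso
      have hs : 3 - v 1 * (v 0 ^ 2 + 2 - v 1 * v 2) = 0 := by
        rcases mul_eq_zero.1 h2 with h3 | h3
        · exfalso
          apply hz
          rcases mul_eq_zero.1 h3 with h4 | h4
          · norm_num at h4
          · exact h4
        · exact pow_eq_zero_iff (two_ne_zero) |>.1 h3
      have hu : 1 + v 0 * v 1 = 0 := by
        linear_combination h0 / 54 + (-(v 0) / 3 + v 0 / 9 * (v 1 * (v 0 ^ 2 + 2 - v 1 * v 2))) * hs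
      have hr := uv_rel v h
      have h3 : uu v = 0 := hu
      have h4 : vv v = 0 := by
        unfold vv
        linear_combination hs / 3
      rw [h3, h4] at hr
      apply hz
      rw [← hr]
      ring
  · rintro rfl
    refine ⟨?_, ?_⟩
    · rw [eval_cuP]; simp [cuA]
    · intro i
      have hi : i = 0 ∨ i = 1 ∨ i = 2 := by fin_cases i <;> simp
      rcases hi with rfl | rfl | rfl
      · rw [cu_pderiv0]; simp [cuA]
      · rw [cu_pderiv1]; simp [cuA]; norm_num
      · rw [cu_pderiv2]; simp [cuA]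

theorem eval_cuB : eval cuB cuP = -27 := by
  rw [eval_cuP]
  simp [cuB]
  norm_num

theorem pderiv_cuB (i : Fin 3) : eval cuB (pderiv i cuP) = 0 := by
  have hi : i = 0 ∨ i = 1 ∨ i = 2 := by fin_cases i <;> simp
  rcases hi with rfl | rfl | rfl
  · rw [cu_pderiv0]; simp [cuB]; norm_num
  · rw [cu_pderiv1]; simp [cuB]; norm_num
  · rw [cu_pderiv2]; simp [cuB]; norm_num

theorem hasDerivAt_eval (f : MvPolynomial (Fin 3) ℂ) (γ : ℂ → Fin 3 → ℂ) (γ' : Fin 3 → ℂ) (τ : ℂ)
    (h : ∀ i, HasDerivAt (fun s => γ s i) (γ' i) τ) :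
    HasDerivAt (fun s => eval (γ s) f) (∑ i, eval (γ τ) (pderiv i f) * γ' i) τ := by
  induction f using MvPolynomial.induction_on with
  | C a =>
    simp only [eval_C, pderiv_C, map_zero, zero_mul, Finset.sum_const_zero]
    exact hasDerivAt_const _ _
  | add p q hp hq =>
    simp only [map_add, add_mul, Finset.sum_add_distrib]
    exact hp.add hq
  | mul_X p k hp =>
    have h1 : ∀ j, eval (γ τ) (pderiv j (p * X k)) * γ' j =
        eval (γ τ) (pderiv j p) * γ' j * γ τ k +
          (if j = k then eval (γ τ) p * γ' k else 0) := by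
      intro j
      by_cases hjk : j = k
      · subst hjk
        rw [pderiv_mul, pderiv_X_self, map_add, map_mul, map_mul, map_one, if_pos rfl, eval_X]
        ring
      · rw [pderiv_mul, pderiv_X_of_ne (Ne.symm hjk), map_add, map_mul, mul_zero, map_zero,
          if_neg hjk, eval_X]
        ring
    rw [Finset.sum_congr rfl (fun j _ => h1 j), Finset.sum_add_distrib, Finset.sum_ite_eq',
      if_pos (Finset.mem_univ k), ← Finset.sum_mul]
    have h2 := hp.mul (h k)
    simp only [map_mul, eval_X]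
    exact h2

theorem grad_of_curve (f : MvPolynomial (Fin 3) ℂ) (γ : ℂ → Fin 3 → ℂ) (γ' : Fin 3 → ℂ) (τ : ℂ)
    (h : ∀ i, HasDerivAt (fun s => γ s i) (γ' i) τ) (h0 : ∀ᶠ s in 𝓝 τ, eval (γ s) f = 0) :
    ∑ i, eval (γ τ) (pderiv i f) * γ' i = 0 := by
  have h1 := hasDerivAt_eval f γ γ' τ h
  have h2 : HasDerivAt (fun s => eval (γ s) f) 0 τ :=
    (hasDerivAt_const τ (0 : ℂ)).congr_of_eventuallyEq h0
  exact h1.unique h2

/-- first curve through the singular point -/
noncomputable def cv1 (s : ℂ) : Fin 3 → ℂ :=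
  ![-1 / (1 - s) ^ 2, (1 - s) ^ 2 * s, (2 - s) * (1 - 2 * (1 - s) ^ 2) / (1 - s) ^ 6]

/-- second curve through the singular point -/
noncomputable def cv2 (s : ℂ) : Fin 3 → ℂ :=
  ![(s - 1) / (1 - s ^ 2 + s ^ 3), s * (1 - s ^ 2 + s ^ 3),
    (-2 + s ^ 2 + 2 * s ^ 3 - 4 * s ^ 4 + 2 * s ^ 5) / (1 - s ^ 2 + s ^ 3) ^ 3]

theorem cv1_mem (s : ℂ) (h : 1 - s ≠ 0) : cv1 s ∈ zeroSet cuP := by
  by_cases hs : s = 0
  · rw [mem_cuP, hs]
    simp [cv1]
  · have hz : cv1 s 1 ≠ 0 := mul_ne_zero (pow_ne_zero _ h) hs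
    have hzm := z_mul (cv1 s)
    have hu : uu (cv1 s) = 1 - s := by
      unfold uu
      simp only [cv1, Matrix.cons_val_zero, Matrix.cons_val_one]
      field_simp
      ring
    have hv : vv (cv1 s) = 1 - s := by
      unfold vv
      simp only [cv1, Matrix.cons_val_zero, Matrix.cons_val_one, Matrix.cons_val]
      field_simp
      ring
    have h1 : cv1 s 1 = (1 - s) ^ 2 * s := rfl
    rw [hu, hv] at hzm
    have h2 : 27 * ((1 - s) ^ 2 - (1 - s) ^ 3 - cv1 s 1) = 0 := by
      rw [h1]; ring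
    rw [h2] at hzm
    exact (mul_eq_zero.1 hzm).resolve_left hz

theorem cv2_mem (s : ℂ) (h : 1 - s ^ 2 + s ^ 3 ≠ 0) : cv2 s ∈ zeroSet cuP := by
  by_cases hs : s = 0
  · rw [mem_cuP, hs]
    simp [cv2]
  · have hz : cv2 s 1 ≠ 0 := mul_ne_zero hs h
    have hzm := z_mul (cv2 s)
    have hu : uu (cv2 s) = 1 - s + s ^ 2 := by
      unfold uu
      simp only [cv2, Matrix.cons_val_zero, Matrix.cons_val_one]
      field_simp
      ring
    have hv : vv (cv2 s) = 1 - s := by
      unfold vv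
      simp only [cv2, Matrix.cons_val_zero, Matrix.cons_val_one, Matrix.cons_val]
      field_simp
      ring
    have h1 : cv2 s 1 = s * (1 - s ^ 2 + s ^ 3) := rfl
    rw [hu, hv] at hzm
    have h2 : 27 * ((1 - s + s ^ 2) ^ 2 - (1 - s) ^ 3 - cv2 s 1) = 0 := by
      rw [h1]; ring
    rw [h2] at hzm
    exact (mul_eq_zero.1 hzm).resolve_left hz

theorem singular_cuP (a : Fin 3 → ℂ) : IsSingularPt cuP a ↔ a = cuA := by
  constructor
  · rintro ⟨h1, h2⟩
    have : a ∈ Crit cuP := ⟨h1, h2 cuP (fun v hv => hv)⟩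
    rw [crit_cuP] at this
    exact this
  · rintro rfl
    have hA : cuA ∈ Crit cuP := by rw [crit_cuP]; rfl
    refine ⟨hA.1, fun f hf => ?_⟩
    -- the exceptional line
    have k3 : eval cuA (pderiv 2 f) = 0 := by
      have h0 : ∀ᶠ s in 𝓝 (-2 : ℂ), eval (![-1, 0, s] : Fin 3 → ℂ) f = 0 := by
        apply Filter.Eventually.of_forall
        intro s
        apply hf
        rw [mem_cuP]
        simp
      have := grad_of_curve f (fun s => ![-1, 0, s]) ![0, 0, 1] (-2) (by
        intro i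
        have hi : i = 0 ∨ i = 1 ∨ i = 2 := by fin_cases i <;> simp
        rcases hi with rfl | rfl | rfl
        · exact hasDerivAt_const _ _
        · exact hasDerivAt_const _ _
        · exact hasDerivAt_id _) h0
      rw [Fin.sum_univ_three] at this
      simpa [cuA] using this
    have k1 : -2 * eval cuA (pderiv 0 f) + eval cuA (pderiv 1 f) = 0 := by
      have hne : ∀ᶠ s in 𝓝 (0 : ℂ), 1 - s ≠ 0 := by
        have : Continuous (fun s : ℂ => 1 - s) := by fun_prop
        exact this.continuousAt.eventually_ne (by simp)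
      have h0 : ∀ᶠ s in 𝓝 (0 : ℂ), eval (cv1 s) f = 0 := by
        filter_upwards [hne] with s hs
        exact hf _ (cv1_mem s hs)
      have hd2 : DifferentiableAt ℂ (fun s : ℂ => cv1 s 2) 0 := by
        change DifferentiableAt ℂ (fun s : ℂ => (2 - s) * (1 - 2 * (1 - s) ^ 2) / (1 - s) ^ 6) 0
        apply DifferentiableAt.div
        · fun_prop
        · fun_prop
        · simp
      have hd0 : HasDerivAt (fun s : ℂ => cv1 s 0) (-2) 0 := by
        change HasDerivAt (fun s : ℂ => -1 / (1 - s) ^ 2) (-2) 0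
        have e1 : HasDerivAt (fun s : ℂ => 1 - s) (-1) 0 := by
          simpa using (hasDerivAt_id (0 : ℂ)).const_sub 1
        have e2 := (hasDerivAt_const (0 : ℂ) (-1 : ℂ)).div (e1.pow 2) (by simp)
        exact e2.congr_deriv (by simp)
      have hd1 : HasDerivAt (fun s : ℂ => cv1 s 1) 1 0 := by
        change HasDerivAt (fun s : ℂ => (1 - s) ^ 2 * s) 1 0
        have e1 : HasDerivAt (fun s : ℂ => 1 - s) (-1) 0 := by
          simpa using (hasDerivAt_id (0 : ℂ)).const_sub 1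
        have e2 := (e1.pow 2).mul (hasDerivAt_id (0 : ℂ))
        exact e2.congr_deriv (by simp)
      have := grad_of_curve f cv1 ![-2, 1, deriv (fun s : ℂ => cv1 s 2) 0] 0 (by
        intro i
        have hi : i = 0 ∨ i = 1 ∨ i = 2 := by fin_cases i <;> simp
        rcases hi with rfl | rfl | rfl
        · exact hd0
        · exact hd1
        · exact hd2.hasDerivAt) h0
      have hA0 : cv1 0 = cuA := by
        ext i
        have hi : i = 0 ∨ i = 1 ∨ i = 2 := by fin_cases i <;> simp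
        rcases hi with rfl | rfl | rfl
        · simp [cv1, cuA]
        · simp [cv1, cuA]
        · simp [cv1, cuA]; norm_num
      rw [Fin.sum_univ_three, hA0, k3] at this
      simp only [Matrix.cons_val_zero, Matrix.cons_val_one] at this
      linear_combination this
    have k2 : eval cuA (pderiv 0 f) + eval cuA (pderiv 1 f) = 0 := by
      have hne : ∀ᶠ s in 𝓝 (0 : ℂ), 1 - s ^ 2 + s ^ 3 ≠ 0 := by
        have : Continuous (fun s : ℂ => 1 - s ^ 2 + s ^ 3) := by fun_prop
        exact this.continuousAt.eventually_ne (by simp)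
      have h0 : ∀ᶠ s in 𝓝 (0 : ℂ), eval (cv2 s) f = 0 := by
        filter_upwards [hne] with s hs
        exact hf _ (cv2_mem s hs)
      have hd2 : DifferentiableAt ℂ (fun s : ℂ => cv2 s 2) 0 := by
        change DifferentiableAt ℂ (fun s : ℂ => (-2 + s ^ 2 + 2 * s ^ 3 - 4 * s ^ 4 + 2 * s ^ 5) /
          (1 - s ^ 2 + s ^ 3) ^ 3) 0
        apply DifferentiableAt.div
        · fun_prop
        · fun_prop
        · simp
      have e0 : HasDerivAt (fun s : ℂ => 1 - s ^ 2 + s ^ 3) 0 0 := by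
        have := ((hasDerivAt_const (0 : ℂ) (1 : ℂ)).sub (hasDerivAt_pow 2 (0 : ℂ))).add
          (hasDerivAt_pow 3 (0 : ℂ))
        exact this.congr_deriv (by simp)
      have hd0 : HasDerivAt (fun s : ℂ => cv2 s 0) 1 0 := by
        change HasDerivAt (fun s : ℂ => (s - 1) / (1 - s ^ 2 + s ^ 3)) 1 0
        have e1 : HasDerivAt (fun s : ℂ => s - 1) 1 0 := (hasDerivAt_id (0 : ℂ)).sub_const 1
        have e2 := e1.div e0 (by simp)
        exact e2.congr_deriv (by simp)
      have hd1 : HasDerivAt (fun s : ℂ => cv2 s 1) 1 0 := by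
        change HasDerivAt (fun s : ℂ => s * (1 - s ^ 2 + s ^ 3)) 1 0
        have e2 := (hasDerivAt_id (0 : ℂ)).mul e0
        exact e2.congr_deriv (by simp)
      have := grad_of_curve f cv2 ![1, 1, deriv (fun s : ℂ => cv2 s 2) 0] 0 (by
        intro i
        have hi : i = 0 ∨ i = 1 ∨ i = 2 := by fin_cases i <;> simp
        rcases hi with rfl | rfl | rfl
        · exact hd0
        · exact hd1
        · exact hd2.hasDerivAt) h0
      have hA0 : cv2 0 = cuA := by
        ext i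
        have hi : i = 0 ∨ i = 1 ∨ i = 2 := by fin_cases i <;> simp
        rcases hi with rfl | rfl | rfl
        · simp [cv2, cuA]
        · simp [cv2, cuA]
        · simp [cv2, cuA]
      rw [Fin.sum_univ_three, hA0, k3] at this
      simp only [Matrix.cons_val_zero, Matrix.cons_val_one] at this
      linear_combination this
    intro i
    have hi : i = 0 ∨ i = 1 ∨ i = 2 := by fin_cases i <;> simp
    rcases hi with rfl | rfl | rfl
    · linear_combination (k2 - k1) / 3
    · linear_combination (2 * k2 + k1) / 3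
    · exact k3

end Pool.Agent.H71
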