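import Pool.Agent.H71.CuspCon

/-!
Contractibility.
-/

open MvPolynomial Filter Topology

namespace Pool.Agent.H71

/-- the rational expression underlying `Psi` -/
noncomputable def PsiR (e M N t E3 E2 : ℂ) : Fin 3 → ℂ :=
  let T := t ^ 3
  let A := 3 * E3 * (1 + e * T) / (T ^ 2 * (1 - e) ^ 2)
  let b := (2 - e) / (1 - e) ^ 2
  let x := -1 + A * M - b * e
  let S := 3 * (t ^ 2 - 2 * M * E2) / (T ^ 2 * (1 - e) ^ 2)
  let z := T ^ 2 * (1 - e) ^ 2 * e
  ![x, z, (A ^ 2 * N - 2 * A * b * M + b ^ 2 * e) / (T ^ 2 * (1 - e) ^ 2) + x ^ 2 - S ^ 2 / 3 +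
    z * S ^ 3 / 27]

theorem Psi_eq_PsiR (e M N : ℂ) :
    Psi e M N = PsiR e M N (Complex.exp (e * M)) (E1 (3 * (e * M))) (E1 (2 * (e * M))) := rfl

theorem continuousAt_PsiR {Y : Type*} [TopologicalSpace Y] {y : Y} {e M N t E3 E2 : Y → ℂ}
    (ce : ContinuousAt e y) (cM : ContinuousAt M y) (cN : ContinuousAt N y)
    (ct : ContinuousAt t y) (c3 : ContinuousAt E3 y) (c2 : ContinuousAt E2 y)
    (h1 : e y ≠ 1) (ht : t y ≠ 0) :
    ContinuousAt (fun y => PsiR (e y) (M y) (N y) (t y) (E3 y) (E2 y)) y := by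
  have h1e : 1 - e y ≠ 0 := sub_ne_zero.2 (Ne.symm h1)
  have cD : ContinuousAt (fun y => (t y ^ 3) ^ 2 * (1 - e y) ^ 2) y :=
    ((ct.pow 3).pow 2).mul ((continuousAt_const.sub ce).pow 2)
  have hD : (t y ^ 3) ^ 2 * (1 - e y) ^ 2 ≠ 0 :=
    mul_ne_zero (pow_ne_zero _ (pow_ne_zero _ ht)) (pow_ne_zero _ h1e)
  have cA : ContinuousAt (fun y => 3 * E3 y * (1 + e y * t y ^ 3) /
      ((t y ^ 3) ^ 2 * (1 - e y) ^ 2)) y :=
    ((continuousAt_const.mul c3).mul (continuousAt_const.add (ce.mul (ct.pow 3)))).div cD hD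
  have cb : ContinuousAt (fun y => (2 - e y) / (1 - e y) ^ 2) y :=
    (continuousAt_const.sub ce).div ((continuousAt_const.sub ce).pow 2) (pow_ne_zero _ h1e)
  have cx := (((continuousAt_const (y := (-1 : ℂ))).add (cA.mul cM))).sub (cb.mul ce)
  have cS : ContinuousAt (fun y => 3 * (t y ^ 2 - 2 * M y * E2 y) /
      ((t y ^ 3) ^ 2 * (1 - e y) ^ 2)) y :=
    (continuousAt_const.mul ((ct.pow 2).sub ((continuousAt_const.mul cM).mul c2))).div cD hD
  have cz := cD.mul ce
  have cw1 := ((((cA.pow 2).mul cN).sub ((((continuousAt_const (y := (2 : ℂ))).mul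
    cA).mul cb).mul cM)).add ((cb.pow 2).mul ce)).div cD hD
  have cw := ((cw1.add (cx.pow 2)).sub ((cS.pow 2).div continuousAt_const
    (by norm_num : (3 : ℂ) ≠ 0))).add ((cz.mul (cS.pow 3)).div continuousAt_const
    (by norm_num : (27 : ℂ) ≠ 0))
  rw [continuousAt_pi]
  intro i
  fin_cases i
  · exact cx
  · exact cz
  · exact cw

theorem continuousAt_Psi {Y : Type*} [TopologicalSpace Y] {y : Y} {e M N : Y → ℂ}
    (ce : ContinuousAt e y) (cM : ContinuousAt M y) (cN : ContinuousAt N y) (h1 : e y ≠ 1) :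
    ContinuousAt (fun y => Psi (e y) (M y) (N y)) y := by
  have ct : ContinuousAt (fun y => Complex.exp (e y * M y)) y :=
    Complex.continuous_exp.continuousAt.comp (ce.mul cM)
  have c3 : ContinuousAt (fun y => E1 (3 * (e y * M y))) y :=
    ContinuousAt.comp (g := E1) (f := fun y => 3 * (e y * M y)) continuous_E1.continuousAt
      (continuousAt_const.mul (ce.mul cM))
  have c2 : ContinuousAt (fun y => E1 (2 * (e y * M y))) y :=
    ContinuousAt.comp (g := E1) (f := fun y => 2 * (e y * M y)) continuous_E1.continuousAt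
      (continuousAt_const.mul (ce.mul cM))
  simp only [Psi_eq_PsiR]
  exact continuousAt_PsiR ce cM cN ct c3 c2 h1 (Complex.exp_ne_zero _)

theorem continuous_uu : Continuous uu := by
  unfold uu
  fun_prop

theorem continuous_vv : Continuous vv := by
  unfold vv
  fun_prop

theorem continuous_RR : Continuous RR := by
  unfold RR
  fun_prop

theorem continuous_rho : Continuous rho := by
  unfold rho
  fun_prop

/-- continuity at the points of the exceptional line -/
theorem continuousAt_chart (τ : ℝ) (v : Fin 3 → ℂ) (hz : v 1 = 0) :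
    ContinuousAt (fun p : ℝ × (Fin 3 → ℂ) => Psi (eF p.2) (kap p.1 p.2 * MF p.2)
      (kap p.1 p.2 ^ 2 * NF p.2)) (τ, v) := by
  have huu : uu v = 1 := by simp [uu, hz]
  have hvv : vv v = 1 := by simp [vv, hz]
  have hu1 : uu v ≠ 0 := by rw [huu]; exact one_ne_zero
  have hv1 : vv v ≠ 0 := by rw [hvv]; exact one_ne_zero
  have ce : ContinuousAt eF v := by
    unfold eF
    exact (continuous_apply 1).continuousAt.div (continuous_uu.continuousAt.pow 2)
      (pow_ne_zero _ hu1)
  have cl : ContinuousAt ll v := by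
    have h1 : ContinuousAt (fun v => v 1 * RR v / vv v) v :=
      ((continuous_apply 1).continuousAt.mul continuous_RR.continuousAt).div
        continuous_vv.continuousAt hv1
    have h2 : v 1 * RR v / vv v = 0 := by rw [hz]; simp
    have h3 : ContinuousAt L1 (v 1 * RR v / vv v) := by rw [h2]; exact continuousAt_L1
    exact ContinuousAt.comp (g := L1) (f := fun v => v 1 * RR v / vv v) h3 h1
  have cM : ContinuousAt MF v := by
    unfold MF
    exact (((continuous_uu.continuousAt.pow 2).mul continuous_RR.continuousAt).div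
      continuous_vv.continuousAt hv1).mul cl
  have cN : ContinuousAt NF v := by
    unfold NF
    exact (((continuous_uu.continuousAt.pow 6).div (continuous_vv.continuousAt.pow 2)
      (pow_ne_zero _ hv1)).mul (cl.pow 2)).mul continuous_rho.continuousAt
  have cm : Continuous (fun p : ℝ × (Fin 3 → ℂ) => mm (uu p.2) (vv p.2)) :=
    continuous_mm.comp (f := fun p : ℝ × (Fin 3 → ℂ) => (uu p.2, vv p.2))
      ((continuous_uu.comp continuous_snd).prodMk (continuous_vv.comp continuous_snd))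
  have ck : ContinuousAt (fun p : ℝ × (Fin 3 → ℂ) => kap p.1 p.2) (τ, v) := by
    unfold kap
    apply ContinuousAt.sub continuousAt_const
    apply ContinuousAt.mul continuousAt_fst
    apply ContinuousAt.div cm.continuousAt
    · apply ContinuousAt.add _ cm.continuousAt
      fun_prop
    · simp [huu, hvv, hz, mm_one]
  have ck' : ContinuousAt (fun p : ℝ × (Fin 3 → ℂ) => (kap p.1 p.2 : ℂ)) (τ, v) :=
    Complex.continuous_ofReal.continuousAt.comp ck
  have ce' : ContinuousAt (fun p : ℝ × (Fin 3 → ℂ) => eF p.2) (τ, v) :=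
    ContinuousAt.comp (g := eF) (f := fun p : ℝ × (Fin 3 → ℂ) => p.2) ce continuousAt_snd
  have cM' : ContinuousAt (fun p : ℝ × (Fin 3 → ℂ) => MF p.2) (τ, v) :=
    ContinuousAt.comp (g := MF) (f := fun p : ℝ × (Fin 3 → ℂ) => p.2) cM continuousAt_snd
  have cN' : ContinuousAt (fun p : ℝ × (Fin 3 → ℂ) => NF p.2) (τ, v) :=
    ContinuousAt.comp (g := NF) (f := fun p : ℝ × (Fin 3 → ℂ) => p.2) cN continuousAt_snd
  have he1 : eF v ≠ 1 := by simp [eF, hz]
  exact continuousAt_Psi ce' (ck'.mul cM') ((ck'.pow 2).mul cN') he1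

theorem GG_mem (τ : ℝ) (v : Fin 3 → ℂ) (hX : v ∈ zeroSet cuP) : GG τ v ∈ zeroSet cuP := by
  unfold GG
  split_ifs with hz
  · rw [mem_cuP]
    simp
  · apply gg_mem
    rw [uv_rel v hX]
    exact hz

theorem continuous_GG : Continuous (fun p : ℝ × zeroSet cuP => GG p.1 p.2.1) := by
  rw [continuous_iff_continuousAt]
  rintro ⟨τ, v, hX⟩
  by_cases hz : v 1 = 0
  · have huu : uu v = 1 := by simp [uu, hz]
    have hvv : vv v = 1 := by simp [vv, hz]
    have h1 : ContinuousAt (fun p : ℝ × zeroSet cuP => Psi (eF p.2.1) (kap p.1 p.2.1 * MF p.2.1)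
      (kap p.1 p.2.1 ^ 2 * NF p.2.1)) (τ, ⟨v, hX⟩) :=
      ContinuousAt.comp (g := fun p : ℝ × (Fin 3 → ℂ) => Psi (eF p.2) (kap p.1 p.2 * MF p.2)
        (kap p.1 p.2 ^ 2 * NF p.2)) (f := fun p : ℝ × zeroSet cuP => (p.1, p.2.1))
        (continuousAt_chart τ v hz) (by fun_prop)
    apply h1.congr
    have e1 : ∀ᶠ p : ℝ × zeroSet cuP in 𝓝 (τ, ⟨v, hX⟩), uu p.2.1 ≠ 0 := by
      have : Continuous (fun p : ℝ × zeroSet cuP => uu p.2.1) :=
        continuous_uu.comp (continuous_subtype_val.comp continuous_snd)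
      apply this.continuousAt.eventually_ne
      change uu v ≠ 0
      rw [huu]; exact one_ne_zero
    have e2 : ∀ᶠ p : ℝ × zeroSet cuP in 𝓝 (τ, ⟨v, hX⟩), vv p.2.1 ≠ 0 := by
      have : Continuous (fun p : ℝ × zeroSet cuP => vv p.2.1) :=
        continuous_vv.comp (continuous_subtype_val.comp continuous_snd)
      apply this.continuousAt.eventually_ne
      change vv v ≠ 0
      rw [hvv]; exact one_ne_zero
    filter_upwards [e1, e2] with p hp1 hp2
    exact (GG_eq_Psi p.1 p.2.1 p.2.2 hp1 hp2).symm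
  · have hf : uu v ^ 2 - vv v ^ 3 ≠ 0 := by rw [uv_rel v hX]; exact hz
    have h1 : ContinuousAt (fun p : ℝ × zeroSet cuP => gg p.1 (uu p.2.1) (vv p.2.1))
        (τ, ⟨v, hX⟩) := by
      apply ContinuousAt.comp (g := fun p : ℝ × ℂ × ℂ => gg p.1 p.2.1 p.2.2)
        (f := fun p : ℝ × zeroSet cuP => (p.1, uu p.2.1, vv p.2.1))
      · exact continuousAt_gg τ _ _ hf
      · exact (continuous_fst.prodMk ((continuous_uu.comp (continuous_subtype_val.comp
          continuous_snd)).prodMk (continuous_vv.comp (continuous_subtype_val.comp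
          continuous_snd)))).continuousAt
    apply h1.congr
    have e1 : ∀ᶠ p : ℝ × zeroSet cuP in 𝓝 (τ, ⟨v, hX⟩), p.2.1 1 ≠ 0 := by
      have : Continuous (fun p : ℝ × zeroSet cuP => p.2.1 1) :=
        (continuous_apply 1).comp (continuous_subtype_val.comp continuous_snd)
      exact this.continuousAt.eventually_ne hz
    filter_upwards [e1] with p hp
    rw [GG, if_neg hp]

end Pool.Agent.H71
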