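import Pool.Agent.H71.CuspTop

/-!
The complement of a ray, and the final assembly.
-/

open MvPolynomial Filter Topology

namespace Pool.Agent.H71

/-- the map from the complement of a ray in the cusp to the surface -/
noncomputable def gfun (a b : ℂ) : Fin 3 → ℂ :=
  open Classical in
  if a ^ 2 - b ^ 3 = 0 then ![-1, 0, -2] else gg 1 a b

theorem gfun_mem (a b : ℂ) : gfun a b ∈ zeroSet cuP := by
  unfold gfun
  split_ifs with h
  · rw [mem_cuP]
    simp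
  · exact gg_mem 1 a b h

/-- `conj f ^ 2 / f` -/
noncomputable def cc (f : ℂ) : ℂ := (starRingEnd ℂ) f ^ 2 / f

theorem continuousAt_cc : ContinuousAt cc 0 := by
  have h0 : cc 0 = 0 := by simp [cc]
  change Tendsto _ _ (𝓝 (cc 0))
  rw [h0]
  have h1 : Tendsto (fun f : ℂ => ‖f‖) (𝓝 0) (𝓝 0) := by
    have := (continuous_norm (E := ℂ)).tendsto 0
    rwa [norm_zero] at this
  apply squeeze_zero_norm _ h1
  intro f
  unfold cc
  by_cases hf : f = 0
  · simp [hf]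
  · rw [norm_div, norm_pow, Complex.norm_conj]
    have : ‖f‖ ≠ 0 := norm_ne_zero_iff.2 hf
    rw [pow_two, mul_div_assoc, div_self this, mul_one]

theorem mm_pos (a b : ℂ) (hs : a / b ∈ Complex.slitPlane) : 0 < mm a b := by
  have hb : b ≠ 0 := by
    rintro rfl
    simp at hs
  have hs2 : a * (starRingEnd ℂ) b ∈ Complex.slitPlane := by
    have hpos : 0 < ‖b‖ ^ 2 := by
      have := norm_pos_iff.2 hb
      positivity
    have h1 : a * (starRingEnd ℂ) b = ((‖b‖ ^ 2 : ℝ) : ℂ) * (a / b) := by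
      have h2 : b * (starRingEnd ℂ) b = ((‖b‖ ^ 2 : ℝ) : ℂ) := by
        rw [Complex.mul_conj, Complex.normSq_eq_norm_sq]
      rw [← h2]
      field_simp
    rw [h1]
    rw [Complex.mem_slitPlane_iff] at hs ⊢
    rcases hs with h | h
    · left
      rw [Complex.re_ofReal_mul]
      positivity
    · right
      rw [Complex.im_ofReal_mul]
      exact mul_ne_zero hpos.ne' h
  have hn : ‖a‖ * ‖b‖ = ‖a * (starRingEnd ℂ) b‖ := by
    rw [norm_mul, Complex.norm_conj]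
  unfold mm
  rw [hn]
  generalize a * (starRingEnd ℂ) b = c at hs2
  rw [Complex.mem_slitPlane_iff] at hs2
  rcases hs2 with h | h
  · have := norm_nonneg c
    linarith
  · have h1 : |c.re| < ‖c‖ := Complex.abs_re_lt_norm.2 h
    have := neg_abs_le c.re
    linarith

/-- chart formula for `gfun` near the cusp -/
theorem gfun_eq_Psi (a b : ℂ) (ha : a ≠ 0) (hb : b ≠ 0) :
    gfun a b = Psi ((a ^ 2 - b ^ 3) / a ^ 2)
      (Complex.log (a / b) * a ^ 2 * (starRingEnd ℂ) (a ^ 2 - b ^ 3) /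
        ((‖a ^ 2 - b ^ 3‖ ^ 2 + mm a b : ℝ) : ℂ))
      (Complex.log (a / b) ^ 2 * a ^ 6 * cc (a ^ 2 - b ^ 3) /
        ((‖a ^ 2 - b ^ 3‖ ^ 2 + mm a b : ℝ) : ℂ) ^ 2) := by
  by_cases hf : a ^ 2 - b ^ 3 = 0
  · rw [gfun, if_pos hf, hf]
    have : cc 0 = 0 := by simp [cc]
    rw [this, map_zero, mul_zero, mul_zero, zero_div, zero_div, zero_div, Psi_zero]
    simp
  · rw [gfun, if_neg hf]
    have hfpos : 0 < ‖a ^ 2 - b ^ 3‖ ^ 2 := by
      have := norm_pos_iff.2 hf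
      positivity
    have hden : (‖a ^ 2 - b ^ 3‖ ^ 2 + mm a b : ℝ) ≠ 0 := by
      have := mm_nonneg a b
      positivity
    have hdenC : ((‖a ^ 2 - b ^ 3‖ ^ 2 + mm a b : ℝ) : ℂ) ≠ 0 := by exact_mod_cast hden
    have he : (a ^ 2 - b ^ 3) / a ^ 2 ≠ 0 := div_ne_zero hf (pow_ne_zero _ ha)
    have h1e : 1 - (a ^ 2 - b ^ 3) / a ^ 2 = b ^ 3 / a ^ 2 := by
      field_simp
      ring
    have he1 : (a ^ 2 - b ^ 3) / a ^ 2 ≠ 1 := by
      intro h
      rw [h, sub_self] at h1e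
      exact div_ne_zero (pow_ne_zero _ hb) (pow_ne_zero _ ha) h1e.symm
    have hnorm : (a ^ 2 - b ^ 3) * (starRingEnd ℂ) (a ^ 2 - b ^ 3) =
        ((‖a ^ 2 - b ^ 3‖ ^ 2 : ℝ) : ℂ) := by
      rw [Complex.mul_conj, Complex.normSq_eq_norm_sq]
    have hBB : -(((1 : ℝ) : ℂ) * BB a b) + Complex.log (a / b) = (a ^ 2 - b ^ 3) / a ^ 2 *
        (Complex.log (a / b) * a ^ 2 * (starRingEnd ℂ) (a ^ 2 - b ^ 3) /
        ((‖a ^ 2 - b ^ 3‖ ^ 2 + mm a b : ℝ) : ℂ)) := by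
      have h2 : (a ^ 2 - b ^ 3) / a ^ 2 * (Complex.log (a / b) * a ^ 2 *
          (starRingEnd ℂ) (a ^ 2 - b ^ 3) / ((‖a ^ 2 - b ^ 3‖ ^ 2 + mm a b : ℝ) : ℂ)) =
          Complex.log (a / b) * ((a ^ 2 - b ^ 3) * (starRingEnd ℂ) (a ^ 2 - b ^ 3)) /
            ((‖a ^ 2 - b ^ 3‖ ^ 2 + mm a b : ℝ) : ℂ) := by
        generalize (starRingEnd ℂ) (a ^ 2 - b ^ 3) = c
        field_simp
      rw [h2, hnorm]
      unfold BB
      rw [Complex.ofReal_div]
      have hsplit : ((‖a ^ 2 - b ^ 3‖ ^ 2 + mm a b : ℝ) : ℂ) =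
        ((‖a ^ 2 - b ^ 3‖ ^ 2 : ℝ) : ℂ) + (mm a b : ℂ) := by push_cast; ring
      rw [hsplit] at hdenC ⊢
      rw [Complex.ofReal_one]
      field_simp
      ring
    rw [Psi_eq _ _ _ he he1]
    · rw [← hBB, Complex.exp_add, Complex.exp_log (div_ne_zero ha hb), h1e, gg]
      congr 1
      · field_simp
      · field_simp
    · unfold cc
      generalize (starRingEnd ℂ) (a ^ 2 - b ^ 3) = c
      generalize ((‖a ^ 2 - b ^ 3‖ ^ 2 + mm a b : ℝ) : ℂ) = D at hdenC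
      field_simp

/-- the complement of a ray -/
def WW : Set (ℂ × ℂ) := {p | ¬ (p.1 = 0 ∧ ∃ r : ℝ, 0 ≤ r ∧ p.2 = r)}

/-- the shear function -/
noncomputable def hh (b : ℂ) : ℂ := ((‖b‖ * Real.sqrt ‖b‖ : ℝ) : ℂ)

theorem continuous_hh : Continuous hh := by
  unfold hh
  fun_prop

theorem hh_sq (b : ℂ) : hh b ^ 2 = ((‖b‖ ^ 3 : ℝ) : ℂ) := by
  unfold hh
  rw [← Complex.ofReal_pow]
  congr 1
  rw [mul_pow, Real.sq_sqrt (norm_nonneg b)]
  ring

theorem slit_of_WW (a b : ℂ) (h : (a + hh b, b) ∈ WW) (hf : a ^ 2 - b ^ 3 = 0) :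
    a ≠ 0 ∧ b ≠ 0 ∧ a / b ∈ Complex.slitPlane := by
  have hb : b ≠ 0 := by
    rintro rfl
    have ha : a = 0 := by
      have : a ^ 2 = 0 := by linear_combination hf
      exact pow_eq_zero_iff (two_ne_zero) |>.1 this
    apply h
    refine ⟨?_, 0, le_rfl, by simp⟩
    simp [ha, hh]
  have ha : a ≠ 0 := by
    rintro rfl
    have : b ^ 3 = 0 := by linear_combination (-1 : ℂ) * hf
    exact hb (pow_eq_zero_iff (three_ne_zero) |>.1 this)
  refine ⟨ha, hb, ?_⟩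
  by_contra hs
  rw [Complex.mem_slitPlane_iff] at hs
  push Not at hs
  obtain ⟨h1, h2⟩ := hs
  have ht2 : (a / b) ^ 2 = b := by
    rw [div_pow]
    field_simp
    linear_combination hf
  have ht3 : (a / b) ^ 3 = a := by
    rw [div_pow]
    field_simp
    linear_combination hf
  have hr : a / b = ((a / b).re : ℂ) := by
    apply Complex.ext
    · simp
    · simp [h2]
  set r := (a / b).re with hrdef
  rw [hr] at ht2 ht3
  apply h
  refine ⟨?_, r ^ 2, sq_nonneg r, ?_⟩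
  · change a + hh b = 0
    have hb' : ‖b‖ = r ^ 2 := by
      rw [← ht2, norm_pow, Complex.norm_real, Real.norm_eq_abs, sq_abs]
    unfold hh
    rw [hb', Real.sqrt_sq_eq_abs, abs_of_nonpos h1, ← ht3]
    push_cast
    ring
  · change b = _
    rw [← ht2]
    push_cast
    ring

theorem continuousAt_gfun (a b : ℂ) (h : (a + hh b, b) ∈ WW) :
    ContinuousAt (fun p : ℂ × ℂ => gfun p.1 p.2) (a, b) := by
  have cf : Continuous (fun p : ℂ × ℂ => p.1 ^ 2 - p.2 ^ 3) := by fun_prop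
  by_cases hf : a ^ 2 - b ^ 3 = 0
  · obtain ⟨ha, hb, hs⟩ := slit_of_WW a b h hf
    have hm := mm_pos a b hs
    have hden : (((‖a ^ 2 - b ^ 3‖ ^ 2 + mm a b : ℝ)) : ℂ) ≠ 0 := by
      have : (‖a ^ 2 - b ^ 3‖ ^ 2 + mm a b : ℝ) ≠ 0 := by positivity
      exact_mod_cast this
    have c1 : ContinuousAt (fun p : ℂ × ℂ => (p.1 ^ 2 - p.2 ^ 3) / p.1 ^ 2) (a, b) :=
      cf.continuousAt.div (continuousAt_fst.pow 2) (pow_ne_zero _ ha)
    have cL : ContinuousAt (fun p : ℂ × ℂ => Complex.log (p.1 / p.2)) (a, b) :=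
      ContinuousAt.clog (continuousAt_fst.div continuousAt_snd hb) hs
    have cD : Continuous (fun p : ℂ × ℂ =>
        ((‖p.1 ^ 2 - p.2 ^ 3‖ ^ 2 + mm p.1 p.2 : ℝ) : ℂ)) :=
      Complex.continuous_ofReal.comp ((cf.norm.pow 2).add continuous_mm)
    have cconj : Continuous (fun p : ℂ × ℂ => (starRingEnd ℂ) (p.1 ^ 2 - p.2 ^ 3)) :=
      Complex.continuous_conj.comp cf
    have ccc : ContinuousAt (fun p : ℂ × ℂ => cc (p.1 ^ 2 - p.2 ^ 3)) (a, b) := by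
      apply ContinuousAt.comp (g := cc) (f := fun p : ℂ × ℂ => p.1 ^ 2 - p.2 ^ 3)
      · change ContinuousAt cc (a ^ 2 - b ^ 3)
        rw [hf]
        exact continuousAt_cc
      · exact cf.continuousAt
    have c2 : ContinuousAt (fun p : ℂ × ℂ => Complex.log (p.1 / p.2) * p.1 ^ 2 *
        (starRingEnd ℂ) (p.1 ^ 2 - p.2 ^ 3) /
        ((‖p.1 ^ 2 - p.2 ^ 3‖ ^ 2 + mm p.1 p.2 : ℝ) : ℂ)) (a, b) :=
      ((cL.mul (continuousAt_fst.pow 2)).mul cconj.continuousAt).div cD.continuousAt hden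
    have c3 : ContinuousAt (fun p : ℂ × ℂ => Complex.log (p.1 / p.2) ^ 2 * p.1 ^ 6 *
        cc (p.1 ^ 2 - p.2 ^ 3) /
        ((‖p.1 ^ 2 - p.2 ^ 3‖ ^ 2 + mm p.1 p.2 : ℝ) : ℂ) ^ 2) (a, b) :=
      (((cL.pow 2).mul (continuousAt_fst.pow 6)).mul ccc).div (cD.continuousAt.pow 2)
        (pow_ne_zero _ hden)
    have he1 : (a ^ 2 - b ^ 3) / a ^ 2 ≠ 1 := by
      rw [hf, zero_div]
      exact zero_ne_one
    have := continuousAt_Psi c1 c2 c3 he1
    apply this.congr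
    have e1 : ∀ᶠ p : ℂ × ℂ in 𝓝 (a, b), p.1 ≠ 0 := continuousAt_fst.eventually_ne ha
    have e2 : ∀ᶠ p : ℂ × ℂ in 𝓝 (a, b), p.2 ≠ 0 := continuousAt_snd.eventually_ne hb
    filter_upwards [e1, e2] with p hp1 hp2
    exact (gfun_eq_Psi p.1 p.2 hp1 hp2).symm
  · have h1 : ContinuousAt (fun p : ℂ × ℂ => gg 1 p.1 p.2) (a, b) :=
      ContinuousAt.comp (g := fun p : ℝ × ℂ × ℂ => gg p.1 p.2.1 p.2.2)
        (f := fun p : ℂ × ℂ => ((1 : ℝ), p.1, p.2)) (continuousAt_gg 1 a b hf) (by fun_prop)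
    apply h1.congr
    filter_upwards [cf.continuousAt.eventually_ne hf] with p hp
    rw [gfun, if_neg hp]

end Pool.Agent.H71
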