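import Pool.Agent.H71.WTR

/-!
Perfect images of weakly theta-refinable spaces are weakly theta-refinable.
-/

namespace Pool.Agent.H71

/-- points of order exactly `k` (finite, positive) in the family `V` -/
def ordSet {X : Type*} (V : Set (Set X)) (k : ℕ) : Set X :=
  {x | {v ∈ V | x ∈ v}.Nonempty ∧ {v ∈ V | x ∈ v}.Finite ∧ {v ∈ V | x ∈ v}.ncard = k}

/-- points at which the traces of the members of `V` on `E` form a locally finite family -/
def locFin {X : Type*} [TopologicalSpace X] (V : Set (Set X)) (E : Set X) : Set X :=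
  {x | ∃ N, IsOpen N ∧ x ∈ N ∧ {v ∈ V | ((v ∩ E) ∩ N).Nonempty}.Finite}

theorem isOpen_locFin {X : Type*} [TopologicalSpace X] (V : Set (Set X)) (E : Set X) :
    IsOpen (locFin V E) := by
  rw [isOpen_iff_forall_mem_open]
  rintro x ⟨N, hN, hx, hfin⟩
  exact ⟨N, fun z hz => ⟨N, hN, hz, hfin⟩, hN, hx⟩

theorem ordSet_subset_locFin {X : Type*} [TopologicalSpace X] (V : Set (Set X))
    (hV : ∀ v ∈ V, IsOpen v) (k : ℕ) : ordSet V k ⊆ locFin V (ordSet V k) := by
  rintro x ⟨hne, hfin, hcard⟩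
  refine ⟨⋂ v ∈ {v ∈ V | x ∈ v}, v, ?_, ?_, ?_⟩
  · exact hfin.isOpen_biInter (fun v hv => hV v hv.1)
  · simp only [Set.mem_iInter]
    intro v hv
    exact hv.2
  · refine hfin.subset ?_
    rintro v ⟨hvV, z, ⟨hzv, hzE⟩, hzN⟩
    have hsub : {v ∈ V | x ∈ v} ⊆ {v ∈ V | z ∈ v} := by
      intro u hu
      refine ⟨hu.1, ?_⟩
      simp only [Set.mem_iInter] at hzN
      exact hzN u hu
    have hEq : {v ∈ V | x ∈ v} = {v ∈ V | z ∈ v} := by
      apply Set.eq_of_subset_of_ncard_le hsub _ hzE.2.1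
      rw [hcard, hzE.2.2]
    have : v ∈ {v ∈ V | z ∈ v} := ⟨hvV, hzv⟩
    rw [← hEq] at this
    exact this

theorem perfect_image {X Y : Type*} [TopologicalSpace X] [TopologicalSpace Y]
    (f : X → Y) (hcont : Continuous f) (hsurj : Function.Surjective f) (hclosed : IsClosedMap f)
    (hcomp : ∀ y, IsCompact (f ⁻¹' {y})) (hX : WeaklyThetaRefinable X) :
    WeaklyThetaRefinable Y := by
  classical
  intro W hWopen hWcov
  obtain ⟨V, hVopen, hVref, hVord⟩ := hX ((fun w => f ⁻¹' w) '' W)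
    (by rintro _ ⟨w, hw, rfl⟩; exact (hWopen w hw).preimage hcont)
    (by
      rw [Set.sUnion_image]
      ext x
      simp only [Set.mem_iUnion, Set.mem_preimage, Set.mem_univ, iff_true]
      have : f x ∈ ⋃₀ W := by rw [hWcov]; trivial
      obtain ⟨w, hw, hx⟩ := this
      exact ⟨w, hw, hx⟩)
  -- choose for every member of `V n` a member of `W`
  have hchoose : ∀ n, ∀ v : {v // v ∈ V n}, ∃ w ∈ W, v.1 ⊆ f ⁻¹' w := by
    intro n v
    obtain ⟨u, ⟨w, hw, rfl⟩, hu⟩ := hVref n v.1 v.2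
    exact ⟨w, hw, hu⟩
  choose wc hwcW hwcsub using hchoose
  -- indices
  let VV : ℕ → Set (Set X) := fun i => V (Nat.unpair i).1
  let E : ℕ → Set X := fun i => ordSet (VV i) (Nat.unpair i).2
  let L : ℕ → Set X := fun i => locFin (VV i) (E i)
  have hEL : ∀ i, E i ⊆ L i := fun i => ordSet_subset_locFin _ (hVopen _) _
  have hLopen : ∀ i, IsOpen (L i) := fun i => isOpen_locFin _ _
  have hEcov : ∀ x, ∃ i, x ∈ E i := by
    intro x
    obtain ⟨n, hne, hfin⟩ := hVord x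
    refine ⟨Nat.pair n ({v ∈ V n | x ∈ v}.ncard), ?_⟩
    have h1 : (Nat.unpair (Nat.pair n ({v ∈ V n | x ∈ v}.ncard))).1 = n := by
      rw [Nat.unpair_pair]
    have h2 : (Nat.unpair (Nat.pair n ({v ∈ V n | x ∈ v}.ncard))).2 =
        {v ∈ V n | x ∈ v}.ncard := by
      rw [Nat.unpair_pair]
    change x ∈ ordSet (V (Nat.unpair (Nat.pair n ({v ∈ V n | x ∈ v}.ncard))).1)
      (Nat.unpair (Nat.pair n ({v ∈ V n | x ∈ v}.ncard))).2
    rw [h1, h2]
    exact ⟨hne, hfin, rfl⟩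
  let XX : Finset ℕ → Set X := fun ν => {x | ∀ i ∈ ν, x ∉ L i}
  have hXXclosed : ∀ ν, IsClosed (XX ν) := by
    intro ν
    have : XX ν = ⋂ i ∈ ν, (L i)ᶜ := by
      ext x; simp [XX]
    rw [this]
    exact isClosed_biInter (fun i _ => (hLopen i).isClosed_compl)
  -- the key selection
  have hsel : ∀ y, ∃ ν : Finset ℕ, ∃ i, ((f ⁻¹' {y} ∩ XX ν) ∩ E i).Nonempty ∧
      f ⁻¹' {y} ∩ XX ν ⊆ L i := by
    intro y
    by_contra hcon
    push Not at hcon
    let K : Set X := f ⁻¹' {y}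
    let ν : ℕ → Finset ℕ := fun j => Nat.rec ∅
      (fun j ν => if ((K ∩ XX ν) ∩ E j).Nonempty then insert j ν else ν) j
    have hν0 : ν 0 = ∅ := rfl
    have hνs : ∀ j, ν (j + 1) =
        if ((K ∩ XX (ν j)) ∩ E j).Nonempty then insert j (ν j) else ν j := fun j => rfl
    have hne : ∀ j, (K ∩ XX (ν j)).Nonempty := by
      intro j
      induction j with
      | zero =>
        obtain ⟨x, hx⟩ := hsurj y
        refine ⟨x, hx, ?_⟩
        intro i hi
        rw [hν0] at hi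
        simp at hi
      | succ j ih =>
        rw [hνs]
        split_ifs with h
        · have h2 := hcon (ν j) j h
          rw [Set.not_subset] at h2
          obtain ⟨x, ⟨hxK, hxX⟩, hxL⟩ := h2
          refine ⟨x, hxK, ?_⟩
          intro i hi
          rcases Finset.mem_insert.1 hi with rfl | hi
          · exact hxL
          · exact hxX i hi
        · exact ih
    have hanti : Antitone (fun j => XX (ν j)) := by
      apply antitone_nat_of_succ_le
      intro j x hx i hi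
      apply hx i
      rw [hνs]
      split_ifs
      · exact Finset.mem_insert_of_mem hi
      · exact hi
    have hint : (K ∩ ⋂ j, XX (ν j)).Nonempty := by
      by_contra hemp
      rw [Set.not_nonempty_iff_eq_empty] at hemp
      have hcover : K ⊆ ⋃ j, (XX (ν j))ᶜ := by
        intro x hx
        by_contra hx2
        have : x ∈ K ∩ ⋂ j, XX (ν j) := by
          refine ⟨hx, ?_⟩
          simp only [Set.mem_iInter]
          intro j
          exact Classical.not_not.1 (fun hj => hx2 (Set.mem_iUnion.2 ⟨j, hj⟩))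
        rw [hemp] at this
        exact this
      obtain ⟨j, hj⟩ := (hcomp y).elim_directed_cover (fun j => (XX (ν j))ᶜ)
        (fun j => (hXXclosed _).isOpen_compl) hcover
        (by
          intro a b
          refine ⟨max a b, ?_, ?_⟩
          · exact Set.compl_subset_compl.2 (hanti (le_max_left a b))
          · exact Set.compl_subset_compl.2 (hanti (le_max_right a b)))
      obtain ⟨x, hxK, hxX⟩ := hne j
      exact hj hxK hxX
    obtain ⟨x, hxK, hxI⟩ := hint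
    simp only [Set.mem_iInter] at hxI
    obtain ⟨j, hj⟩ := hEcov x
    have h1 : ((K ∩ XX (ν j)) ∩ E j).Nonempty := ⟨x, ⟨hxK, hxI j⟩, hj⟩
    have h2 : ν (j + 1) = insert j (ν j) := by rw [hνs, if_pos h1]
    have h3 := hxI (j + 1)
    rw [h2] at h3
    exact h3 j (Finset.mem_insert_self _ _) (hEL j hj)
  -- the families in `Y`
  let A : ∀ p : Finset ℕ × ℕ, {v // v ∈ VV p.2} → Set Y :=
    fun p v => f '' ((v.1 ∩ E p.2) ∩ XX p.1)
  let w : ∀ p : Finset ℕ × ℕ, {v // v ∈ VV p.2} → Set Y := fun p v => wc _ v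
  have hAw : ∀ p v, A p v ⊆ w p v := by
    rintro p v _ ⟨x, ⟨⟨hxv, -⟩, -⟩, rfl⟩
    exact hwcsub _ v hxv
  apply exists_nat_families W (κ := (Finset ℕ × ℕ) × ℕ) (fun q => fam (A q.1) (w q.1) q.2)
  · intro q
    exact fam_open _ _ (fun v => hWopen _ (hwcW _ v)) _
  · intro q
    exact fam_refine _ _ _ (fun v => hwcW _ v) _
  · intro y
    obtain ⟨ν, i, ⟨x, ⟨hxK, hxX⟩, hxE⟩, hsub⟩ := hsel y
    -- an open set around the compact piece of the fibre, meeting finitely many traces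
    have hKc : IsCompact (f ⁻¹' {y} ∩ XX ν) := (hcomp y).inter_right (hXXclosed ν)
    have hN : ∃ N, IsOpen N ∧ f ⁻¹' {y} ∩ XX ν ⊆ N ∧
        {v ∈ VV i | ((v ∩ E i) ∩ N).Nonempty}.Finite := by
      refine hKc.induction_on (p := fun s => ∃ N, IsOpen N ∧ s ⊆ N ∧
        {v ∈ VV i | ((v ∩ E i) ∩ N).Nonempty}.Finite) ?_ ?_ ?_ ?_
      · refine ⟨∅, isOpen_empty, Set.Subset.rfl, ?_⟩
        simp
      · rintro s t hst ⟨N, hNo, htN, hfin⟩
        exact ⟨N, hNo, hst.trans htN, hfin⟩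
      · rintro s t ⟨N, hNo, hsN, hfin⟩ ⟨N', hNo', hsN', hfin'⟩
        refine ⟨N ∪ N', hNo.union hNo', Set.union_subset_union hsN hsN', ?_⟩
        refine (hfin.union hfin').subset ?_
        rintro v ⟨hv, z, hz, hzN | hzN⟩
        · exact Or.inl ⟨hv, z, hz, hzN⟩
        · exact Or.inr ⟨hv, z, hz, hzN⟩
      · intro z hz
        obtain ⟨N, hNo, hzN, hfin⟩ := hsub hz
        exact ⟨N, mem_nhdsWithin_of_mem_nhds (hNo.mem_nhds hzN), N, hNo, Set.Subset.rfl, hfin⟩
    obtain ⟨N, hNo, hKN, hfin⟩ := hN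
    -- the open neighbourhood of y
    have hCl : IsClosed (f '' (XX ν \ N)) := by
      apply hclosed
      exact (hXXclosed ν).sdiff hNo
    have hxE' : x ∈ ordSet (VV i) (Nat.unpair i).2 := hxE
    obtain ⟨v₀, hv₀⟩ := hxE'.1
    have hy₀ : y ∈ A (ν, i) ⟨v₀, hv₀.1⟩ := ⟨x, ⟨⟨hv₀.2, hxE⟩, hxX⟩, hxK⟩
    obtain ⟨k, hk⟩ := fam_order (A (ν, i)) (w (ν, i)) (hAw (ν, i)) y ⟨v₀, hv₀.1⟩ hy₀
      (f '' (XX ν \ N))ᶜ hCl.isOpen_compl
      (by
        rintro ⟨z, ⟨hzX, hzN⟩, hzy⟩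
        exact hzN (hKN ⟨hzy, hzX⟩))
      (by
        have : Function.Injective (fun v : {v // v ∈ VV i} => v.1) := Subtype.val_injective
        refine Set.Finite.of_finite_image (f := fun v : {v // v ∈ VV i} => v.1) ?_
          this.injOn
        refine hfin.subset ?_
        rintro _ ⟨v, ⟨z, ⟨u, ⟨⟨huv, huE⟩, huX⟩, rfl⟩, hzO⟩, rfl⟩
        refine ⟨v.2, u, ⟨huv, huE⟩, ?_⟩
        by_contra huN
        exact hzO ⟨u, ⟨huX, huN⟩, rfl⟩)
    exact ⟨((ν, i), k), hk⟩

end Pool.Agent.H71
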