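import Pool.Agent.H71.SurfDef

/-!
Chain rules for polynomial maps and automorphisms of `ℂ³`.
-/

open MvPolynomial

namespace Pool.Agent.H71

/-- chain rule for algebra endomorphisms of the polynomial ring -/
theorem chain_rule {n : Type*} [Fintype n] [DecidableEq n]
    (f : MvPolynomial n ℂ →ₐ[ℂ] MvPolynomial n ℂ) (i : n) (g : MvPolynomial n ℂ) :
    pderiv i (f g) = ∑ j, f (pderiv j g) * pderiv i (f (X j)) := by
  induction g using MvPolynomial.induction_on with
  | C a =>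
    have : f (C a) = C a := by
      have := f.commutes a
      simpa [MvPolynomial.algebraMap_eq] using this
    rw [this]
    simp
  | add p q hp hq =>
    simp only [map_add, hp, hq, add_mul, Finset.sum_add_distrib]
  | mul_X p k hp =>
    have h1 : ∀ j, f (pderiv j (p * X k)) * pderiv i (f (X j)) =
        f (pderiv j p) * pderiv i (f (X j)) * f (X k) +
          (if j = k then f p * pderiv i (f (X k)) else 0) := by
      intro j
      by_cases hjk : j = k
      · subst hjk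
        rw [pderiv_mul, pderiv_X_self, map_add, map_mul, map_mul, map_one, if_pos rfl]
        ring
      · rw [pderiv_mul, pderiv_X_of_ne (Ne.symm hjk), map_add, map_mul, mul_zero, map_zero,
          if_neg hjk]
        ring
    rw [Finset.sum_congr rfl (fun j _ => h1 j), Finset.sum_add_distrib, Finset.sum_ite_eq',
      if_pos (Finset.mem_univ k), ← Finset.sum_mul, ← hp, map_mul, pderiv_mul]

/-- the point map of an algebra endomorphism -/
noncomputable def ptMap (f : MvPolynomial (Fin 3) ℂ →ₐ[ℂ] MvPolynomial (Fin 3) ℂ)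
    (v : Fin 3 → ℂ) : Fin 3 → ℂ := fun i => eval v (f (X i))

theorem eval_ptMap (f : MvPolynomial (Fin 3) ℂ →ₐ[ℂ] MvPolynomial (Fin 3) ℂ)
    (v : Fin 3 → ℂ) (g : MvPolynomial (Fin 3) ℂ) : eval v (f g) = eval (ptMap f v) g := by
  have h : (MvPolynomial.aeval v : MvPolynomial (Fin 3) ℂ →ₐ[ℂ] ℂ).comp f =
      (MvPolynomial.aeval (ptMap f v) : MvPolynomial (Fin 3) ℂ →ₐ[ℂ] ℂ) := by
    ext i
    simp [ptMap, MvPolynomial.aeval_eq_eval]
  have := DFunLike.congr_fun h g
  simpa [MvPolynomial.aeval_eq_eval] using this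

/-- critical zeros of `q` -/
def Crit (q : MvPolynomial (Fin 3) ℂ) : Set (Fin 3 → ℂ) :=
  {v | eval v q = 0 ∧ ∀ i, eval v (pderiv i q) = 0}

theorem crit_of_crit (f : MvPolynomial (Fin 3) ℂ →ₐ[ℂ] MvPolynomial (Fin 3) ℂ)
    (v : Fin 3 → ℂ) (g : MvPolynomial (Fin 3) ℂ) (h : ptMap f v ∈ Crit g) : v ∈ Crit (f g) := by
  refine ⟨?_, fun i => ?_⟩
  · rw [eval_ptMap]; exact h.1
  · rw [chain_rule, map_sum]
    apply Finset.sum_eq_zero
    intro j _
    rw [map_mul, eval_ptMap, h.2 j, zero_mul]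

/-- the Hessian matrix -/
noncomputable def hess (q : MvPolynomial (Fin 3) ℂ) (v : Fin 3 → ℂ) : Matrix (Fin 3) (Fin 3) ℂ :=
  Matrix.of fun i j => eval v (pderiv i (pderiv j q))

/-- the Jacobian matrix -/
noncomputable def jac (f : MvPolynomial (Fin 3) ℂ →ₐ[ℂ] MvPolynomial (Fin 3) ℂ)
    (v : Fin 3 → ℂ) : Matrix (Fin 3) (Fin 3) ℂ :=
  Matrix.of fun i j => eval v (pderiv i (f (X j)))

theorem hess_comp (f : MvPolynomial (Fin 3) ℂ →ₐ[ℂ] MvPolynomial (Fin 3) ℂ)
    (v : Fin 3 → ℂ) (g : MvPolynomial (Fin 3) ℂ) (h : ptMap f v ∈ Crit g) :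
    hess (f g) v = jac f v * hess g (ptMap f v) * (jac f v).transpose := by
  ext i k
  simp only [hess, jac, Matrix.mul_apply, Matrix.of_apply, Matrix.transpose_apply]
  rw [chain_rule f k g, map_sum, map_sum]
  apply Finset.sum_congr rfl
  intro j _
  rw [pderiv_mul, map_add, map_mul, map_mul, eval_ptMap f v (pderiv j g), h.2 j, zero_mul,
    add_zero, chain_rule f i (pderiv j g), map_sum]
  congr 1
  apply Finset.sum_congr rfl
  intro l _
  rw [map_mul, eval_ptMap]
  ring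

theorem jac_mul (α : MvPolynomial (Fin 3) ℂ ≃ₐ[ℂ] MvPolynomial (Fin 3) ℂ) (v : Fin 3 → ℂ) :
    ∃ M : Matrix (Fin 3) (Fin 3) ℂ, jac α.toAlgHom v * M = 1 := by
  refine ⟨Matrix.of fun l j => eval v (α (pderiv l (α.symm (X j)))), ?_⟩
  ext i j
  simp only [jac, Matrix.mul_apply, Matrix.of_apply]
  have h := chain_rule α.toAlgHom i (α.symm (X j))
  have h2 : α.toAlgHom (α.symm (X j)) = X j := by simp
  rw [h2] at h
  have h3 := congrArg (eval v) h
  rw [map_sum] at h3
  simp only [map_mul] at h3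
  rw [Finset.sum_congr rfl (fun l _ => mul_comm _ _)] 
  have h4 : eval v (pderiv i (X j : MvPolynomial (Fin 3) ℂ)) = (1 : Matrix (Fin 3) (Fin 3) ℂ) i j := by
    rw [pderiv_X, Matrix.one_apply]
    by_cases hij : i = j
    · subst hij; simp
    · simp [hij, Pi.single_apply]
  rw [← h4, h3]
  rfl

theorem det_jac_ne_zero (α : MvPolynomial (Fin 3) ℂ ≃ₐ[ℂ] MvPolynomial (Fin 3) ℂ)
    (v : Fin 3 → ℂ) : (jac α.toAlgHom v).det ≠ 0 := by
  obtain ⟨M, hM⟩ := jac_mul α v
  have := congrArg Matrix.det hM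
  rw [Matrix.det_mul, Matrix.det_one] at this
  intro h0
  rw [h0, zero_mul] at this
  exact zero_ne_one this

theorem det_hess_comp (α : MvPolynomial (Fin 3) ℂ ≃ₐ[ℂ] MvPolynomial (Fin 3) ℂ)
    (v : Fin 3 → ℂ) (g : MvPolynomial (Fin 3) ℂ) (h : ptMap α.toAlgHom v ∈ Crit g) :
    (hess (α g) v).det = (jac α.toAlgHom v).det ^ 2 * (hess g (ptMap α.toAlgHom v)).det := by
  have := hess_comp α.toAlgHom v g h
  have h2 : hess (α g) v = hess (α.toAlgHom g) v := rfl
  rw [h2, this, Matrix.det_mul, Matrix.det_mul, Matrix.det_transpose]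
  ring

theorem ptMap_symm (α : MvPolynomial (Fin 3) ℂ ≃ₐ[ℂ] MvPolynomial (Fin 3) ℂ) (v : Fin 3 → ℂ) :
    ptMap α.toAlgHom (ptMap α.symm.toAlgHom v) = v := by
  ext i
  have h1 : eval (ptMap α.symm.toAlgHom v) (α (X i)) = eval v (α.symm (α (X i))) :=
    (eval_ptMap α.symm.toAlgHom v (α (X i))).symm
  have h2 : ptMap α.toAlgHom (ptMap α.symm.toAlgHom v) i =
    eval (ptMap α.symm.toAlgHom v) (α (X i)) := rfl
  rw [h2, h1]
  simp

theorem ptMap_symm' (α : MvPolynomial (Fin 3) ℂ ≃ₐ[ℂ] MvPolynomial (Fin 3) ℂ) (v : Fin 3 → ℂ) :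
    ptMap α.symm.toAlgHom (ptMap α.toAlgHom v) = v := by
  have := ptMap_symm α.symm v
  simpa using this

theorem mem_crit_iff (α : MvPolynomial (Fin 3) ℂ ≃ₐ[ℂ] MvPolynomial (Fin 3) ℂ)
    (g : MvPolynomial (Fin 3) ℂ) (v : Fin 3 → ℂ) :
    v ∈ Crit (α g) ↔ ptMap α.toAlgHom v ∈ Crit g := by
  constructor
  · intro h
    have h1 : ptMap α.symm.toAlgHom (ptMap α.toAlgHom v) ∈ Crit (α g) := by
      rw [ptMap_symm']; exact h
    have h2 := crit_of_crit α.symm.toAlgHom (ptMap α.toAlgHom v) (α g) h1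
    have h3 : α.symm.toAlgHom (α g) = g := by simp
    rwa [h3] at h2
  · intro h
    exact crit_of_crit α.toAlgHom v g h

end Pool.Agent.H71
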