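import Mathlib

/-!
Definitions for hypersurfaces in complex 3-space.
-/

open MvPolynomial

namespace Pool.Agent.H71

/-- the zero set of `p` in `ℂ³` -/
def zeroSet (p : MvPolynomial (Fin 3) ℂ) : Set (Fin 3 → ℂ) := {v | eval v p = 0}

/-- `a` is a singular point of the reduced zero set `X` of `p`: it lies on `X`, and the
differentials at `a` of all polynomials vanishing on `X` are zero. -/
def IsSingularPt (p : MvPolynomial (Fin 3) ℂ) (a : Fin 3 → ℂ) : Prop :=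
  a ∈ zeroSet p ∧ ∀ f : MvPolynomial (Fin 3) ℂ, (∀ v ∈ zeroSet p, eval v f = 0) →
    ∀ i, eval a (pderiv i f) = 0

/-- `a` is an isolated point of the singular locus. -/
def IsIsolatedSingularPt (p : MvPolynomial (Fin 3) ℂ) (a : Fin 3 → ℂ) : Prop :=
  IsSingularPt p a ∧ ∃ U : Set (Fin 3 → ℂ), IsOpen U ∧ a ∈ U ∧ ∀ b ∈ U, IsSingularPt p b → b = a

/-- `q(t^{w₀} v₀, t^{w₁} v₁, t^{w₂} v₂) = t^d q(v)` for all `t ≠ 0` and all `v`. -/
def QuasiHomogeneous (w : Fin 3 → ℕ) (d : ℤ) (q : MvPolynomial (Fin 3) ℂ) : Prop :=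
  ∀ t : ℂ, t ≠ 0 → ∀ v : Fin 3 → ℂ, eval (fun i => t ^ w i * v i) q = t ^ d * eval v q

end Pool.Agent.H71
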