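import Pool.Agent.H71.SurfNot

open MvPolynomial

namespace Pool.Agent.H71

/-- the example `x(x-1)y - (1-x)z² - xz³` -/
noncomputable def exP : MvPolynomial (Fin 3) ℂ :=
  X 0 * (X 0 - 1) * X 1 + -((1 - X 0) * X 2 ^ 2 + X 0 * X 2 ^ 3)

theorem eval_exP (v : Fin 3 → ℂ) :
    eval v exP = v 0 * (v 0 - 1) * v 1 - ((1 - v 0) * v 2 ^ 2 + v 0 * v 2 ^ 3) := by
  simp [exP]; ring

theorem pderiv0 : pderiv 0 exP = (2 * X 0 - 1) * X 1 + X 2 ^ 2 - X 2 ^ 3 := by
  have h1 : pderiv (0 : Fin 3) (X 1 : MvPolynomial (Fin 3) ℂ) = 0 := pderiv_X_of_ne (by decide)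
  have h2 : pderiv (0 : Fin 3) (X 2 : MvPolynomial (Fin 3) ℂ) = 0 := pderiv_X_of_ne (by decide)
  simp only [exP, map_add, map_neg, pderiv_mul, map_sub, pderiv_X_self, pderiv_one, pderiv_pow,
    h1, h2]
  ring

theorem pderiv1 : pderiv 1 exP = X 0 * (X 0 - 1) := by
  have h1 : pderiv (1 : Fin 3) (X 0 : MvPolynomial (Fin 3) ℂ) = 0 := pderiv_X_of_ne (by decide)
  have h2 : pderiv (1 : Fin 3) (X 2 : MvPolynomial (Fin 3) ℂ) = 0 := pderiv_X_of_ne (by decide)
  simp only [exP, map_add, map_neg, pderiv_mul, map_sub, pderiv_X_self, pderiv_one, pderiv_pow,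
    h1, h2]
  ring

theorem pderiv2 : pderiv 2 exP = -(2 * (1 - X 0) * X 2 + 3 * X 0 * X 2 ^ 2) := by
  have h1 : pderiv (2 : Fin 3) (X 0 : MvPolynomial (Fin 3) ℂ) = 0 := pderiv_X_of_ne (by decide)
  have h2 : pderiv (2 : Fin 3) (X 1 : MvPolynomial (Fin 3) ℂ) = 0 := pderiv_X_of_ne (by decide)
  simp only [exP, map_add, map_neg, pderiv_mul, map_sub, pderiv_X_self, pderiv_one, pderiv_pow,
    h1, h2]
  push_cast
  ring

/-- the second singular point -/
def pt1 : Fin 3 → ℂ := ![1, 0, 0]

theorem crit_exP : Crit exP = {0, pt1} := by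
  ext v
  simp only [Crit, Set.mem_ofPred_eq, Set.mem_insert_iff, Set.mem_singleton_iff]
  constructor
  · rintro ⟨h, hd⟩
    have h0 := hd 0
    have h1 := hd 1
    have h2 := hd 2
    rw [pderiv0] at h0
    rw [pderiv1] at h1
    rw [pderiv2] at h2
    simp at h0 h1 h2
    rcases h1 with h1 | h1
    · left
      rw [h1] at h0 h2
      have h3 : v 2 = 0 := by
        have : (2 : ℂ) * v 2 = 0 := by linear_combination (-1 : ℂ) * h2
        rcases mul_eq_zero.1 this with h | h
        · norm_num at h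
        · exact h
      rw [h3] at h0
      have h4 : v 1 = 0 := by linear_combination (-1 : ℂ) * h0
      ext i
      fin_cases i
      · exact h1
      · exact h4
      · exact h3
    · right
      have h1' : v 0 = 1 := by linear_combination h1
      rw [h1'] at h0 h2
      have h3 : v 2 = 0 := by
        have : (3 : ℂ) * v 2 ^ 2 = 0 := by linear_combination (-1 : ℂ) * h2
        rcases mul_eq_zero.1 this with h | h
        · norm_num at h
        · exact pow_eq_zero_iff (two_ne_zero) |>.1 h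
      rw [h3] at h0
      have h4 : v 1 = 0 := by linear_combination h0
      ext i
      fin_cases i
      · simp [pt1, h1']
      · simp [pt1, h4]
      · simp [pt1, h3]
  · have hz : ∀ i : Fin 3, i = 0 ∨ i = 1 ∨ i = 2 := by decide
    rintro (rfl | rfl)
    · refine ⟨by rw [eval_exP]; simp, fun i => ?_⟩
      rcases hz i with rfl | rfl | rfl
      · rw [pderiv0]; simp
      · rw [pderiv1]; simp
      · rw [pderiv2]; simp
    · refine ⟨by rw [eval_exP]; simp [pt1], fun i => ?_⟩
      rcases hz i with rfl | rfl | rfl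
      · rw [pderiv0]; simp [pt1]
      · rw [pderiv1]; simp [pt1]
      · rw [pderiv2]; simp [pt1]

theorem hess_exP (v : Fin 3 → ℂ) : hess exP v =
    !![2 * v 1, 2 * v 0 - 1, 2 * v 2 - 3 * v 2 ^ 2;
       2 * v 0 - 1, 0, 0;
       2 * v 2 - 3 * v 2 ^ 2, 0, -(2 * (1 - v 0) + 6 * v 0 * v 2)] := by
  have n1 : ∀ i j : Fin 3, j ≠ i → pderiv i (X j : MvPolynomial (Fin 3) ℂ) = 0 :=
    fun i j h => pderiv_X_of_ne h
  have c2 : ∀ i : Fin 3, pderiv i (2 : MvPolynomial (Fin 3) ℂ) = 0 := by
    intro i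
    have : (2 : MvPolynomial (Fin 3) ℂ) = C 2 := (map_ofNat C 2).symm
    rw [this, pderiv_C]
  have c3 : ∀ i : Fin 3, pderiv i (3 : MvPolynomial (Fin 3) ℂ) = 0 := by
    intro i
    have : (3 : MvPolynomial (Fin 3) ℂ) = C 3 := (map_ofNat C 3).symm
    rw [this, pderiv_C]
  ext i j
  fin_cases i <;> fin_cases j <;>
  simp only [hess, Matrix.of_apply, Fin.zero_eta, Fin.mk_one, Fin.reduceFinMk, pderiv0, pderiv1,
    pderiv2, map_add, map_neg, pderiv_mul, map_sub, pderiv_X_self, pderiv_one, pderiv_pow,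
    n1 0 1 (by decide), n1 0 2 (by decide), n1 1 0 (by decide), n1 1 2 (by decide),
    n1 2 0 (by decide), n1 2 1 (by decide), c2, c3] <;>
  simp <;> ring

theorem det0 : (hess exP 0).det ≠ 0 := by
  rw [hess_exP, Matrix.det_fin_three]
  simp

theorem det1 : (hess exP pt1).det = 0 := by
  rw [hess_exP, Matrix.det_fin_three]
  simp [pt1]

theorem irreducible_exP : Irreducible exP := by
  have hX0 : Irreducible (X 0 : MvPolynomial (Fin 3) ℂ) := (MvPolynomial.X_prime (i := 0)).irreducible
  have hX1 : Irreducible (X 0 - 1 : MvPolynomial (Fin 3) ℂ) := by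
    have := irreducible_mul_X_add (1 : MvPolynomial (Fin 3) ℂ) (-1) 0 one_ne_zero
      (by simp [MvPolynomial.vars_one]) (by
        have : (-1 : MvPolynomial (Fin 3) ℂ) = C (-1) := by simp
        rw [this, MvPolynomial.vars_C]; simp)
      isRelPrime_one_left
    rw [one_mul] at this
    rwa [sub_eq_add_neg]
  unfold exP
  apply irreducible_mul_X_add
  · exact mul_ne_zero hX0.ne_zero hX1.ne_zero
  · intro h
    have h1 := MvPolynomial.vars_mul _ _ h
    rw [Finset.mem_union, MvPolynomial.vars_X] at h1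
    rcases h1 with h1 | h1
    · simp at h1
    · have h2 := MvPolynomial.vars_sub_subset _ h1
      rw [Finset.mem_union, MvPolynomial.vars_X, MvPolynomial.vars_one] at h2
      simp at h2
  · rw [MvPolynomial.vars_neg]
    intro h
    have h1 := MvPolynomial.vars_add_subset _ _ h
    rw [Finset.mem_union] at h1
    rcases h1 with h1 | h1
    · have h2 := MvPolynomial.vars_mul _ _ h1
      rw [Finset.mem_union] at h2
      rcases h2 with h2 | h2
      · have h3 := MvPolynomial.vars_sub_subset _ h2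
        rw [Finset.mem_union, MvPolynomial.vars_X, MvPolynomial.vars_one] at h3
        simp at h3
      · have h3 := MvPolynomial.vars_pow _ _ h2
        rw [MvPolynomial.vars_X] at h3
        simp at h3
    · have h2 := MvPolynomial.vars_mul _ _ h1
      rw [Finset.mem_union, MvPolynomial.vars_X] at h2
      rcases h2 with h2 | h2
      · simp at h2
      · have h3 := MvPolynomial.vars_pow _ _ h2
        rw [MvPolynomial.vars_X] at h3
        simp at h3
  · apply IsRelPrime.mul_left
    · rw [hX0.isRelPrime_iff_not_dvd]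
      rintro ⟨g, hg⟩
      have := congrArg (eval ![0, 0, 1]) hg
      simp at this
    · rw [hX1.isRelPrime_iff_not_dvd]
      rintro ⟨g, hg⟩
      have := congrArg (eval ![1, 0, 1]) hg
      simp at this

end Pool.Agent.H71
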