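import Pool.Agent.H71.SurfQuasi

open MvPolynomial

namespace Pool.Agent.H71

theorem crit_scale {w : Fin 3 → ℕ} {d : ℤ} {q : MvPolynomial (Fin 3) ℂ}
    (h : QuasiHomogeneous w d q) {v : Fin 3 → ℂ} (hv : v ∈ Crit q) (t : ℂ) (ht : t ≠ 0) :
    (fun i => t ^ w i * v i) ∈ Crit q := by
  refine ⟨?_, fun i => ?_⟩
  · rw [h t ht v, hv.1, mul_zero]
  · rw [qh_pderiv h i t ht v, hv.2 i, mul_zero]

/-- points of a finite critical set are fixed by the action -/
theorem crit_fixed {w : Fin 3 → ℕ} {d : ℤ} {q : MvPolynomial (Fin 3) ℂ}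
    (h : QuasiHomogeneous w d q) (hfin : (Crit q).Finite) {v : Fin 3 → ℂ} (hv : v ∈ Crit q)
    (i : Fin 3) (hi : w i ≠ 0) : v i = 0 := by
  by_contra hne
  have hinj : Function.Injective (fun n : ℕ => (fun i => ((2 : ℂ) ^ n) ^ w i * v i)) := by
    intro n m hnm
    have h1 := congrFun hnm i
    have h2 : ((2 : ℂ) ^ n) ^ w i = ((2 : ℂ) ^ m) ^ w i := mul_right_cancel₀ hne h1
    rw [← pow_mul, ← pow_mul] at h2
    have h3 := congrArg norm h2
    rw [norm_pow, norm_pow] at h3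
    have h5 : ‖(2 : ℂ)‖ = 2 := by simp
    rw [h5] at h3
    have h4 : n * w i = m * w i := by
      have := pow_right_injective₀ (a := (2 : ℝ)) (by norm_num) (by norm_num) h3
      exact this
    exact Nat.eq_of_mul_eq_mul_right (Nat.pos_of_ne_zero hi) h4
  have hsub : Set.range (fun n : ℕ => (fun i => ((2 : ℂ) ^ n) ^ w i * v i)) ⊆ Crit q := by
    rintro _ ⟨n, rfl⟩
    exact crit_scale h hv _ (pow_ne_zero _ two_ne_zero)
  exact (Set.infinite_range_of_injective hinj) (hfin.subset hsub)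

theorem hess_zero {w : Fin 3 → ℕ} {d : ℤ} {q : MvPolynomial (Fin 3) ℂ}
    (h : QuasiHomogeneous w d q) (v : Fin 3 → ℂ) (hv : ∀ i, w i ≠ 0 → v i = 0) (i k : Fin 3)
    (hne : (w i : ℤ) + w k ≠ d) : hess q v i k = 0 := by
  have h1 := qh_pderiv (qh_pderiv h k) i
  apply qh_fixed h1 v hv
  omega

theorem pattern {w : Fin 3 → ℕ} {d : ℤ} {q : MvPolynomial (Fin 3) ℂ}
    (h : QuasiHomogeneous w d q) (hw : w ≠ 0) (v : Fin 3 → ℂ) (hv : ∀ i, w i ≠ 0 → v i = 0)
    (hdet : (hess q v).det ≠ 0) (i₀ : Fin 3) (hi₀ : w i₀ = 0) :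
    ∃ j k : Fin 3, ∃ e : ℕ, i₀ ≠ j ∧ j ≠ k ∧ i₀ ≠ k ∧ 0 < e ∧ w j = 2 * e ∧ w k = e ∧
      d = ((2 * e : ℕ) : ℤ) := by
  rw [Matrix.det_apply] at hdet
  obtain ⟨σ, -, hσ⟩ := Finset.exists_ne_zero_of_sum_ne_zero hdet
  have hprod : ∀ i, hess q v (σ i) i ≠ 0 := by
    intro i hi
    apply hσ
    have h0 : ∏ i, hess q v (σ i) i = 0 := Finset.prod_eq_zero (Finset.mem_univ i) hi
    exact (congrArg (fun x => Equiv.Perm.sign σ • x) h0).trans (smul_zero _)
  have hsum : ∀ i, (w (σ i) : ℤ) + w i = d := by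
    intro i
    by_contra hne
    exact hprod i (hess_zero h v hv _ _ hne)
  have hd0 : d ≠ 0 := by
    rintro rfl
    apply hw
    ext i
    have := hsum i
    simp only [Pi.zero_apply]
    omega
  have hj : (w (σ i₀) : ℤ) = d := by
    have := hsum i₀
    omega
  have hji : i₀ ≠ σ i₀ := by
    intro heq
    rw [← heq, hi₀] at hj
    exact hd0 (by simpa using hj.symm)
  have hj2 : w (σ (σ i₀)) = 0 := by
    have := hsum (σ i₀)
    omega
  -- σ (σ i₀) = i₀
  have hσσ : σ (σ i₀) = i₀ := by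
    by_contra hne
    have h1 : (w (σ (σ (σ i₀))) : ℤ) = d := by
      have := hsum (σ (σ i₀))
      omega
    have h2 : σ (σ i₀) ≠ σ i₀ := by
      intro heq
      exact hji (σ.injective heq).symm
    -- three distinct indices i₀, σ i₀, σ (σ i₀)
    rcases fin_three_cases i₀ (σ i₀) (σ (σ i₀)) (σ (σ (σ i₀))) hji (Ne.symm h2) (Ne.symm hne)
      with h3 | h3 | h3
    · rw [h3, hi₀] at h1
      exact hd0 (by simpa using h1.symm)
    · exact hne (σ.injective h3)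
    · exact h2 (σ.injective h3)
  obtain ⟨k, hk1, hk2⟩ : ∃ k : Fin 3, k ≠ i₀ ∧ k ≠ σ i₀ := by
    have : ∀ a b : Fin 3, ∃ k : Fin 3, k ≠ a ∧ k ≠ b := by decide
    exact this _ _
  have hσk : σ k = k := by
    rcases fin_three_cases i₀ (σ i₀) k (σ k) hji (Ne.symm hk2) (Ne.symm hk1) with h3 | h3 | h3
    · exfalso
      have : σ k = σ (σ i₀) := by rw [h3, hσσ]
      exact hk2 (σ.injective this)
    · exfalso
      exact hk1 (σ.injective h3)
    · exact h3
  have hkk := hsum k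
  rw [hσk] at hkk
  refine ⟨σ i₀, k, w k, hji, Ne.symm hk2, Ne.symm hk1, ?_, ?_, rfl, ?_⟩
  · omega
  · omega
  · push_cast
    omega

theorem det_of_pattern (M : Matrix (Fin 3) (Fin 3) ℂ) (i₀ j k : Fin 3) (h1 : i₀ ≠ j)
    (h2 : j ≠ k) (h3 : i₀ ≠ k) (a : M i₀ i₀ = 0) (b : M i₀ k = 0) (b' : M k i₀ = 0)
    (c : M j j = 0) (d : M j k = 0) (d' : M k j = 0) :
    M.det = - (M i₀ j * M j i₀ * M k k) := by
  have key : ∀ i₀ j k : Fin 3, i₀ ≠ j → j ≠ k → i₀ ≠ k →
      (i₀ = 0 ∧ j = 1 ∧ k = 2) ∨ (i₀ = 0 ∧ j = 2 ∧ k = 1) ∨ (i₀ = 1 ∧ j = 0 ∧ k = 2) ∨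
      (i₀ = 1 ∧ j = 2 ∧ k = 0) ∨ (i₀ = 2 ∧ j = 0 ∧ k = 1) ∨ (i₀ = 2 ∧ j = 1 ∧ k = 0) := by
    decide
  rcases key i₀ j k h1 h2 h3 with ⟨rfl, rfl, rfl⟩ | ⟨rfl, rfl, rfl⟩ | ⟨rfl, rfl, rfl⟩ |
    ⟨rfl, rfl, rfl⟩ | ⟨rfl, rfl, rfl⟩ | ⟨rfl, rfl, rfl⟩ <;>
  rw [Matrix.det_fin_three, a, b, b', c, d, d'] <;> ring

/-- Main non-quasihomogeneity criterion. -/
theorem not_quasi (q : MvPolynomial (Fin 3) ℂ) (a b : Fin 3 → ℂ) (hab : a ≠ b)
    (hcrit : Crit q = {a, b}) (ha : (hess q a).det ≠ 0) (hb : (hess q b).det = 0)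
    (w : Fin 3 → ℕ) (hw : w ≠ 0) (d : ℤ) : ¬ QuasiHomogeneous w d q := by
  intro h
  have hfin : (Crit q).Finite := by rw [hcrit]; exact Set.toFinite _
  have haC : a ∈ Crit q := by rw [hcrit]; simp
  have hbC : b ∈ Crit q := by rw [hcrit]; simp
  have ha0 : ∀ i, w i ≠ 0 → a i = 0 := fun i hi => crit_fixed h hfin haC i hi
  have hb0 : ∀ i, w i ≠ 0 → b i = 0 := fun i hi => crit_fixed h hfin hbC i hi
  obtain ⟨i₀, hi₀⟩ : ∃ i₀, w i₀ = 0 := by
    by_contra hcon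
    push Not at hcon
    apply hab
    ext i
    rw [ha0 i (hcon i), hb0 i (hcon i)]
  obtain ⟨j, k, e, h1, h2, h3, he, wj, wk, hd⟩ := pattern h hw a ha0 ha i₀ hi₀
  subst hd
  have hbpt : b = pt i₀ j (b i₀) 0 0 := by
    ext i
    rcases fin_three_cases i₀ j k i h1 h2 h3 with rfl | rfl | rfl
    · simp [pt]
    · simp [pt, h1.symm, hb0 _ (by omega : w i ≠ 0)]
    · simp [pt, h2.symm, h3.symm, hb0 _ (by omega : w i ≠ 0)]
  -- weights of the derivatives
  have q0 : QuasiHomogeneous w ((e * 2 : ℕ) : ℤ) q := by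
    rw [mul_comm]; exact h
  have qj : QuasiHomogeneous w ((e * 0 : ℕ) : ℤ) (pderiv j q) := by
    have := qh_pderiv h j
    rw [wj, sub_self] at this
    simpa using this
  have qk : QuasiHomogeneous w ((e * 1 : ℕ) : ℤ) (pderiv k q) := by
    have := qh_pderiv h k
    rw [wk] at this
    have h5 : (((2 * e : ℕ) : ℤ) - e) = ((e * 1 : ℕ) : ℤ) := by push_cast; ring
    rwa [h5] at this
  have qi : QuasiHomogeneous w ((e * 2 : ℕ) : ℤ) (pderiv i₀ q) := by
    have := qh_pderiv h i₀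
    rw [hi₀] at this
    have h5 : (((2 * e : ℕ) : ℤ) - ((0 : ℕ) : ℤ)) = ((e * 2 : ℕ) : ℤ) := by push_cast; ring
    rwa [h5] at this
  have qij : QuasiHomogeneous w ((e * 0 : ℕ) : ℤ) (pderiv j (pderiv i₀ q)) := by
    have := qh_pderiv qi j
    rw [wj] at this
    have h5 : (((e * 2 : ℕ) : ℤ) - ((2 * e : ℕ) : ℤ)) = ((e * 0 : ℕ) : ℤ) := by push_cast; ring
    rwa [h5] at this
  have qik : QuasiHomogeneous w ((e * 1 : ℕ) : ℤ) (pderiv k (pderiv i₀ q)) := by
    have := qh_pderiv qi k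
    rw [wk] at this
    have h5 : (((e * 2 : ℕ) : ℤ) - (e : ℤ)) = ((e * 1 : ℕ) : ℤ) := by push_cast; ring
    rwa [h5] at this
  -- values on the plane
  have vj : ∀ y z, eval (pt i₀ j (b i₀) y z) (pderiv j q) = 0 := by
    intro y z
    rw [(plane_id i₀ j k h1 h2 h3 w e he hi₀ wj wk 0 _ qj (b i₀) y z).1 rfl, ← hbpt]
    exact hbC.2 j
  have vk : ∀ y z, eval (pt i₀ j (b i₀) y z) (pderiv k q) = z * hess q b k k := by
    intro y z
    rw [(plane_id i₀ j k h1 h2 h3 w e he hi₀ wj wk 1 _ qk (b i₀) y z).2.1 rfl, ← hbpt]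
    rfl
  have vq : ∀ y z, eval (pt i₀ j (b i₀) y z) q = z ^ 2 * hess q b k k / 2 := by
    intro y z
    have := (plane_id i₀ j k h1 h2 h3 w e he hi₀ wj wk 2 _ q0 (b i₀) y z).2.2
    rw [vj, vk] at this
    push_cast at this
    linear_combination (-1 / 2) * this
  have vij : ∀ y z, eval (pt i₀ j (b i₀) y z) (pderiv j (pderiv i₀ q)) = hess q b j i₀ := by
    intro y z
    rw [(plane_id i₀ j k h1 h2 h3 w e he hi₀ wj wk 0 _ qij (b i₀) y z).1 rfl, ← hbpt]
    rfl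
  obtain ⟨g, vik⟩ : ∃ g : ℂ, ∀ y z,
      eval (pt i₀ j (b i₀) y z) (pderiv k (pderiv i₀ q)) = z * g := by
    refine ⟨eval b (pderiv k (pderiv k (pderiv i₀ q))), fun y z => ?_⟩
    rw [(plane_id i₀ j k h1 h2 h3 w e he hi₀ wj wk 1 _ qik (b i₀) y z).2.1 rfl, ← hbpt]
  have vi : ∀ y z, eval (pt i₀ j (b i₀) y z) (pderiv i₀ q) =
      y * hess q b j i₀ + z ^ 2 * g / 2 := by
    intro y z
    have := (plane_id i₀ j k h1 h2 h3 w e he hi₀ wj wk 2 _ qi (b i₀) y z).2.2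
    rw [vij, vik] at this
    push_cast at this
    linear_combination (-1 / 2) * this
  have hmem : ∀ y z, z * hess q b k k = 0 → y * hess q b j i₀ + z ^ 2 * g / 2 = 0 →
      pt i₀ j (b i₀) y z ∈ Crit q := by
    intro y z hz hy
    refine ⟨?_, fun i => ?_⟩
    · rw [vq]
      linear_combination (z / 2) * hz
    · rcases fin_three_cases i₀ j k i h1 h2 h3 with rfl | rfl | rfl
      · rw [vi]; exact hy
      · exact vj y z
      · rw [vk]; exact hz
  have hsymm : hess q b i₀ j = hess q b j i₀ := by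
    simp only [hess, Matrix.of_apply]
    rw [pderiv_comm]
  have hdet := det_of_pattern (hess q b) i₀ j k h1 h2 h3
    (hess_zero h b hb0 _ _ (by rw [hi₀]; push_cast; omega))
    (hess_zero h b hb0 _ _ (by rw [hi₀, wk]; push_cast; omega))
    (hess_zero h b hb0 _ _ (by rw [hi₀, wk]; push_cast; omega))
    (hess_zero h b hb0 _ _ (by rw [wj]; push_cast; omega))
    (hess_zero h b hb0 _ _ (by rw [wj, wk]; push_cast; omega))
    (hess_zero h b hb0 _ _ (by rw [wj, wk]; push_cast; omega))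
  rw [hb, hsymm] at hdet
  -- an infinite family of critical points
  have hinf : ∀ f : ℂ → ℂ × ℂ, Function.Injective f →
      (∀ s, pt i₀ j (b i₀) (f s).1 (f s).2 ∈ Crit q) → False := by
    intro f hf hm
    have hinj : Function.Injective (fun s => pt i₀ j (b i₀) (f s).1 (f s).2) := by
      intro s s' hss
      apply hf
      have e1 := congrFun hss j
      have e2 := congrFun hss k
      simp only [pt, h1.symm, h2.symm, h3.symm, if_false, if_true] at e1 e2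
      exact Prod.ext e1 e2
    exact (Set.infinite_range_of_injective hinj) (hfin.subset (by
      rintro _ ⟨s, rfl⟩
      exact hm s))
  by_cases hA : hess q b j i₀ = 0
  · apply hinf (fun s => (s, 0)) (fun s s' hss => (Prod.ext_iff.1 hss).1)
    intro s
    apply hmem
    · ring
    · simp only [hA]; ring
  · have hB : hess q b k k = 0 := by
      have : hess q b j i₀ * hess q b j i₀ * hess q b k k = 0 := by
        linear_combination hdet
      rcases mul_eq_zero.1 this with h5 | h5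
      · rcases mul_eq_zero.1 h5 with h6 | h6 <;> exact absurd h6 hA
      · exact h5
    apply hinf (fun s => (-(s ^ 2 * g / 2) / hess q b j i₀, s))
      (fun s s' hss => (Prod.ext_iff.1 hss).2)
    intro s
    apply hmem
    · simp only [hB]; ring
    · simp only
      field_simp
      ring

end Pool.Agent.H71
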