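import Pool.Agent.H71.SurfExample

open MvPolynomial

namespace Pool.Agent.H71

/-- the contracting family -/
noncomputable def contr (s : ℂ) (v : Fin 3 → ℂ) : Fin 3 → ℂ :=
  ![v 0, s ^ 2 * v 1 + (s ^ 3 - s ^ 2) * (v 0 * v 1 + v 2 ^ 2 - v 2 ^ 3), s * v 2]

theorem contr_mem (s : ℂ) (v : Fin 3 → ℂ) (hv : v ∈ zeroSet exP) : contr s v ∈ zeroSet exP := by
  have h : eval v exP = 0 := hv
  rw [eval_exP] at h
  change eval (contr s v) exP = 0
  rw [eval_exP]
  simp only [contr, Matrix.cons_val_zero, Matrix.cons_val_one, Matrix.cons_val]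
  linear_combination (s ^ 2 + (s ^ 3 - s ^ 2) * v 0) * h

theorem axis_mem (x : ℂ) : (![x, 0, 0] : Fin 3 → ℂ) ∈ zeroSet exP := by
  change eval _ exP = 0
  rw [eval_exP]
  simp

theorem contr_one (v : Fin 3 → ℂ) : contr 1 v = v := by
  ext i
  fin_cases i <;> simp [contr]

theorem contr_zero (v : Fin 3 → ℂ) : contr 0 v = ![v 0, 0, 0] := by
  ext i
  fin_cases i <;> simp [contr]

theorem continuous_contr : Continuous (fun p : ℂ × (Fin 3 → ℂ) => contr p.1 p.2) := by
  apply continuous_pi
  intro i
  fin_cases i <;> simp [contr] <;> fun_prop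

theorem contractible_exP : ContractibleSpace (zeroSet exP) := by
  rw [contractible_iff_id_nullhomotopic]
  refine ⟨⟨![0, 0, 0], axis_mem 0⟩, ?_⟩
  let g : C(zeroSet exP, zeroSet exP) :=
    ⟨fun v => ⟨![v.1 0, 0, 0], axis_mem _⟩, by
      apply Continuous.subtype_mk
      have h0 : Continuous (fun v : zeroSet exP => v.1 0) :=
        (continuous_apply 0).comp continuous_subtype_val
      apply continuous_pi
      intro i
      fin_cases i
      · exact h0
      · exact continuous_const
      · exact continuous_const⟩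
  have h1 : (g : C(zeroSet exP, zeroSet exP)).Homotopic (ContinuousMap.id _) := by
    refine ⟨⟨⟨fun p => ⟨contr ((p.1 : ℝ) : ℂ) p.2.1, contr_mem _ _ p.2.2⟩, ?_⟩, ?_, ?_⟩⟩
    · apply Continuous.subtype_mk
      exact continuous_contr.comp (f := fun p : unitInterval × zeroSet exP =>
        (((p.1 : ℝ) : ℂ), p.2.1)) (by fun_prop)
    · intro v
      apply Subtype.ext
      simp [contr_zero, g]
    · intro v
      apply Subtype.ext
      simp [contr_one]
  have h2 : (ContinuousMap.const (zeroSet exP) (⟨![0, 0, 0], axis_mem 0⟩ : zeroSet exP)).Homotopic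
      g := by
    refine ⟨⟨⟨fun p => ⟨![((p.1 : ℝ) : ℂ) * p.2.1 0, 0, 0], axis_mem _⟩, ?_⟩, ?_, ?_⟩⟩
    · apply Continuous.subtype_mk
      have h0 : Continuous (fun p : unitInterval × zeroSet exP =>
          ((p.1 : ℝ) : ℂ) * p.2.1 0) :=
        (Complex.continuous_ofReal.comp (continuous_subtype_val.comp continuous_fst)).mul
          ((continuous_apply 0).comp (continuous_subtype_val.comp continuous_snd))
      apply continuous_pi
      intro i
      fin_cases i
      · exact h0
      · exact continuous_const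
      · exact continuous_const
    · intro v
      apply Subtype.ext
      simp
    · intro v
      apply Subtype.ext
      simp [g]
  exact h1.symm.trans h2.symm

theorem curve_deriv (p f : MvPolynomial (Fin 3) ℂ) (hf : ∀ v ∈ zeroSet p, eval v f = 0)
    (c : Fin 3 → Polynomial ℂ) (hc : ∀ τ, (fun i => Polynomial.eval τ (c i)) ∈ zeroSet p) (τ : ℂ) :
    ∑ i, eval (fun i => Polynomial.eval τ (c i)) (pderiv i f) *
      Polynomial.eval τ (Polynomial.derivative (c i)) = 0 := by
  have hev : ∀ τ : ℂ, ∀ g : MvPolynomial (Fin 3) ℂ,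
      Polynomial.eval τ (aeval c g) = eval (fun i => Polynomial.eval τ (c i)) g := by
    intro τ g
    have : (Polynomial.aeval τ : Polynomial ℂ →ₐ[ℂ] ℂ).comp (aeval c) =
        (aeval (fun i => Polynomial.eval τ (c i)) : MvPolynomial (Fin 3) ℂ →ₐ[ℂ] ℂ) := by
      ext i
      simp [Polynomial.coe_aeval_eq_eval]
    have h := DFunLike.congr_fun this g
    simpa [MvPolynomial.aeval_eq_eval, Polynomial.coe_aeval_eq_eval] using h
  have h0 : aeval c f = 0 := by
    apply Polynomial.funext
    intro τ
    rw [hev, hf _ (hc τ)]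
    simp
  have h1 := chain_poly c f
  rw [h0, Polynomial.derivative_zero] at h1
  have h2 := congrArg (Polynomial.eval τ) h1
  rw [Polynomial.eval_zero, Polynomial.eval_finsetSum] at h2
  rw [h2]
  apply Finset.sum_congr rfl
  intro i _
  rw [Polynomial.eval_mul, hev]

theorem singular_iff (a : Fin 3 → ℂ) : IsSingularPt exP a ↔ a ∈ Crit exP := by
  constructor
  · rintro ⟨h1, h2⟩
    exact ⟨h1, h2 exP (fun v hv => hv)⟩
  · intro ha
    refine ⟨ha.1, fun f hf => ?_⟩
    have hc1 : ∀ τ : ℂ, (fun i => Polynomial.eval τ ((![Polynomial.X, 0, 0] :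
        Fin 3 → Polynomial ℂ) i)) ∈ zeroSet exP := by
      intro τ
      change eval _ exP = 0
      rw [eval_exP]
      simp
    have hc3 : ∀ τ : ℂ, (fun i => Polynomial.eval τ ((![Polynomial.X,
        -Polynomial.X * (Polynomial.X - 1) ^ 2 + Polynomial.X ^ 3 * (Polynomial.X - 1) ^ 2,
        Polynomial.X * (Polynomial.X - 1)] : Fin 3 → Polynomial ℂ) i)) ∈ zeroSet exP := by
      intro τ
      change eval _ exP = 0
      rw [eval_exP]
      simp
      ring
    have k1 := curve_deriv exP f hf _ hc1
    have k3 := curve_deriv exP f hf _ hc3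
    rw [crit_exP] at ha
    have hz : ∀ i : Fin 3, i = 0 ∨ i = 1 ∨ i = 2 := by decide
    rcases ha with rfl | ha
    · have hc2 : ∀ τ : ℂ, (fun i => Polynomial.eval τ ((![0, Polynomial.X, 0] :
          Fin 3 → Polynomial ℂ) i)) ∈ zeroSet exP := by
        intro τ
        change eval _ exP = 0
        rw [eval_exP]
        simp
      have k2 := curve_deriv exP f hf _ hc2
      have e1 := k1 0
      have e2 := k2 0
      have e3 := k3 0
      rw [Fin.sum_univ_three] at e1 e2 e3
      have v1 : (fun i => Polynomial.eval (0 : ℂ) ((![Polynomial.X, 0, 0] :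
        Fin 3 → Polynomial ℂ) i)) = 0 := by
        ext i; fin_cases i <;> simp
      have v2 : (fun i => Polynomial.eval (0 : ℂ) ((![0, Polynomial.X, 0] :
        Fin 3 → Polynomial ℂ) i)) = 0 := by
        ext i; fin_cases i <;> simp
      have v3 : (fun i => Polynomial.eval (0 : ℂ) ((![Polynomial.X,
        -Polynomial.X * (Polynomial.X - 1) ^ 2 + Polynomial.X ^ 3 * (Polynomial.X - 1) ^ 2,
        Polynomial.X * (Polynomial.X - 1)] : Fin 3 → Polynomial ℂ) i)) = 0 := by
        ext i; fin_cases i <;> simp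
      rw [v1] at e1
      rw [v2] at e2
      rw [v3] at e3
      intro i
      have key : eval 0 (pderiv 0 f) = 0 ∧ eval 0 (pderiv 1 f) = 0 ∧ eval 0 (pderiv 2 f) = 0 := by
        generalize eval (0 : Fin 3 → ℂ) (pderiv 0 f) = A at *
        generalize eval (0 : Fin 3 → ℂ) (pderiv 1 f) = B at *
        generalize eval (0 : Fin 3 → ℂ) (pderiv 2 f) = D at *
        simp at e1 e2 e3
        rw [e1, e2] at e3
        exact ⟨e1, e2, by linear_combination (-1 : ℂ) * e3⟩
      rcases hz i with rfl | rfl | rfl
      · exact key.1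
      · exact key.2.1
      · exact key.2.2
    · have ha' : a = pt1 := ha
      subst ha'
      have hc2 : ∀ τ : ℂ, (fun i => Polynomial.eval τ ((![1, Polynomial.X, 0] :
          Fin 3 → Polynomial ℂ) i)) ∈ zeroSet exP := by
        intro τ
        change eval _ exP = 0
        rw [eval_exP]
        simp
      have k2 := curve_deriv exP f hf _ hc2
      have e1 := k1 1
      have e2 := k2 0
      have e3 := k3 1
      rw [Fin.sum_univ_three] at e1 e2 e3
      have v1 : (fun i => Polynomial.eval (1 : ℂ) ((![Polynomial.X, 0, 0] :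
        Fin 3 → Polynomial ℂ) i)) = pt1 := by
        ext i; fin_cases i <;> simp [pt1]
      have v2 : (fun i => Polynomial.eval (0 : ℂ) ((![1, Polynomial.X, 0] :
        Fin 3 → Polynomial ℂ) i)) = pt1 := by
        ext i; fin_cases i <;> simp [pt1]
      have v3 : (fun i => Polynomial.eval (1 : ℂ) ((![Polynomial.X,
        -Polynomial.X * (Polynomial.X - 1) ^ 2 + Polynomial.X ^ 3 * (Polynomial.X - 1) ^ 2,
        Polynomial.X * (Polynomial.X - 1)] : Fin 3 → Polynomial ℂ) i)) = pt1 := by
        ext i; fin_cases i <;> simp [pt1]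
      rw [v1] at e1
      rw [v2] at e2
      rw [v3] at e3
      simp at e1 e2 e3
      rw [e1] at e3
      intro i
      rcases hz i with rfl | rfl | rfl
      · exact e1
      · exact e2
      · linear_combination e3

end Pool.Agent.H71
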