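import Pool.Agent.H71.SurfTop

/-!
# A contractible surface in `ℂ³` with isolated singular points that is not quasihomogeneous
(MP_c4712b_ag, Q1, negated form)

`p = x(x-1)y - (1-x)z² - xz³` is irreducible, its zero set `X` is contractible, `X` has exactly two
singular points, both isolated (an `A₁` and an `A₂` point), and no polynomial automorphism of `ℂ³`
makes `p` quasihomogeneous, for any positive weights, nor for any nonnegative weights not all zero.
-/

open MvPolynomial

namespace Pool.Agent.H71.TwoSingularPoints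

open Pool.Agent.H71

theorem result : ∃ p : MvPolynomial (Fin 3) ℂ,
    p = X 0 * (X 0 - 1) * X 1 - (1 - X 0) * X 2 ^ 2 - X 0 * X 2 ^ 3 ∧
    Irreducible p ∧
    ContractibleSpace (zeroSet p) ∧
    (∃ a b : Fin 3 → ℂ, a ≠ b ∧ {c | IsSingularPt p c} = {a, b} ∧
      IsIsolatedSingularPt p a ∧ IsIsolatedSingularPt p b) ∧
    ∀ (α : MvPolynomial (Fin 3) ℂ ≃ₐ[ℂ] MvPolynomial (Fin 3) ℂ) (w : Fin 3 → ℕ) (d : ℤ),
      w ≠ 0 → ¬ QuasiHomogeneous w d (α p) := by
  have hsing : {c | IsSingularPt exP c} = {0, pt1} := by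
    rw [← crit_exP]
    ext c
    exact singular_iff c
  have hne : (0 : Fin 3 → ℂ) ≠ pt1 := by
    intro h
    have := congrFun h 0
    simp [pt1] at this
  have hs : ∀ c, IsSingularPt exP c ↔ c = 0 ∨ c = pt1 := by
    intro c
    have : c ∈ {c | IsSingularPt exP c} ↔ c ∈ ({0, pt1} : Set (Fin 3 → ℂ)) := by rw [hsing]
    simpa using this
  refine ⟨exP, ?_, irreducible_exP, contractible_exP, ⟨0, pt1, hne, hsing, ?_, ?_⟩, ?_⟩
  · unfold exP
    ring
  · refine ⟨(hs 0).2 (Or.inl rfl), {pt1}ᶜ, isOpen_compl_singleton, hne, ?_⟩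
    intro b hb hb2
    rcases (hs b).1 hb2 with h | h
    · exact h
    · exact absurd h hb
  · refine ⟨(hs pt1).2 (Or.inr rfl), {0}ᶜ, isOpen_compl_singleton, hne.symm, ?_⟩
    intro b hb hb2
    rcases (hs b).1 hb2 with h | h
    · exact absurd h hb
    · exact h
  · intro α w d hw
    let ψ := ptMap α.symm.toAlgHom
    have hψ : ∀ v, ptMap α.toAlgHom (ψ v) = v := fun v => ptMap_symm α v
    have hψ' : ∀ v, ψ (ptMap α.toAlgHom v) = v := fun v => ptMap_symm' α v
    have hcrit : Crit (α exP) = {ψ 0, ψ pt1} := by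
      ext v
      rw [mem_crit_iff, crit_exP]
      simp only [Set.mem_insert_iff, Set.mem_singleton_iff]
      constructor
      · rintro (h | h)
        · left; rw [← hψ' v, h]
        · right; rw [← hψ' v, h]
      · rintro (h | h)
        · left; rw [h, hψ]
        · right; rw [h, hψ]
    have hne' : ψ 0 ≠ ψ pt1 := by
      intro h
      apply hne
      rw [← hψ 0, h, hψ]
    have m0 : ptMap α.toAlgHom (ψ 0) ∈ Crit exP := by rw [hψ, crit_exP]; simp
    have m1 : ptMap α.toAlgHom (ψ pt1) ∈ Crit exP := by rw [hψ, crit_exP]; simp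
    apply not_quasi (α exP) (ψ 0) (ψ pt1) hne' hcrit _ _ w hw d
    · rw [det_hess_comp α (ψ 0) exP m0, hψ]
      exact mul_ne_zero (pow_ne_zero _ (det_jac_ne_zero α _)) det0
    · rw [det_hess_comp α (ψ pt1) exP m1, hψ, det1, mul_zero]

end Pool.Agent.H71.TwoSingularPoints
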