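import Pool.Agent.H71.WTRDef

/-!
Weakly theta-refinable spaces: general lemmas producing the required open families.
-/

namespace Pool.Agent.H71

/-- Reindexing: a nonempty countable family of families is enough. -/
theorem exists_nat_families {X : Type*} [TopologicalSpace X] (U : Set (Set X))
    {κ : Type*} [Countable κ] [Nonempty κ] (V : κ → Set (Set X))
    (h1 : ∀ n, ∀ v ∈ V n, IsOpen v)
    (h2 : ∀ n, ∀ v ∈ V n, ∃ u ∈ U, v ⊆ u)
    (h3 : ∀ x, ∃ n, {v ∈ V n | x ∈ v}.Nonempty ∧ {v ∈ V n | x ∈ v}.Finite) :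
    ∃ V : ℕ → Set (Set X),
      (∀ n, ∀ v ∈ V n, IsOpen v) ∧
      (∀ n, ∀ v ∈ V n, ∃ u ∈ U, v ⊆ u) ∧
      ∀ x, ∃ n, {v ∈ V n | x ∈ v}.Nonempty ∧ {v ∈ V n | x ∈ v}.Finite := by
  obtain ⟨g, hg⟩ := exists_surjective_nat κ
  refine ⟨fun n => V (g n), fun n => h1 _, fun n => h2 _, fun x => ?_⟩
  obtain ⟨n, hn⟩ := h3 x
  obtain ⟨m, rfl⟩ := hg n
  exact ⟨m, hn⟩

/-- The open families attached to a family `A` of sets with `A i ⊆ w i`, `w i ∈ W` open. -/
def fam {Y ι : Type*} [TopologicalSpace Y] (A w : ι → Set Y) (k : ℕ) : Set (Set Y) :=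
  {G | ∃ H : Finset ι, H.card = k ∧ ∃ i ∈ H, G = (closure (⋃ j ∈ {j | j ∉ H}, A j))ᶜ ∩ w i}

theorem fam_open {Y ι : Type*} [TopologicalSpace Y] (A w : ι → Set Y)
    (hw : ∀ i, IsOpen (w i)) (k : ℕ) : ∀ v ∈ fam A w k, IsOpen v := by
  rintro v ⟨H, -, i, -, rfl⟩
  exact isClosed_closure.isOpen_compl.inter (hw i)

theorem fam_refine {Y ι : Type*} [TopologicalSpace Y] (A w : ι → Set Y) (W : Set (Set Y))
    (hw : ∀ i, w i ∈ W) (k : ℕ) : ∀ v ∈ fam A w k, ∃ u ∈ W, v ⊆ u := by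
  rintro v ⟨H, -, i, -, rfl⟩
  exact ⟨w i, hw i, Set.inter_subset_right⟩

/-- If the family `A` is locally finite at `y` and `y` lies in some `A i`, then some `fam A w k`
has positive finite order at `y`. -/
theorem fam_order {Y ι : Type*} [TopologicalSpace Y] (A w : ι → Set Y)
    (hAw : ∀ i, A i ⊆ w i) (y : Y) (i₀ : ι) (hi₀ : y ∈ A i₀) (O : Set Y) (hO : IsOpen O)
    (hyO : y ∈ O) (hfin : {j | (A j ∩ O).Nonempty}.Finite) :
    ∃ k, {v ∈ fam A w k | y ∈ v}.Nonempty ∧ {v ∈ fam A w k | y ∈ v}.Finite := by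
  classical
  have hsub : {j | y ∈ closure (A j)} ⊆ {j | (A j ∩ O).Nonempty} := by
    intro j hj
    have := mem_closure_iff.1 hj O hO hyO
    rwa [Set.inter_comm] at this
  have hHfin : {j | y ∈ closure (A j)}.Finite := hfin.subset hsub
  set Hy : Finset ι := hHfin.toFinset with hHy
  have hmem : ∀ j, j ∈ Hy ↔ y ∈ closure (A j) := by
    intro j
    simp [hHy]
  -- y is not in the closure of the union of the other members
  have hnot : y ∉ closure (⋃ j ∈ {j | j ∉ Hy}, A j) := by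
    set F : Finset ι := hfin.toFinset with hF
    have hFmem : ∀ j, j ∈ F ↔ (A j ∩ O).Nonempty := by
      intro j; simp [hF]
    have hN : IsOpen (O ∩ ⋂ j ∈ F.filter (fun j => j ∉ Hy), (closure (A j))ᶜ) := by
      refine hO.inter ?_
      exact isOpen_biInter_finset (fun j _ => isClosed_closure.isOpen_compl)
    intro hcl
    have hyN : y ∈ O ∩ ⋂ j ∈ F.filter (fun j => j ∉ Hy), (closure (A j))ᶜ := by
      refine ⟨hyO, ?_⟩
      simp only [Set.mem_iInter, Set.mem_compl_iff, Finset.mem_filter]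
      rintro j ⟨_, hj⟩ hj'
      exact hj ((hmem j).2 hj')
    obtain ⟨z, hzN, hzA⟩ := mem_closure_iff.1 hcl _ hN hyN
    simp only [Set.mem_iUnion, Set.mem_ofPred_eq] at hzA
    obtain ⟨j, hj, hzj⟩ := hzA
    have hjF : j ∈ F := (hFmem j).2 ⟨z, hzj, hzN.1⟩
    have := hzN.2
    simp only [Set.mem_iInter, Set.mem_compl_iff, Finset.mem_filter] at this
    exact this j ⟨hjF, hj⟩ (subset_closure hzj)
  refine ⟨Hy.card, ?_, ?_⟩
  · refine ⟨(closure (⋃ j ∈ {j | j ∉ Hy}, A j))ᶜ ∩ w i₀, ⟨Hy, rfl, i₀, ?_, rfl⟩, hnot, hAw _ hi₀⟩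
    exact (hmem i₀).2 (subset_closure hi₀)
  · refine Set.Finite.subset
      ((Hy.image (fun i => (closure (⋃ j ∈ {j | j ∉ Hy}, A j))ᶜ ∩ w i)).finite_toSet) ?_
    rintro v ⟨⟨H, hcard, i, hiH, rfl⟩, hyv⟩
    have hsubH : Hy ⊆ H := by
      intro j hj
      by_contra hjH
      apply hyv.1
      refine closure_mono ?_ ((hmem j).1 hj)
      intro z hz
      simp only [Set.mem_iUnion, Set.mem_ofPred_eq]
      exact ⟨j, hjH, hz⟩
    have hEq : Hy = H := Finset.eq_of_subset_of_card_le hsubH (by rw [hcard])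
    subst hEq
    simp only [Finset.coe_image, Set.mem_image, Finset.mem_coe]
    exact ⟨i, hiH, rfl⟩

end Pool.Agent.H71
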