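import Mathlib

/-!
Weakly theta-refinable spaces: the definition.
-/

namespace Pool.Agent.H71

/-- A topological space `X` is weakly theta-refinable if every open cover `U` of `X` has an open
refinement which is the union of countably many families `V n` of open sets such that every point
`x` lies in at least one and in only finitely many members of `V n`, for some `n`
(so `0 < ord(x, V n) < ∞`). -/
def WeaklyThetaRefinable (X : Type*) [TopologicalSpace X] : Prop :=
  ∀ U : Set (Set X), (∀ u ∈ U, IsOpen u) → ⋃₀ U = Set.univ →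
    ∃ V : ℕ → Set (Set X),
      (∀ n, ∀ v ∈ V n, IsOpen v) ∧
      (∀ n, ∀ v ∈ V n, ∃ u ∈ U, v ⊆ u) ∧
      ∀ x, ∃ n, {v ∈ V n | x ∈ v}.Nonempty ∧ {v ∈ V n | x ∈ v}.Finite

end Pool.Agent.H71
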