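import Pool.Agent.H71.WalkSpace

/-!
Existence of the guiding system for the walks, and failure of weak theta-refinability of `YS I`
when `I` has order type omega_2.
-/

open Set TopologicalSpace Cardinal

namespace Pool.Agent.H71

section

variable {I J : Type} [LinearOrder I] [WellFoundedLT I] [LinearOrder J] [WellFoundedLT J]

omit [WellFoundedLT I] in
/-- Existence of a guiding system. -/
theorem exists_CSys (hJ : ∀ j : J, (Iio j).Countable)
    (hg : ∀ a : I, ∃ g : Iio a → J, Function.Injective g) : Nonempty (CSys I) := by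
  choose g hginj using hg
  have hcof : ∀ a b : I, b < a → ∃ c, (∃ h : c < a, ∀ d (hd : d < a),
      g a ⟨d, hd⟩ < g a ⟨c, h⟩ → d < c) ∧ b ≤ c ∧ c < a := by
    intro a b hba
    let T : Set J := {j | ∃ c : Iio a, b ≤ c.1 ∧ g a c = j}
    have hT : T.Nonempty := ⟨g a ⟨b, hba⟩, ⟨b, hba⟩, le_rfl, rfl⟩
    obtain ⟨c, hbc, hc⟩ := WellFounded.min_mem (wellFounded_lt (α := J)) T hT
    refine ⟨c.1, ⟨c.2, fun d hd hlt => ?_⟩, hbc, c.2⟩
    by_contra hdc
    have hdT : g a ⟨d, hd⟩ ∈ T := ⟨⟨d, hd⟩, hbc.trans (not_lt.1 hdc), rfl⟩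
    have h1 := WellFounded.not_lt_min (wellFounded_lt (α := J)) T hdT
    rw [← hc] at h1
    exact h1 hlt
  refine ⟨⟨fun a => {c | ∃ h : c < a, ∀ d (hd : d < a), g a ⟨d, hd⟩ < g a ⟨c, h⟩ → d < c},
    hcof, ?_⟩⟩
  intro a b hba hb
  obtain ⟨c₀, ⟨hc₀a, hc₀⟩, hbc₀, -⟩ := hcof a b hba
  have hcount : {c | (∃ h : c < a, ∀ d (hd : d < a), g a ⟨d, hd⟩ < g a ⟨c, h⟩ → d < c) ∧
      c < b}.Countable := by
    have h1 : MapsTo (fun c => if h : c < a then g a ⟨c, h⟩ else g a ⟨c₀, hc₀a⟩)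
      {c | (∃ h : c < a, ∀ d (hd : d < a), g a ⟨d, hd⟩ < g a ⟨c, h⟩ → d < c) ∧ c < b}
      (Iio (g a ⟨c₀, hc₀a⟩)) := by
      rintro c ⟨⟨hca, hc⟩, hcb⟩
      simp only [hca, dif_pos, mem_Iio]
      rcases lt_trichotomy (g a ⟨c, hca⟩) (g a ⟨c₀, hc₀a⟩) with h | h | h
      · exact h
      · have := congrArg Subtype.val (hginj a h)
        simp only at this
        rw [this] at hcb
        exact absurd (hcb.trans_le hbc₀) (lt_irrefl _)
      · have := hc c₀ hc₀a h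
        exact absurd (this.trans (hcb.trans_le hbc₀)) (lt_irrefl _)
    refine h1.countable_of_injOn ?_ (hJ _)
    rintro c ⟨⟨hca, hc⟩, hcb⟩ c' ⟨⟨hca', hc'⟩, hcb'⟩ heq
    simp only [hca, hca', dif_pos] at heq
    exact congrArg Subtype.val (hginj a heq)
  obtain ⟨d, hd, h⟩ := hb _ hcount (fun c hc => hc.2)
  exact ⟨d, hd, fun c hc hcb => h c ⟨hc, hcb⟩⟩

omit [WellFoundedLT J] in
theorem YS_not_wtr_aux [Nonempty J] [WellFoundedLT J]
    (h1 : ∀ a : I, #(Iio a) ≤ ℵ₁) (h2 : ∀ S : Set I, #S ≤ ℵ₁ → ∃ b, ∀ s ∈ S, s < b)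
    (hJ : ∀ j : J, (Iio j).Countable) (hJc : #J ≤ ℵ₁)
    (hJb : ∀ S : Set J, S.Countable → ∃ b, ∀ s ∈ S, s < b) :
    ¬ WeaklyThetaRefinable (YS I) := by
  classical
  intro hW
  have hInh : Nonempty I := by
    obtain ⟨b, -⟩ := h2 ∅ (by simp)
    exact ⟨b⟩
  obtain ⟨V, hVopen, hVref, hVord⟩ := hW (range (fun c : I => {b : YS I | b.1 ≤ c}))
    (by rintro _ ⟨c, rfl⟩; exact isOpen_iic c)
    (by
      ext b
      simp only [sUnion_range, mem_iUnion, mem_univ, iff_true]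
      exact ⟨b.1, le_rfl (a := b.1)⟩)
  -- bounds
  have hbd : ∀ v : Set (YS I), ∃ c : I, (∃ n, v ∈ V n) → ∀ b ∈ v, b.1 ≤ c := by
    intro v
    by_cases h : ∃ n, v ∈ V n
    · obtain ⟨n, hn⟩ := h
      obtain ⟨_, ⟨c, rfl⟩, hc⟩ := hVref n v hn
      exact ⟨c, fun _ b hb => hc hb⟩
    · exact ⟨Classical.arbitrary I, fun h' => absurd h' h⟩
  choose bd hbd using hbd
  let F : ℕ → Set (YS I) := fun n =>
    {b | {v ∈ V n | b ∈ v}.Nonempty ∧ {v ∈ V n | b ∈ v}.Finite}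
  have he : ∀ n, ∀ b : YS I, ∃ c : I, b ∈ F n → ∀ v ∈ V n, b ∈ v → bd v ≤ c := by
    intro n b
    by_cases h : b ∈ F n
    · obtain ⟨c, hc⟩ := (h.2.image bd).bddAbove
      exact ⟨c, fun _ v hv hbv => hc ⟨v, ⟨hv, hbv⟩, rfl⟩⟩
    · exact ⟨Classical.arbitrary I, fun h' => absurd h' h⟩
  choose e he using he
  have hbnd : ∀ S : Set I, ∃ b, #S ≤ ℵ₁ → ∀ s ∈ S, s < b := by
    intro S
    by_cases h : #S ≤ ℵ₁
    · obtain ⟨b, hb⟩ := h2 S h
      exact ⟨b, fun _ => hb⟩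
    · exact ⟨Classical.arbitrary I, fun h' => absurd h' h⟩
  choose bnd hbnd using hbnd
  have hcnt : ∀ S : Set I, S.Countable → #S ≤ ℵ₁ := by
    intro S hS
    exact (Cardinal.mk_le_aleph0_iff.2 hS.to_subtype).trans aleph0_lt_aleph_one.le
  -- the set of relevant bounds up to `c`
  let T : I → Set I := fun c => range (fun p : ℕ × {b : YS I // b.1 ≤ c} => e p.1 p.2.1)
  have hT : ∀ c, #(T c) ≤ ℵ₁ := by
    intro c
    refine mk_range_le.trans ?_
    rw [mk_prod, lift_id, lift_id]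
    have hle : #{b : YS I // b.1 ≤ c} ≤ ℵ₁ := by
      obtain ⟨c', hc'⟩ := h2 {c} (hcnt _ (countable_singleton c))
      refine le_trans ?_ (h1 c')
      refine mk_le_of_injective (f := fun b : {b : YS I // b.1 ≤ c} =>
        (⟨b.1.1, lt_of_le_of_lt b.2 (hc' c rfl)⟩ : Iio c')) ?_
      intro b b' hbb
      have := congrArg Subtype.val hbb
      exact Subtype.ext (Subtype.ext this)
    calc #ℕ * #{b : YS I // b.1 ≤ c} ≤ ℵ₁ * ℵ₁ :=
          mul_le_mul' (by rw [mk_nat]; exact aleph0_lt_aleph_one.le) hle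
      _ = ℵ₁ := mul_eq_self aleph0_lt_aleph_one.le
  -- unbounded indices
  have hu : ∀ n, ∀ c : I, ∃ b : I, (∀ c, ∃ b ∈ F n, c < b.1) → (∃ b' ∈ F n, c < b'.1 ∧ b'.1 = b) := by
    intro n c
    by_cases h : ∀ c, ∃ b ∈ F n, c < b.1
    · obtain ⟨b, hb, hcb⟩ := h c
      exact ⟨b.1, fun _ => ⟨b, hb, hcb, rfl⟩⟩
    · exact ⟨c, fun h' => absurd h' h⟩
  choose u hu using hu
  have hβ : ∀ n, ∃ c : I, ¬ (∀ c, ∃ b ∈ F n, c < b.1) → ∀ b ∈ F n, b.1 ≤ c := by
    intro n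
    by_cases h : ∀ c, ∃ b ∈ F n, c < b.1
    · exact ⟨Classical.arbitrary I, fun h' => absurd h h'⟩
    · push Not at h
      obtain ⟨c, hc⟩ := h
      exact ⟨c, fun _ => hc⟩
  choose βn hβn using hβ
  let β : I := bnd (range βn)
  have hβlt : ∀ n, βn n < β := fun n =>
    hbnd _ (hcnt _ (countable_range _)) _ ⟨n, rfl⟩
  let k : I → I := fun c => bnd (insert c (insert (bnd (T c)) (range (fun n => u n c))))
  have hkc : ∀ c, (insert c (insert (bnd (T c)) (range (fun n => u n c)))).Countable := by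
    intro c
    exact ((countable_range _).insert _).insert _
  have hk1 : ∀ c, c < k c := fun c => hbnd _ (hcnt _ (hkc c)) _ (mem_insert _ _)
  have hk2 : ∀ c, bnd (T c) < k c := fun c =>
    hbnd _ (hcnt _ (hkc c)) _ (mem_insert_of_mem _ (mem_insert _ _))
  have hk3 : ∀ c n, u n c < k c := fun c n =>
    hbnd _ (hcnt _ (hkc c)) _ (mem_insert_of_mem _ (mem_insert_of_mem _ ⟨n, rfl⟩))
  -- the transfinite sequence
  let a : J → I := WellFounded.fix (wellFounded_lt (α := J)) (fun j ih =>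
    bnd (insert β (range (fun i : Iio j => k (ih i.1 i.2)))))
  have ha : ∀ j, a j = bnd (insert β (range (fun i : Iio j => k (a i.1)))) := by
    intro j
    exact WellFounded.fix_eq _ _ _
  have hac : ∀ j, (insert β (range (fun i : Iio j => k (a i.1)))).Countable := by
    intro j
    have := (hJ j).to_subtype
    exact (countable_range _).insert _
  have ha1 : ∀ j, β < a j := by
    intro j
    rw [ha j]
    exact hbnd _ (hcnt _ (hac j)) _ (mem_insert _ _)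
  have ha2 : ∀ i j, i < j → k (a i) < a j := by
    intro i j hij
    rw [ha j]
    exact hbnd _ (hcnt _ (hac j)) _ (mem_insert_of_mem _ ⟨⟨i, hij⟩, rfl⟩)
  have hne : {c : I | ∀ j, a j < c}.Nonempty := by
    obtain ⟨b, hb⟩ := h2 (range a) (mk_range_le.trans hJc)
    exact ⟨b, fun j => hb _ ⟨j, rfl⟩⟩
  let α : I := WellFounded.min (wellFounded_lt (α := I)) _ hne
  have hα : ∀ j, a j < α := WellFounded.min_mem (wellFounded_lt (α := I)) _ hne
  have hαmin : ∀ c, c < α → ∃ j, c ≤ a j := by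
    intro c hc
    by_contra hcon
    push Not at hcon
    exact (WellFounded.not_lt_min (wellFounded_lt (α := I)) {c : I | ∀ j, a j < c} hcon) hc
  have hgood : Good α := by
    intro S hS hSα
    have h3 : ∀ s : S, ∃ j, s.1 ≤ a j := fun s => hαmin _ (hSα s.2)
    choose js hjs using h3
    have := hS.to_subtype
    obtain ⟨j, hj⟩ := hJb (range js) (countable_range _)
    refine ⟨a j, hα j, fun s hs => ?_⟩
    have h4 := ha2 _ _ (hj _ ⟨⟨s, hs⟩, rfl⟩)
    exact (hjs ⟨s, hs⟩).trans ((hk1 _).trans h4).le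
  -- the contradiction
  obtain ⟨n, hnα⟩ := hVord (⟨α, hgood⟩ : YS I)
  have hnF : (⟨α, hgood⟩ : YS I) ∈ F n := hnα
  have hunb : ∀ c, ∃ b ∈ F n, c < b.1 := by
    by_contra hcon
    have h3 := hβn n hcon _ hnF
    have j₀ := Classical.arbitrary J
    exact absurd (((h3.trans_lt (hβlt n)).trans (ha1 j₀)).trans (hα j₀)) (lt_irrefl _)
  obtain ⟨v, hvV, hαv⟩ := hnF.1
  obtain ⟨d, hd, hdv⟩ := (isOpen_YS_iff.1 (hVopen n v hvV)) _ hαv
  obtain ⟨j, hj⟩ := hαmin d hd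
  obtain ⟨b, hbF, hbj, hbu⟩ := hu n (a j) hunb
  have hbk : b.1 < k (a j) := by rw [hbu]; exact hk3 _ _
  obtain ⟨j', hj'⟩ := hJb {j} (countable_singleton j)
  have hjj' : j < j' := hj' j rfl
  have hbj' : b.1 < a j' := hbk.trans (ha2 _ _ hjj')
  have hbv : b ∈ v := hdv b (lt_of_le_of_lt hj hbj) (hbj'.trans (hα j'))
  have h3 : bd v ≤ e n b := he n b hbF v hvV hbv
  have h4 : e n b < bnd (T (a j')) :=
    hbnd _ (hT _) _ ⟨(n, ⟨b, hbj'.le⟩), rfl⟩
  obtain ⟨j'', hj''⟩ := hJb {j'} (countable_singleton j')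
  have h5 : k (a j') < a j'' := ha2 _ _ (hj'' j' rfl)
  have h6 : α ≤ bd v := hbd v ⟨n, hvV⟩ _ hαv
  exact absurd (((h6.trans h3).trans_lt h4).trans (((hk2 _).trans h5).trans (hα j'')))
    (lt_irrefl _)

end

end Pool.Agent.H71
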