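import Pool.Agent.H71.WTR

/-!
The spaces used for the closed-image counterexample.

`I` is a well-ordered set. A point `a` of `I` is *good* if every countable subset of the initial
segment below `a` is bounded strictly below `a`. `YS I` is the set of good points with the
interval topology, and `XS C hC` is `YS I × ℕ` with a topology defined from the number of steps of
the walk from `a` to `b` along the sets `C a`.
-/

open Set TopologicalSpace

namespace Pool.Agent.H71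

universe u

section

variable {I : Type u} [LinearOrder I]

/-- `a` is good if every countable set of smaller elements is bounded by some `d < a`. -/
def Good (a : I) : Prop :=
  ∀ S : Set I, S.Countable → S ⊆ Iio a → ∃ d < a, ∀ s ∈ S, s ≤ d

theorem Good.exists_lt {a : I} (h : Good a) : ∃ d, d < a := by
  obtain ⟨d, hd, -⟩ := h ∅ countable_empty (by simp)
  exact ⟨d, hd⟩

variable (I) in
/-- the set of good points -/
def YS : Type u := {a : I // Good a}

instance : TopologicalSpace (YS I) where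
  IsOpen U := ∀ a ∈ U, ∃ d < a.1, ∀ b : YS I, d < b.1 → b.1 < a.1 → b ∈ U
  isOpen_univ := by
    intro a _
    obtain ⟨d, hd⟩ := a.2.exists_lt
    exact ⟨d, hd, fun _ _ _ => trivial⟩
  isOpen_inter := by
    rintro U V hU hV a ⟨haU, haV⟩
    obtain ⟨d, hd, h⟩ := hU a haU
    obtain ⟨e, he, h'⟩ := hV a haV
    refine ⟨max d e, max_lt hd he, fun b hb hb' => ⟨h b ?_ hb', h' b ?_ hb'⟩⟩
    · exact lt_of_le_of_lt (le_max_left _ _) hb
    · exact lt_of_le_of_lt (le_max_right _ _) hb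
  isOpen_sUnion := by
    rintro s hs a ⟨U, hU, haU⟩
    obtain ⟨d, hd, h⟩ := hs U hU a haU
    exact ⟨d, hd, fun b hb hb' => ⟨U, hU, h b hb hb'⟩⟩

theorem isOpen_YS_iff {U : Set (YS I)} :
    IsOpen U ↔ ∀ a ∈ U, ∃ d < a.1, ∀ b : YS I, d < b.1 → b.1 < a.1 → b ∈ U := Iff.rfl

variable [WellFoundedLT I]

/-- A system of sets `C a` guiding the walks. -/
structure CSys (I : Type u) [LinearOrder I] where
  /-- the guiding set of `a` -/
  C : I → Set I
  cof : ∀ a b, b < a → ∃ c, c ∈ C a ∧ b ≤ c ∧ c < a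
  nolim : ∀ a b, b < a → Good b → ∃ d < b, ∀ c ∈ C a, c < b → c ≤ d

/-- the first step of the walk from `a` towards `b < a` -/
noncomputable def CSys.st (S : CSys I) (a b : I) (h : b < a) : I :=
  WellFounded.min (wellFounded_lt (α := I)) {c | c ∈ S.C a ∧ b ≤ c ∧ c < a} (S.cof a b h)

theorem CSys.st_mem (S : CSys I) (a b : I) (h : b < a) :
    S.st a b h ∈ S.C a ∧ b ≤ S.st a b h ∧ S.st a b h < a :=
  WellFounded.min_mem (wellFounded_lt (α := I)) {c | c ∈ S.C a ∧ b ≤ c ∧ c < a} (S.cof a b h)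

theorem CSys.st_le (S : CSys I) (a b : I) (h : b < a) {c : I} (hc : c ∈ S.C a) (hb : b ≤ c)
    (ha : c < a) : S.st a b h ≤ c :=
  not_lt.1 (WellFounded.not_lt_min (wellFounded_lt (α := I))
    {c | c ∈ S.C a ∧ b ≤ c ∧ c < a} ⟨hc, hb, ha⟩)

/-- the number of steps of the walk from `a` to `b` (zero if `a ≤ b`) -/
noncomputable def CSys.rho (S : CSys I) (b : I) : I → ℕ :=
  WellFounded.fix (wellFounded_lt (α := I)) (fun a ih =>
    open Classical in
    if h : b < a then 1 + ih (S.st a b h) (S.st_mem a b h).2.2 else 0)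

theorem CSys.rho_of_lt (S : CSys I) {a b : I} (h : b < a) :
    S.rho b a = 1 + S.rho b (S.st a b h) := by
  unfold CSys.rho
  rw [WellFounded.fix_eq]
  simp only [h, dif_pos]

theorem CSys.rho_of_not_lt (S : CSys I) {a b : I} (h : ¬ b < a) : S.rho b a = 0 := by
  unfold CSys.rho
  rw [WellFounded.fix_eq]
  simp only [h, dif_neg, not_false_eq_true]

theorem CSys.rho_pos (S : CSys I) {a b : I} (h : b < a) : 0 < S.rho b a := by
  rw [S.rho_of_lt h]; omega

/-- Coherence of the number of steps at good points. -/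
theorem CSys.coherence (S : CSys I) (b : I) (hb : Good b) :
    ∀ a, b < a → ∃ d < b, ∀ c, d < c → c < b → S.rho c a = S.rho c b + S.rho b a := by
  intro a
  induction a using (wellFounded_lt (α := I)).induction with
  | _ a ih =>
  intro hba
  obtain ⟨d₁, hd₁, h₁⟩ := S.nolim a b hba hb
  have hst : ∀ c, d₁ < c → ∀ (hcb : c < b), S.st a c (hcb.trans hba) = S.st a b hba := by
    intro c hc hcb
    apply le_antisymm
    · obtain ⟨m1, m2, m3⟩ := S.st_mem a b hba
      exact S.st_le a c _ m1 (hcb.le.trans m2) m3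
    · obtain ⟨m1, m2, m3⟩ := S.st_mem a c (hcb.trans hba)
      apply S.st_le a b _ m1 _ m3
      by_contra hlt
      have := h₁ _ m1 (not_le.1 hlt)
      exact absurd (hc.trans_le m2) (not_lt.2 this)
  obtain ⟨m1, m2, m3⟩ := S.st_mem a b hba
  rcases eq_or_lt_of_le m2 with heq | hlt
  · refine ⟨d₁, hd₁, fun c hc hcb => ?_⟩
    rw [S.rho_of_lt (hcb.trans hba), hst c hc hcb, S.rho_of_lt hba, ← heq,
      S.rho_of_not_lt (lt_irrefl b)]
    omega
  · obtain ⟨d₂, hd₂, h₂⟩ := ih _ m3 hlt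
    refine ⟨max d₁ d₂, max_lt hd₁ hd₂, fun c hc hcb => ?_⟩
    have hc1 : d₁ < c := lt_of_le_of_lt (le_max_left _ _) hc
    have hc2 : d₂ < c := lt_of_le_of_lt (le_max_right _ _) hc
    rw [S.rho_of_lt (hcb.trans hba), hst c hc1 hcb, S.rho_of_lt hba, h₂ c hc2 hcb]
    omega

/-- the underlying set of the space `X` -/
def XS (_ : CSys I) : Type u := YS I × ℕ

instance (S : CSys I) : TopologicalSpace (XS S) where
  IsOpen U := ∀ x ∈ U, ∃ d < x.1.1, ∀ y : XS S, d < y.1.1 → y.1.1 < x.1.1 →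
    y.2 + S.rho y.1.1 x.1.1 = x.2 → y ∈ U
  isOpen_univ := by
    intro x _
    obtain ⟨d, hd⟩ := x.1.2.exists_lt
    exact ⟨d, hd, fun _ _ _ _ => trivial⟩
  isOpen_inter := by
    rintro U V hU hV a ⟨haU, haV⟩
    obtain ⟨d, hd, h⟩ := hU a haU
    obtain ⟨e, he, h'⟩ := hV a haV
    refine ⟨max d e, max_lt hd he, fun b hb hb' hn => ⟨h b ?_ hb' hn, h' b ?_ hb' hn⟩⟩
    · exact lt_of_le_of_lt (le_max_left _ _) hb
    · exact lt_of_le_of_lt (le_max_right _ _) hb
  isOpen_sUnion := by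
    rintro s hs a ⟨U, hU, haU⟩
    obtain ⟨d, hd, h⟩ := hs U hU a haU
    exact ⟨d, hd, fun b hb hb' hn => ⟨U, hU, h b hb hb' hn⟩⟩

theorem isOpen_XS_iff {S : CSys I} {U : Set (XS S)} :
    IsOpen U ↔ ∀ x ∈ U, ∃ d < x.1.1, ∀ y : XS S, d < y.1.1 → y.1.1 < x.1.1 →
      y.2 + S.rho y.1.1 x.1.1 = x.2 → y ∈ U := Iff.rfl

/-- the projection -/
def proj (S : CSys I) : XS S → YS I := fun x => x.1

omit [WellFoundedLT I] in
theorem proj_surjective (S : CSys I) : Function.Surjective (proj S) :=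
  fun a => ⟨(a, 0), rfl⟩

theorem proj_continuous (S : CSys I) : Continuous (proj S) := by
  rw [continuous_def]
  intro U hU x hx
  obtain ⟨d, hd, h⟩ := (isOpen_YS_iff.1 hU) x.1 hx
  exact ⟨d, hd, fun y hy hy' _ => h y.1 hy hy'⟩

theorem proj_isClosedMap (S : CSys I) : IsClosedMap (proj S) := by
  intro Z hZ
  rw [← isOpen_compl_iff] at hZ ⊢
  rw [isOpen_YS_iff]
  intro a ha
  rw [isOpen_XS_iff] at hZ
  have h1 : ∀ n : ℕ, ∃ d < a.1, ∀ y : XS S, d < y.1.1 → y.1.1 < a.1 →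
      y.2 + S.rho y.1.1 a.1 = n → y ∈ Zᶜ := by
    intro n
    exact hZ (a, n) (fun hmem => ha ⟨(a, n), hmem, rfl⟩)
  choose d hd h using h1
  obtain ⟨e, he, hde⟩ := a.2 (range d) (countable_range d) (by
    rintro _ ⟨n, rfl⟩
    exact hd n)
  refine ⟨e, he, fun b hb hba => ?_⟩
  rintro ⟨y, hyZ, rfl⟩
  exact h (y.2 + S.rho y.1.1 a.1) y (lt_of_le_of_lt (hde _ ⟨_, rfl⟩) hb) hba rfl hyZ

/-- the basic sets -/
def nbd (S : CSys I) (d : I) (x : XS S) : Set (XS S) :=
  {y | (y = x) ∨ (d < y.1.1 ∧ y.1.1 < x.1.1 ∧ y.2 + S.rho y.1.1 x.1.1 = x.2)}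

/-- the largest basic set at `x` -/
def nbdTop (S : CSys I) (x : XS S) : Set (XS S) :=
  {y | (y = x) ∨ (y.1.1 < x.1.1 ∧ y.2 + S.rho y.1.1 x.1.1 = x.2)}

theorem isOpen_nbdTop (S : CSys I) (x : XS S) : IsOpen (nbdTop S x) := by
  rw [isOpen_XS_iff]
  rintro y (rfl | ⟨hyx, hn⟩)
  · obtain ⟨d, hd⟩ := y.1.2.exists_lt
    exact ⟨d, hd, fun z _ hz hz' => Or.inr ⟨hz, hz'⟩⟩
  · obtain ⟨d, hd, h⟩ := S.coherence y.1.1 y.1.2 x.1.1 hyx
    refine ⟨d, hd, fun z hz hzy hz' => Or.inr ⟨hzy.trans hyx, ?_⟩⟩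
    rw [h z.1.1 hz hzy]
    omega

theorem isClopen_nbd (S : CSys I) (d : I) (x : XS S) (hd : d < x.1.1) : IsClopen (nbd S d x) := by
  constructor
  · rw [← isOpen_compl_iff, isOpen_XS_iff]
    intro y hy
    have hyx : y ≠ x := fun h => hy (Or.inl h)
    rcases lt_trichotomy y.1.1 x.1.1 with hlt | heq | hgt
    · obtain ⟨e, he, h⟩ := S.coherence y.1.1 y.1.2 x.1.1 hlt
      by_cases hdy : d < y.1.1
      · have hn : y.2 + S.rho y.1.1 x.1.1 ≠ x.2 := fun h => hy (Or.inr ⟨hdy, hlt, h⟩)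
        refine ⟨e, he, fun z hz hzy hz' => ?_⟩
        rintro (rfl | ⟨-, -, hzx⟩)
        · exact absurd (hzy.trans hlt) (lt_irrefl _)
        · rw [h z.1.1 hz hzy] at hzx
          omega
      · refine ⟨e, he, fun z hz hzy hz' => ?_⟩
        rintro (rfl | ⟨hdz, -, -⟩)
        · exact absurd (hzy.trans hlt) (lt_irrefl _)
        · exact hdy (hdz.trans hzy)
    · obtain ⟨e, he⟩ := y.1.2.exists_lt
      have hne : y.2 ≠ x.2 := by
        intro h2
        apply hyx
        exact Prod.ext (Subtype.ext heq) h2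
      refine ⟨e, he, fun z hz hzy hz' => ?_⟩
      rintro (rfl | ⟨-, -, hzx⟩)
      · rw [heq] at hzy
        exact lt_irrefl _ hzy
      · rw [heq] at hz'
        omega
    · refine ⟨x.1.1, hgt, fun z hz _ _ => ?_⟩
      rintro (rfl | ⟨-, hzx, -⟩)
      · exact lt_irrefl _ hz
      · exact absurd (hz.trans hzx) (lt_irrefl _)
  · rw [isOpen_XS_iff]
    rintro y (rfl | ⟨hdy, hyx, hn⟩)
    · exact ⟨d, hd, fun z hz hz' hz'' => Or.inr ⟨hz, hz', hz''⟩⟩
    · obtain ⟨e, he, h⟩ := S.coherence y.1.1 y.1.2 x.1.1 hyx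
      refine ⟨max d e, max_lt hdy he, fun z hz hzy hz' =>
        Or.inr ⟨lt_of_le_of_lt (le_max_left _ _) hz, hzy.trans hyx, ?_⟩⟩
      rw [h z.1.1 (lt_of_le_of_lt (le_max_right _ _) hz) hzy]
      omega

theorem XS_basis (S : CSys I) : IsTopologicalBasis {s : Set (XS S) | IsClopen s} := by
  apply isTopologicalBasis_of_isOpen_of_nhds
  · intro u hu
    exact hu.isOpen
  · intro x U hx hU
    obtain ⟨d, hd, h⟩ := (isOpen_XS_iff.1 hU) x hx
    refine ⟨nbd S d x, isClopen_nbd S d x hd, Or.inl rfl, ?_⟩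
    rintro y (rfl | ⟨h1, h2, h3⟩)
    · exact hx
    · exact h y h1 h2 h3

instance (S : CSys I) : T1Space (XS S) := by
  constructor
  intro x
  rw [← isOpen_compl_iff, isOpen_XS_iff]
  intro y hy
  rcases le_or_gt y.1.1 x.1.1 with hle | hgt
  · obtain ⟨e, he⟩ := y.1.2.exists_lt
    refine ⟨e, he, fun z _ hzy _ hzx => ?_⟩
    rw [Set.mem_singleton_iff] at hzx
    subst hzx
    exact absurd (hzy.trans_le hle) (lt_irrefl _)
  · refine ⟨x.1.1, hgt, fun z hz _ _ hzx => ?_⟩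
    rw [Set.mem_singleton_iff] at hzx
    subst hzx
    exact lt_irrefl _ hz

/-- clopen intervals in `YS` -/
def itv (d : I) (a : YS I) : Set (YS I) := {b | d < b.1 ∧ b.1 ≤ a.1}

omit [WellFoundedLT I] in
theorem isClopen_itv (d : I) (a : YS I) : IsClopen (itv d a) := by
  constructor
  · rw [← isOpen_compl_iff, isOpen_YS_iff]
    intro b hb
    rcases le_or_gt b.1 a.1 with hle | hgt
    · obtain ⟨e, he⟩ := b.2.exists_lt
      refine ⟨e, he, fun z _ hzb hz => hb ⟨hz.1.trans hzb, hle⟩⟩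
    · exact ⟨a.1, hgt, fun z hz _ hz' => absurd (hz.trans_le hz'.2) (lt_irrefl _)⟩
  · rw [isOpen_YS_iff]
    rintro b ⟨h1, h2⟩
    exact ⟨d, h1, fun z hz hzb => ⟨hz, hzb.le.trans h2⟩⟩

omit [WellFoundedLT I] in
theorem isOpen_iic (c : I) : IsOpen {b : YS I | b.1 ≤ c} := by
  rw [isOpen_YS_iff]
  intro b hb
  obtain ⟨e, he⟩ := b.2.exists_lt
  exact ⟨e, he, fun z _ hzb => hzb.le.trans hb⟩

theorem YS_basis : IsTopologicalBasis {s : Set (YS I) | IsClopen s} := by
  apply isTopologicalBasis_of_isOpen_of_nhds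
  · intro u hu
    exact hu.isOpen
  · intro x U hx hU
    obtain ⟨d, hd, h⟩ := (isOpen_YS_iff.1 hU) x hx
    refine ⟨itv d x, isClopen_itv d x, ⟨hd, le_rfl⟩, ?_⟩
    rintro y ⟨h1, h2⟩
    rcases eq_or_lt_of_le h2 with heq | hlt
    · have : y = x := Subtype.ext heq
      rw [this]; exact hx
    · exact h y h1 hlt

instance : T1Space (YS I) := by
  constructor
  intro x
  rw [← isOpen_compl_iff, isOpen_YS_iff]
  intro y hy
  rcases le_or_gt y.1 x.1 with hle | hgt
  · obtain ⟨e, he⟩ := y.2.exists_lt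
    refine ⟨e, he, fun z _ hzy hzx => ?_⟩
    rw [Set.mem_singleton_iff] at hzx
    subst hzx
    exact absurd (hzy.trans_le hle) (lt_irrefl _)
  · refine ⟨x.1, hgt, fun z hz _ hzx => ?_⟩
    rw [Set.mem_singleton_iff] at hzx
    subst hzx
    exact lt_irrefl _ hz

/-- `X` is weakly theta-refinable. -/
theorem XS_wtr (S : CSys I) : WeaklyThetaRefinable (XS S) := by
  intro U hU hcov
  have h1 : ∀ x : XS S, ∃ u ∈ U, x ∈ u := by
    intro x
    have : x ∈ ⋃₀ U := by rw [hcov]; trivial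
    exact this
  choose u huU hxu using h1
  refine ⟨fun n => {v | ∃ x : XS S, x.2 = n ∧ v = u x ∩ nbdTop S x}, ?_, ?_, ?_⟩
  · rintro n v ⟨x, -, rfl⟩
    exact (hU _ (huU x)).inter (isOpen_nbdTop S x)
  · rintro n v ⟨x, -, rfl⟩
    exact ⟨u x, huU x, Set.inter_subset_left⟩
  · intro x
    refine ⟨x.2, ⟨u x ∩ nbdTop S x, ⟨x, rfl, rfl⟩, hxu x, Or.inl rfl⟩, ?_⟩
    apply (Set.finite_singleton (u x ∩ nbdTop S x)).subset
    rintro v ⟨⟨y, hy, rfl⟩, -, hxy⟩
    rcases hxy with rfl | ⟨hlt, hn⟩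
    · rfl
    · exfalso
      have := S.rho_pos hlt
      omega

end

end Pool.Agent.H71
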